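import Mathlib

namespace Pool.Agent.OnePass

open Finset

theorem hit_step {n : ℕ} (hn : 0 < n) {K : Type*} (B : K → Finset (Fin n))
    (hB : ∀ k, n ≤ 2 * (B k).card) (U : Finset (Fin n)) (hU : 4 * U.card ≤ n) (R : Finset K) :
    ∃ y, y ∉ U ∧ 4 * (R.filter (fun k => y ∉ B k)).card ≤ 3 * R.card := by
  classical
  by_contra hcon
  push Not at hcon
  have hne : (Uᶜ).Nonempty := by
    rw [← Finset.card_pos, Finset.card_compl, Fintype.card_fin]; omega
  have h1 : ∀ y ∈ Uᶜ, 4 * (R.filter (fun k => y ∈ B k)).card < R.card := by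
    intro y hy
    have h2 := hcon y (by simpa using hy)
    have h3 : (R.filter (fun k => y ∈ B k)).card + (R.filter (fun k => y ∉ B k)).card = R.card :=
      Finset.card_filter_add_card_filter_not _
    omega
  have h2 : ∑ y ∈ Uᶜ, 4 * (R.filter (fun k => y ∈ B k)).card < ∑ _y ∈ Uᶜ, R.card :=
    Finset.sum_lt_sum_of_nonempty hne h1
  have h3 : ∑ y ∈ Uᶜ, (R.filter (fun k => y ∈ B k)).card
      = ∑ k ∈ R, ((Uᶜ).filter (fun y => y ∈ B k)).card := by
    simp only [Finset.card_filter]
    exact Finset.sum_comm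
  have h4 : ∀ k ∈ R, n ≤ 4 * ((Uᶜ).filter (fun y => y ∈ B k)).card := by
    intro k _
    have : (B k).card ≤ ((Uᶜ).filter (fun y => y ∈ B k)).card + U.card := by
      have hsub : B k ⊆ (Uᶜ).filter (fun y => y ∈ B k) ∪ U := by
        intro y hy
        by_cases hyU : y ∈ U
        · exact Finset.mem_union_right _ hyU
        · exact Finset.mem_union_left _ (by simp [hyU, hy])
      exact (Finset.card_le_card hsub).trans (Finset.card_union_le _ _)
    have := hB k
    omega
  have h5 : R.card * n ≤ ∑ y ∈ Uᶜ, 4 * (R.filter (fun k => y ∈ B k)).card := by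
    rw [← Finset.mul_sum, h3, Finset.mul_sum]
    calc R.card * n = ∑ _k ∈ R, n := by rw [Finset.sum_const, smul_eq_mul]
      _ ≤ _ := Finset.sum_le_sum h4
  rw [Finset.sum_const, smul_eq_mul, Finset.card_compl, Fintype.card_fin] at h2
  have h6 : (n - U.card) * R.card ≤ R.card * n := by
    rw [mul_comm]; exact Nat.mul_le_mul_left _ (Nat.sub_le _ _)
  omega

theorem hit_list {n : ℕ} (hn : 0 < n) {K : Type*} [Fintype K] (B : K → Finset (Fin n))
    (hB : ∀ k, n ≤ 2 * (B k).card) (U : Finset (Fin n)) :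
    ∀ h : ℕ, 4 * (U.card + h) ≤ n → ∃ l : List (Fin n), l.Nodup ∧ l.length = h ∧
      (∀ x ∈ l, x ∉ U) ∧
      ((univ : Finset K).filter (fun k => ∀ x ∈ l, x ∉ B k)).card * 4 ^ h
        ≤ Fintype.card K * 3 ^ h := by
  classical
  intro h
  induction h with
  | zero =>
    intro _
    exact ⟨[], by simp, rfl, by simp, by simp⟩
  | succ h ih =>
    intro hh
    obtain ⟨l, h1, h2, h3, h4⟩ := ih (by omega)
    have hU' : 4 * (U ∪ l.toFinset).card ≤ n := by
      have := Finset.card_union_le U l.toFinset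
      have h5 := List.toFinset_card_le l
      omega
    obtain ⟨y, hy1, hy2⟩ := hit_step hn B hB (U ∪ l.toFinset) hU'
      ((univ : Finset K).filter (fun k => ∀ x ∈ l, x ∉ B k))
    rw [Finset.mem_union, not_or, List.mem_toFinset] at hy1
    refine ⟨y :: l, List.nodup_cons.mpr ⟨hy1.2, h1⟩, by simp [h2], ?_, ?_⟩
    · intro x hx
      rcases List.mem_cons.mp hx with rfl | hx
      · exact hy1.1
      · exact h3 x hx
    · have e : (univ : Finset K).filter (fun k => ∀ x ∈ y :: l, x ∉ B k)
          = ((univ : Finset K).filter (fun k => ∀ x ∈ l, x ∉ B k)).filter (fun k => y ∉ B k) := by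
        ext k; simp [and_comm]
      rw [e, pow_succ, pow_succ]
      nlinarith [hy2, h4, Nat.zero_le (4 ^ h), Nat.zero_le (3 ^ h),
        Nat.mul_le_mul_right (4 ^ h) hy2]

theorem hit_all {n : ℕ} (hn : 0 < n) {K : Type*} [Fintype K] (B : K → Finset (Fin n))
    (hB : ∀ k, n ≤ 2 * (B k).card) (U : Finset (Fin n)) (h : ℕ)
    (hh : Fintype.card K * 3 ^ h < 4 ^ h) {α : Type*} [DecidableEq α] (A : Finset α) :
    4 * (U.card + A.card * h) ≤ n → ∃ F : α → List (Fin n),
      (∀ a ∈ A, (F a).Nodup ∧ (F a).length = h ∧ (∀ x ∈ F a, x ∉ U) ∧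
        ∀ k, ∃ x ∈ F a, x ∈ B k) ∧
      (∀ a ∈ A, ∀ a' ∈ A, a ≠ a' → ∀ x ∈ F a, x ∉ F a') := by
  classical
  induction A using Finset.induction_on with
  | empty => intro _; exact ⟨fun _ => [], by simp, by simp⟩
  | insert a A ha ih =>
    intro hc
    rw [Finset.card_insert_of_notMem ha] at hc
    have hmul : (A.card + 1) * h = A.card * h + h := by ring
    obtain ⟨F, hF1, hF2⟩ := ih (by omega)
    have hcard : (A.biUnion (fun a => (F a).toFinset)).card ≤ A.card * h := by
      refine (Finset.card_biUnion_le).trans ?_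
      refine (Finset.sum_le_card_nsmul A _ h ?_).trans (by simp)
      intro a' ha'
      exact (List.toFinset_card_le _).trans (hF1 a' ha').2.1.le
    obtain ⟨l, l1, l2, l3, l4⟩ := hit_list hn B hB (U ∪ A.biUnion (fun a => (F a).toFinset)) h
      (by
        have := Finset.card_union_le U (A.biUnion (fun a => (F a).toFinset))
        omega)
    have hempty : ∀ k, ∃ x ∈ l, x ∈ B k := by
      intro k
      by_contra hcon
      push Not at hcon
      have hpos : 1 ≤ ((univ : Finset K).filter (fun k => ∀ x ∈ l, x ∉ B k)).card :=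
        Finset.card_pos.mpr ⟨k, by simpa using hcon⟩
      have := Nat.mul_le_mul_right (4 ^ h) hpos
      omega
    refine ⟨Function.update F a l, ?_, ?_⟩
    · intro a' ha'
      rcases Finset.mem_insert.mp ha' with rfl | ha'
      · rw [Function.update_self]
        refine ⟨l1, l2, fun x hx hxU => l3 x hx (Finset.mem_union_left _ hxU), hempty⟩
      · have hne : a' ≠ a := fun hcon => ha (hcon ▸ ha')
        rw [Function.update_of_ne hne]
        exact hF1 a' ha'
    · intro a1 h1 a2 h2 hne x hx
      rcases Finset.mem_insert.mp h1 with rfl | h1'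
      · have hne2 : a2 ≠ a1 := hne.symm
        rw [Function.update_self] at hx
        rw [Function.update_of_ne hne2]
        have h2' : a2 ∈ A := by
          rcases Finset.mem_insert.mp h2 with h | h
          · exact absurd h hne2
          · exact h
        intro hcon
        exact l3 x hx (Finset.mem_union_right _
          (Finset.mem_biUnion.mpr ⟨a2, h2', List.mem_toFinset.mpr hcon⟩))
      · have hne1 : a1 ≠ a := fun hcon => ha (hcon ▸ h1')
        rw [Function.update_of_ne hne1] at hx
        rcases Finset.mem_insert.mp h2 with rfl | h2'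
        · rw [Function.update_self]
          intro hcon
          exact l3 x hcon (Finset.mem_union_right _
            (Finset.mem_biUnion.mpr ⟨a1, h1', List.mem_toFinset.mpr hx⟩))
        · have hne2 : a2 ≠ a := fun hcon => ha (hcon ▸ h2')
          rw [Function.update_of_ne hne2]
          exact hF2 a1 h1' a2 h2' hne x hx

/-- two injections of a finite set are related by a permutation -/
theorem exists_perm {ι V : Type*} [Finite ι] [Fintype V] [DecidableEq V] (f g : ι → V)
    (hf : Function.Injective f) (hg : Function.Injective g) :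
    ∃ π : Equiv.Perm V, ∀ i, π (f i) = g i := by
  classical
  let e : {x // x ∈ Set.range f} ≃ {y // y ∈ Set.range g} :=
    (Equiv.ofInjective f hf).symm.trans (Equiv.ofInjective g hg)
  refine ⟨e.extendSubtype, fun i => ?_⟩
  have hx : f i ∈ Set.range f := ⟨i, rfl⟩
  rw [e.extendSubtype_apply_of_mem (f i) hx]
  have : (Equiv.ofInjective f hf).symm ⟨f i, hx⟩ = i := by
    rw [Equiv.symm_apply_eq]; rfl
  simp [e, this]

/-- the offset of the `j`-th point for the step `l + 1` -/
def off (Q h l j : ℕ) : ℕ := ((l * h + j + 1) * Q + l) / (l + 1) * (l + 1)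

theorem off_lower (Q h l j : ℕ) : (l * h + j + 1) * Q ≤ off Q h l j := by
  unfold off
  have := Nat.div_add_mod ((l * h + j + 1) * Q + l) (l + 1)
  have h2 := Nat.mod_lt ((l * h + j + 1) * Q + l) (Nat.succ_pos l)
  rw [mul_comm] at this
  simp only [Nat.succ_eq_add_one] at h2
  omega

theorem off_upper (Q h l j : ℕ) : off Q h l j ≤ (l * h + j + 1) * Q + l :=
  Nat.div_mul_le_self _ _

theorem off_lt {Q h l j : ℕ} (hl : l < Q) : off Q h l j < (l * h + j + 1 + 1) * Q := by
  have := off_upper Q h l j
  have e : (l * h + j + 1 + 1) * Q = (l * h + j + 1) * Q + Q := by ring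
  omega

theorem idx_le {Q h l j : ℕ} (hl : l < Q) (hj : j < h) : l * h + j + 1 ≤ Q * h := by
  have : (l + 1) * h ≤ Q * h := Nat.mul_le_mul_right _ hl
  have e : (l + 1) * h = l * h + h := by ring
  omega

theorem off_lt_W {Q h l j : ℕ} (hl : l < Q) (hj : j < h) : off Q h l j < (Q * h + 1) * Q :=
  (off_lt hl).trans_le (Nat.mul_le_mul_right _ (Nat.succ_le_succ (idx_le hl hj)))

theorem off_pos {Q h l j : ℕ} (hl : l < Q) : 1 ≤ off Q h l j := by
  have := off_lower Q h l j
  have h2 : 1 * 1 ≤ (l * h + j + 1) * Q := Nat.mul_le_mul (by omega) (by omega)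
  omega

theorem off_inj {Q h l j l' j' : ℕ} (hl : l < Q) (hl' : l' < Q) (hj : j < h) (hj' : j' < h)
    (he : off Q h l j = off Q h l' j') : l = l' ∧ j = j' := by
  have key : ∀ {l j l' j' : ℕ}, l < Q → off Q h l j = off Q h l' j' →
      l' * h + j' + 1 ≤ l * h + j + 1 := by
    intro l j l' j' hl he
    have h1 := off_lt (h := h) (j := j) hl
    have h2 := off_lower Q h l' j'
    have h3 : (l' * h + j' + 1) * Q < (l * h + j + 1 + 1) * Q := by omega
    have := Nat.lt_of_mul_lt_mul_right h3
    omega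
  have h1 := key hl he
  have h2 := key hl' he.symm
  have h3 : l * h + j = l' * h + j' := by omega
  have hh : 0 < h := by omega
  have e1 : (l * h + j) / h = l := by
    rw [mul_comm, Nat.mul_add_div hh, Nat.div_eq_of_lt hj, add_zero]
  have e2 : (l' * h + j') / h = l' := by
    rw [mul_comm, Nat.mul_add_div hh, Nat.div_eq_of_lt hj', add_zero]
  have e3 : l = l' := by rw [← e1, h3, e2]
  subst e3
  exact ⟨rfl, by omega⟩

/-- **The arrangement.** -/
theorem arrange {n Q h W c c' : ℕ} (hQ : 1 ≤ Q) (hW : W = (Q * h + 1) * Q) (hc : W ≤ c)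
    (hcc : c + 1 + W ≤ c') (hc' : c' < n) (hh : n * 3 ^ h < 4 ^ h)
    (hn : 4 * (2 + 2 * Q * h) ≤ n) (B : Fin n → Finset (Fin n)) (hB : ∀ k, n ≤ 2 * (B k).card)
    (u v : Fin n) (huv : u ≠ v) :
    ∃ π : Equiv.Perm (Fin n), (π u).1 = c ∧ (π v).1 = c' ∧
      ∀ k, ∀ p, (p = c ∨ p = c') → ∀ L, 1 ≤ L → L ≤ Q → ∃ t, 1 ≤ t ∧ t * L ≤ W ∧
        ∃ x ∈ B k, (π x).1 = p - t * L := by
  classical
  have hn0 : 0 < n := by omega
  obtain ⟨F, hF1, hF2⟩ := hit_all (K := Fin n) hn0 B hB {u, v} h (by simpa using hh)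
    (univ : Finset (Bool × Fin Q)) (by
      have h1 : (({u, v} : Finset (Fin n))).card ≤ 2 := Finset.card_le_two
      have h2 : (univ : Finset (Bool × Fin Q)).card = 2 * Q := by simp
      rw [h2]; omega)
  have hlen : ∀ a, (F a).length = h := fun a => (hF1 a (mem_univ _)).2.1
  let pos : Bool → ℕ := fun b => if b then c' else c
  let f : ((Bool × Fin Q) × Fin h) ⊕ Bool → Fin n := fun i => match i with
    | Sum.inl (a, j) => (F a)[j.1]'(by rw [hlen]; exact j.2)
    | Sum.inr b => if b then v else u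
  have hposlt : ∀ b, pos b < n := by
    intro b; cases b <;> simp only [pos] <;> simp <;> omega
  let g : ((Bool × Fin Q) × Fin h) ⊕ Bool → Fin n := fun i => match i with
    | Sum.inl (a, j) => ⟨pos a.1 - off Q h a.2.1 j.1, by
        have := hposlt a.1; omega⟩
    | Sum.inr b => ⟨pos b, hposlt b⟩
  have hfmem : ∀ a j, f (Sum.inl (a, j)) ∈ F a := fun a j => List.getElem_mem _
  have hfU : ∀ a j, f (Sum.inl (a, j)) ≠ u ∧ f (Sum.inl (a, j)) ≠ v := by
    intro a j
    have := (hF1 a (mem_univ _)).2.2.1 _ (hfmem a j)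
    simpa using this
  have hf : Function.Injective f := by
    rintro (⟨a, j⟩ | b) (⟨a', j'⟩ | b') he
    · have haa : a = a' := by
        by_contra hne
        exact hF2 a (mem_univ _) a' (mem_univ _) hne _ (hfmem a j) (he ▸ hfmem a' j')
      subst haa
      have := ((hF1 a (mem_univ _)).1.getElem_inj_iff).mp he
      rw [Fin.ext this]
    · exfalso
      cases b' with
      | false => exact (hfU a j).1 (by simpa [f] using he)
      | true => exact (hfU a j).2 (by simpa [f] using he)
    · exfalso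
      cases b with
      | false => exact (hfU a' j').1 (by simpa [f] using he.symm)
      | true => exact (hfU a' j').2 (by simpa [f] using he.symm)
    · cases b <;> cases b' <;> simp [f] at he ⊢
      · exact huv he
      · exact huv he.symm
  have hoff : ∀ (l : Fin Q) (j : Fin h), off Q h l.1 j.1 < W := by
    intro l j; rw [hW]; exact off_lt_W l.2 j.2
  have hoff1 : ∀ (l : Fin Q) (j : Fin h), 1 ≤ off Q h l.1 j.1 := fun l j => off_pos l.2
  have hg : Function.Injective g := by
    rintro (⟨⟨b, l⟩, j⟩ | b) (⟨⟨b', l'⟩, j'⟩ | b') he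
    · have he' : pos b - off Q h l.1 j.1 = pos b' - off Q h l'.1 j'.1 := congrArg Fin.val he
      have h1 := hoff l j
      have h2 := hoff l' j'
      have hbb : b = b' := by
        cases b <;> cases b' <;> simp [pos] at he' ⊢ <;> omega
      subst hbb
      have hb : W ≤ pos b := by cases b <;> simp [pos] <;> omega
      have h3 : off Q h l.1 j.1 = off Q h l'.1 j'.1 := by omega
      obtain ⟨h4, h5⟩ := off_inj l.2 l'.2 j.2 j'.2 h3
      rw [Fin.ext h4, Fin.ext h5]
    · exfalso
      have he' : pos b - off Q h l.1 j.1 = pos b' := congrArg Fin.val he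
      have h1 := hoff l j
      have h2 := hoff1 l j
      cases b <;> cases b' <;> simp [pos] at he' <;> omega
    · exfalso
      have he' : pos b = pos b' - off Q h l'.1 j'.1 := congrArg Fin.val he
      have h1 := hoff l' j'
      have h2 := hoff1 l' j'
      cases b <;> cases b' <;> simp [pos] at he' <;> omega
    · have he' : pos b = pos b' := congrArg Fin.val he
      cases b <;> cases b' <;> simp [pos] at he' ⊢ <;> omega
  obtain ⟨π, hπ⟩ := exists_perm f g hf hg
  refine ⟨π, ?_, ?_, ?_⟩
  · have := congrArg Fin.val (hπ (Sum.inr false))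
    simpa [f, g, pos] using this
  · have := congrArg Fin.val (hπ (Sum.inr true))
    simpa [f, g, pos] using this
  · intro k p hp L hL1 hL2
    obtain ⟨b, hb⟩ : ∃ b, pos b = p := by
      rcases hp with rfl | rfl
      · exact ⟨false, by simp [pos]⟩
      · exact ⟨true, by simp [pos]⟩
    obtain ⟨x, hx, hxB⟩ := (hF1 (b, ⟨L - 1, by omega⟩) (mem_univ _)).2.2.2 k
    obtain ⟨j, hj, hxj⟩ := List.getElem_of_mem hx
    rw [hlen] at hj
    have hL : L - 1 + 1 = L := by omega
    refine ⟨(((L - 1) * h + j + 1) * Q + (L - 1)) / L, ?_, ?_, x, hxB, ?_⟩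
    · have h1 := off_pos (Q := Q) (h := h) (l := L - 1) (j := j) (by omega)
      unfold off at h1
      rw [hL] at h1
      rcases Nat.eq_zero_or_pos ((((L - 1) * h + j + 1) * Q + (L - 1)) / L) with h0 | h0
      · rw [h0, zero_mul] at h1; omega
      · exact h0
    · have h1 := off_lt_W (Q := Q) (h := h) (l := L - 1) (j := j) (by omega) hj
      unfold off at h1
      rw [hL, ← hW] at h1
      exact h1.le
    · have h1 := congrArg Fin.val (hπ (Sum.inl ((b, ⟨L - 1, by omega⟩), ⟨j, hj⟩)))
      have h2 : f (Sum.inl ((b, ⟨L - 1, by omega⟩), ⟨j, hj⟩)) = x := hxj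
      rw [h2] at h1
      rw [h1]
      simp only [g, off]
      rw [hL, hb]

end Pool.Agent.OnePass
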