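import Pool.Agent.Lib.OnePass.StreamMain

namespace Pool.Agent.OnePass

open Finset

/-- The property `P` of matrices is split by the row `α` with the transcripts `T`: it is the
disjoint union of `|T|` combinatorial rectangles. -/
structure Split {n : ℕ} (P : (Fin n → Fin n → Bool) → Prop) (α : Fin n) (T : Type) where
  /-- the transcript agrees with the row `α` -/
  A : T → (Fin n → Bool) → Prop
  /-- the transcript agrees with the other rows -/
  B : T → (Fin n → Fin n → Bool) → Prop
  hAB : ∀ ρ w, P (Function.update ρ α w) ↔ ∃ τ, A τ w ∧ B τ ρ
  huniq : ∀ ρ w τ τ', A τ w → B τ ρ → A τ' w → B τ' ρ → τ = τ'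

namespace Split

variable {n : ℕ} {P : (Fin n → Fin n → Bool) → Prop} {α : Fin n} {T : Type} (S : Split P α T)

include S

/-- exchanging a one and a zero outside the diagonal in the first row -/
theorem swap_first [Fintype T] (hT : 2 * Fintype.card T ≤ n)
    (hI : ∀ π : Equiv.Perm (Fin n), π α = α → ∀ G : Fin n → Fin n → Bool,
      P (fun i j => G (π i) (π j)) ↔ P G)
    (G : Fin n → Fin n → Bool) (x y : Fin n) (hx : x ≠ α) (hy : y ≠ α)
    (hGx : G α x = true) (hGy : G α y = false) :
    P (Function.update G α (fun j => G α (Equiv.swap x y j))) ↔ P G := by
  classical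
  have hxy : x ≠ y := fun h => by rw [h, hGy] at hGx; exact Bool.noConfusion hGx
  -- general step
  have step : ∀ (Z : Finset (Fin n)) (b : Bool) (p q : Fin n), α ∉ Z → Fintype.card T < Z.card →
      p ∈ Z → q ∈ Z →
      (P (Function.update G α (fun j => if j = p then b else if j ∈ Z then !b else G α j))
        ↔ P (Function.update G α
          (fun j => if j = q then b else if j ∈ Z then !b else G α j))) := by
    intro Z b p q hαZ hZ hp hq
    have half : ∀ p q, p ∈ Z → q ∈ Z →
        P (Function.update G α (fun j => if j = p then b else if j ∈ Z then !b else G α j))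
        → P (Function.update G α
          (fun j => if j = q then b else if j ∈ Z then !b else G α j)) := by
      intro p q hp hq h1
      by_contra h2
      exact core P α hI S.A S.B S.hAB S.huniq
        Z hαZ hZ b G
        (fun z j => if j = z then b else if j ∈ Z then !b else G α j) (fun _ _ => rfl)
        p q hp hq h1 h2
    exact ⟨half p q hp hq, half q p hq hp⟩
  -- zeros and ones outside the diagonal
  let Z0 : Finset (Fin n) := univ.filter (fun j => j ≠ α ∧ G α j = false)
  let Z1 : Finset (Fin n) := univ.filter (fun j => j ≠ α ∧ G α j = true)
  have hsum : Z0.card + Z1.card = n - 1 := by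
    have h1 : Z0 ∪ Z1 = univ.erase α := by
      ext j
      simp only [Z0, Z1, Finset.mem_union, Finset.mem_filter, Finset.mem_univ, true_and,
        Finset.mem_erase, and_true]
      cases G α j <;> simp
    have h2 : Disjoint Z0 Z1 := by
      rw [Finset.disjoint_left]
      intro j h3 h4
      simp only [Z0, Z1, Finset.mem_filter] at h3 h4
      rw [h3.2.2] at h4
      exact Bool.noConfusion h4.2.2
    rw [← Finset.card_union_of_disjoint h2, h1, Finset.card_erase_of_mem (Finset.mem_univ _),
      Finset.card_univ, Fintype.card_fin]
  have hn1 : 1 ≤ n := by
    have := α.2; omega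
  have hxZ0 : x ∉ Z0 := by simp [Z0, hGx]
  have hyZ1 : y ∉ Z1 := by simp [Z1, hGy]
  have hyZ0 : y ∈ Z0 := by simp [Z0, hy, hGy]
  have hxZ1 : x ∈ Z1 := by simp [Z1, hx, hGx]
  have hswap : ∀ j, G α (Equiv.swap x y j) = if j = x then false else if j = y then true
      else G α j := by
    intro j
    rw [Equiv.swap_apply_def]
    split_ifs with h1 h2
    · exact hGy
    · exact hGx
    · rfl
  have hfun : (fun j => G α (Equiv.swap x y j)) = fun j => if j = x then false
      else if j = y then true else G α j := funext hswap
  rw [hfun]
  have hupd : Function.update G α (G α) = G := Function.update_eq_self _ _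
  by_cases hcase : Fintype.card T < Z0.card + 1
  · have hc : (insert x Z0).card = Z0.card + 1 := Finset.card_insert_of_notMem hxZ0
    have h := step (insert x Z0) true y x (by simp [Z0, Ne.symm hx]) (by rw [hc]; exact hcase)
      (Finset.mem_insert_of_mem hyZ0) (Finset.mem_insert_self _ _)
    have e1 : (fun j => if j = y then true else if j ∈ insert x Z0 then !true else G α j)
        = (fun j => if j = x then false else if j = y then true else G α j) := by
      funext j
      by_cases h1 : j = y
      · subst h1; rw [if_pos rfl, if_neg hxy.symm, if_pos rfl]
      · rw [if_neg h1]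
        by_cases h2 : j = x
        · subst h2; rw [if_pos rfl, if_pos (Finset.mem_insert_self _ _)]; rfl
        · rw [if_neg h2, if_neg h1]
          by_cases h3 : j ∈ Z0
          · rw [if_pos (Finset.mem_insert_of_mem h3)]
            exact (Finset.mem_filter.mp h3).2.2.symm
          · rw [if_neg (by rw [Finset.mem_insert, not_or]; exact ⟨h2, h3⟩)]
    have e2 : (fun j => if j = x then true else if j ∈ insert x Z0 then !true else G α j)
        = G α := by
      funext j
      by_cases h2 : j = x
      · subst h2; rw [if_pos rfl, hGx]
      · rw [if_neg h2]
        by_cases h3 : j ∈ Z0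
        · rw [if_pos (Finset.mem_insert_of_mem h3)]
          exact (Finset.mem_filter.mp h3).2.2.symm
        · rw [if_neg (by rw [Finset.mem_insert, not_or]; exact ⟨h2, h3⟩)]
    rw [e1, e2, hupd] at h
    exact h
  · have hc : (insert y Z1).card = Z1.card + 1 := Finset.card_insert_of_notMem hyZ1
    have h := step (insert y Z1) false x y (by simp [Z1, Ne.symm hy]) (by rw [hc]; omega)
      (Finset.mem_insert_of_mem hxZ1) (Finset.mem_insert_self _ _)
    have e1 : (fun j => if j = x then false else if j ∈ insert y Z1 then !false else G α j)
        = (fun j => if j = x then false else if j = y then true else G α j) := by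
      funext j
      by_cases h1 : j = x
      · rw [if_pos h1, if_pos h1]
      · rw [if_neg h1, if_neg h1]
        by_cases h2 : j = y
        · subst h2; rw [if_pos (Finset.mem_insert_self _ _), if_pos rfl]; rfl
        · rw [if_neg h2]
          by_cases h3 : j ∈ Z1
          · rw [if_pos (Finset.mem_insert_of_mem h3)]
            exact (Finset.mem_filter.mp h3).2.2.symm
          · rw [if_neg (by rw [Finset.mem_insert, not_or]; exact ⟨h2, h3⟩)]
    have e2 : (fun j => if j = y then false else if j ∈ insert y Z1 then !false else G α j)
        = G α := by
      funext j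
      by_cases h2 : j = y
      · subst h2; rw [if_pos rfl, hGy]
      · rw [if_neg h2]
        by_cases h3 : j ∈ Z1
        · rw [if_pos (Finset.mem_insert_of_mem h3)]
          exact (Finset.mem_filter.mp h3).2.2.symm
        · rw [if_neg (by rw [Finset.mem_insert, not_or]; exact ⟨h2, h3⟩)]
    rw [e1, e2, hupd] at h
    exact h

/-- exchanging a one and a zero outside the diagonal in any row -/
theorem swap_any [Fintype T] (hT : 2 * Fintype.card T ≤ n) (hI : Invariant P)
    (G : Fin n → Fin n → Bool) (a x y : Fin n) (hx : x ≠ a) (hy : y ≠ a)
    (hGx : G a x = true) (hGy : G a y = false) :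
    P (Function.update G a (fun j => G a (Equiv.swap x y j))) ↔ P G := by
  let θ : Equiv.Perm (Fin n) := Equiv.swap α a
  have hθα : θ α = a := Equiv.swap_apply_left _ _
  have hθθ : ∀ j, θ (θ j) = j := Equiv.swap_apply_self _ _
  have hθne : ∀ z, z ≠ a → θ z ≠ α := by
    intro z hz h
    apply hz
    rw [← hθα, ← h, hθθ]
  have h := S.swap_first hT (fun π _ G => hI π G) (fun i j => G (θ i) (θ j)) (θ x) (θ y)
    (hθne x hx) (hθne y hy) (by simp only [hθα, hθθ]; exact hGx)
    (by simp only [hθα, hθθ]; exact hGy)
  rw [hI θ G] at h
  rw [← h, ← hI θ (Function.update G a (fun j => G a (Equiv.swap x y j)))]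
  have e : (fun i j => Function.update G a (fun j => G a (Equiv.swap x y j)) (θ i) (θ j))
      = Function.update (fun i j => G (θ i) (θ j)) α
        (fun j => (fun i j => G (θ i) (θ j)) α (Equiv.swap (θ x) (θ y) j)) := by
    funext i j
    by_cases hi : i = α
    · subst hi
      rw [Function.update_self, hθα, Function.update_self]
      have : θ (Equiv.swap (θ x) (θ y) j) = Equiv.swap x y (θ j) := by
        rw [Equiv.swap_apply_apply]
        simp only [Equiv.Perm.mul_apply, hθθ]
        have : θ⁻¹ j = θ j := by rw [Equiv.Perm.inv_eq_iff_eq, hθθ]
        rw [this]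
      simp only [hθα, this]
    · have hi' : θ i ≠ a := by
        intro h
        apply hi
        rw [← hθθ i, h, ← hθα, hθθ]
      rw [Function.update_of_ne hi, Function.update_of_ne hi']
  rw [e]

/-- changing one row without changing the diagonal entry and the number of ones -/
theorem row_change [Fintype T] (hT : 2 * Fintype.card T ≤ n) (hI : Invariant P) (a : Fin n)
    (f : Fin n → Bool) : ∀ (d : ℕ) (G : Fin n → Fin n → Bool),
      (univ.filter (fun j => G a j ≠ f j)).card = d → f a = G a a → ones f = ones (G a) →
      (P (Function.update G a f) ↔ P G) := by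
  classical
  intro d
  induction d using Nat.strong_induction_on with
  | _ d ih =>
    intro G hd hfa hones
    by_cases hGf : G a = f
    · rw [← hGf, Function.update_eq_self]
    -- a one of G a which is a zero of f, and conversely
    have h1 : (univ.filter (fun j => G a j = true ∧ f j = false)).card
        = (univ.filter (fun j => G a j = false ∧ f j = true)).card := by
      have h2 : ones f = (univ.filter (fun j => G a j = true ∧ f j = true)).card
          + (univ.filter (fun j => G a j = false ∧ f j = true)).card := by
        unfold ones
        rw [← Finset.card_union_of_disjoint]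
        · congr 1
          ext j
          simp only [Finset.mem_union, Finset.mem_filter, Finset.mem_univ, true_and]
          cases G a j <;> simp
        · rw [Finset.disjoint_left]
          intro j h3 h4
          rw [Finset.mem_filter] at h3 h4
          rw [h3.2.1] at h4
          exact Bool.noConfusion h4.2.1
      have h3 : ones (G a) = (univ.filter (fun j => G a j = true ∧ f j = true)).card
          + (univ.filter (fun j => G a j = true ∧ f j = false)).card := by
        unfold ones
        rw [← Finset.card_union_of_disjoint]
        · congr 1
          ext j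
          simp only [Finset.mem_union, Finset.mem_filter, Finset.mem_univ, true_and]
          cases f j <;> simp
        · rw [Finset.disjoint_left]
          intro j h3 h4
          rw [Finset.mem_filter] at h3 h4
          rw [h3.2.2] at h4
          exact Bool.noConfusion h4.2.2
      omega
    have hne : ∃ j, G a j ≠ f j := by
      by_contra hcon
      push Not at hcon
      exact hGf (funext hcon)
    obtain ⟨x, hx⟩ : ∃ x, G a x = true ∧ f x = false := by
      obtain ⟨j, hj⟩ := hne
      by_contra hcon
      have h2 : (univ.filter (fun j => G a j = true ∧ f j = false)) = ∅ := by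
        rw [Finset.filter_eq_empty_iff]
        intro z _ hz
        exact hcon ⟨z, hz⟩
      rw [h2, Finset.card_empty] at h1
      have h3 := Finset.card_eq_zero.mp h1.symm
      rw [Finset.filter_eq_empty_iff] at h3
      have h4 := h3 (Finset.mem_univ j)
      revert hj h4
      have h5 : ¬ (G a j = true ∧ f j = false) := fun h => hcon ⟨j, h⟩
      revert h5
      cases G a j <;> cases f j <;> simp
    obtain ⟨y, hy⟩ : ∃ y, G a y = false ∧ f y = true := by
      by_contra hcon
      have h2 : (univ.filter (fun j => G a j = false ∧ f j = true)) = ∅ := by
        rw [Finset.filter_eq_empty_iff]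
        intro z _ hz
        exact hcon ⟨z, hz⟩
      rw [h2, Finset.card_empty] at h1
      have h3 := Finset.card_eq_zero.mp h1
      rw [Finset.filter_eq_empty_iff] at h3
      exact h3 (Finset.mem_univ x) hx
    have hxa : x ≠ a := fun h => by
      rw [h, hfa] at hx; rw [hx.1] at hx; exact Bool.noConfusion hx.2
    have hya : y ≠ a := fun h => by
      rw [h, hfa] at hy; rw [hy.1] at hy; exact Bool.noConfusion hy.2
    have hxy : x ≠ y := fun h => by rw [h, hy.1] at hx; exact Bool.noConfusion hx.1
    let g : Fin n → Bool := fun j => G a (Equiv.swap x y j)
    have hg : ∀ j, g j = if j = x then false else if j = y then true else G a j := by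
      intro j
      show G a (Equiv.swap x y j) = _
      rw [Equiv.swap_apply_def]
      split_ifs with h1 h2
      · exact hy.1
      · exact hx.1
      · rfl
    have hG1 := S.swap_any hT hI G a x y hxa hya hx.1 hy.1
    have hlt : (univ.filter (fun j => Function.update G a g a j ≠ f j)).card < d := by
      rw [← hd]
      apply Finset.card_lt_card
      rw [Finset.ssubset_iff_of_subset]
      · refine ⟨x, ?_, ?_⟩
        · rw [Finset.mem_filter]
          exact ⟨Finset.mem_univ _, by rw [hx.1, hx.2]; simp⟩
        · rw [Finset.mem_filter, Function.update_self, hg, if_pos rfl, hx.2]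
          simp
      · intro j hj
        rw [Finset.mem_filter, Function.update_self, hg] at hj
        rw [Finset.mem_filter]
        refine ⟨Finset.mem_univ _, ?_⟩
        have h2 := hj.2
        by_cases h3 : j = x
        · rw [h3, hx.1, hx.2]; simp
        · rw [if_neg h3] at h2
          by_cases h4 : j = y
          · rw [h4, hy.1, hy.2]; simp
          · rw [if_neg h4] at h2; exact h2
    have h3 := ih _ hlt (Function.update G a g) rfl
      (by rw [Function.update_self, hg, if_neg hxa.symm, if_neg hya.symm]; exact hfa)
      (by
        rw [Function.update_self, hones]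
        unfold ones
        symm
        exact Finset.card_bij (fun j _ => Equiv.swap x y j)
          (by intro j hj; simpa [g] using hj)
          (by intro p _ q _ h; exact (Equiv.swap x y).injective h)
          (by
            intro q hq
            exact ⟨Equiv.swap x y q, by simpa [g] using hq, by simp⟩))
    rw [Function.update_idem] at h3
    rw [h3]; exact hG1

theorem rows_one_by_one [Fintype T] (hT : 2 * Fintype.card T ≤ n) (hI : Invariant P)
    (G G' : Fin n → Fin n → Bool)
    (h : ∀ i, G i i = G' i i ∧ ones (G i) = ones (G' i)) (A : Finset (Fin n)) :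
    P (fun i => if i ∈ A then G' i else G i) ↔ P G := by
  classical
  induction A using Finset.induction_on with
  | empty => simp
  | insert a A ha ih =>
    rw [← ih]
    have h1 := S.row_change hT hI a (G' a) _
      (fun i => if i ∈ A then G' i else G i) rfl (by rw [if_neg ha]; exact (h a).1.symm)
      (by rw [if_neg ha]; exact (h a).2.symm)
    rw [← h1]
    have : (fun i => if i ∈ insert a A then G' i else G i)
        = Function.update (fun i => if i ∈ A then G' i else G i) a (G' a) := by
      funext i
      by_cases hi : i = a
      · subst hi
        rw [Function.update_self, if_pos (Finset.mem_insert_self _ _)]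
      · rw [Function.update_of_ne hi]
        simp only [Finset.mem_insert, hi, false_or]
    rw [this]

theorem main [Fintype T] (hT : 2 * Fintype.card T ≤ n) (hI : Invariant P)
    (G G' : Fin n → Fin n → Bool) (h : loopDegrees G = loopDegrees G') :
    P G ↔ P G' := by
  classical
  obtain ⟨e, he⟩ := exists_perm_of_count (fun i => (G i i, ones (G i)))
    (fun i => (G' i i, ones (G' i))) h
  have h1 := S.rows_one_by_one hT hI G (fun i j => G' (e i) (e j)) (by
    intro i
    have h2 := he i
    rw [Prod.mk.injEq] at h2
    refine ⟨h2.1.symm, ?_⟩
    rw [← h2.2]
    unfold ones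
    symm
    exact Finset.card_bij (fun j _ => e j) (by intro a ha; simpa using ha)
      (by intro a _ b _ h; exact e.injective h)
      (by intro b hb; exact ⟨e.symm b, by simpa using hb, by simp⟩)) univ
  simp only [Finset.mem_univ, if_true] at h1
  rw [← h1, hI e G']

end Split

theorem loopDegrees_perm {n : ℕ} (π : Equiv.Perm (Fin n)) (G : Fin n → Fin n → Bool) :
    loopDegrees (fun i j => G (π i) (π j)) = loopDegrees G := by
  have h1 : ∀ i, ones (fun j => G (π i) (π j)) = ones (G (π i)) := by
    intro i
    unfold ones
    exact Finset.card_bij (fun j _ => π j) (by intro a ha; simpa using ha)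
      (by intro a _ b _ h; exact π.injective h)
      (by intro b hb; exact ⟨π.symm b, by simpa using hb, by simp⟩)
  unfold loopDegrees
  have h2 : (fun i => (G (π i) (π i), ones (fun j => G (π i) (π j))))
      = (fun i => (G i i, ones (G i))) ∘ π := by
    funext i; rw [h1]; rfl
  rw [h2, ← Multiset.map_map, Multiset.map_univ_val_equiv]

end Pool.Agent.OnePass
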