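import Mathlib

namespace Pool.Agent.OnePass

open Finset

/-- An algorithm reading the adjacency matrix of a directed graph on `Fin n` row by row. Its
memory between two readings is an element of the arbitrary type `H`; while a row is being read,
entry by entry from left to right, its working memory is an element of `σ`, and the transition
rule does not depend on the position in the row. -/
structure Reader (n : ℕ) (H σ : Type) where
  /-- memory at the beginning -/
  start : H
  /-- the row read next -/
  row : H → Fin n
  /-- working memory at the beginning of the reading -/
  init : H → σ
  /-- transition rule for the working memory when an entry of the row is read -/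
  step : H → σ → Bool → σ
  /-- new memory after the reading of the row -/
  upd : H → σ → H
  /-- accepting final memories -/
  acc : H → Prop
  /-- number of readings -/
  time : ℕ

namespace Reader

variable {n : ℕ} {H σ : Type} (M : Reader n H σ)

/-- working memory after reading the row `r` when the memory is `x` -/
def read (x : H) (r : Fin n → Bool) : σ := (List.ofFn r).foldl (M.step x) (M.init x)

/-- memory after `t` readings on the input `G` -/
def hist (G : Fin n → Fin n → Bool) : ℕ → H
  | 0 => M.start
  | t + 1 => M.upd (hist G t) (M.read (hist G t) (G (M.row (hist G t))))

/-- the input `G` is accepted -/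
def Accepts (G : Fin n → Fin n → Bool) : Prop := M.acc (M.hist G M.time)

/-- on every input every row is read at most `p` times -/
def Visits (p : ℕ) : Prop :=
  ∀ (G : Fin n → Fin n → Bool) (i : Fin n),
    ((Finset.range M.time).filter (fun t => M.row (M.hist G t) = i)).card ≤ p

end Reader

/-- `P` is a graph property: invariant under isomorphism -/
def Invariant {n : ℕ} (P : (Fin n → Fin n → Bool) → Prop) : Prop :=
  ∀ (π : Equiv.Perm (Fin n)) (G : Fin n → Fin n → Bool), P (fun i j => G (π i) (π j)) ↔ P G

/-- number of ones of a row -/
def ones {n : ℕ} (r : Fin n → Bool) : ℕ := (univ.filter (fun j => r j = true)).card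

/-- the multiset of the out-degrees -/
def outDegrees {n : ℕ} (G : Fin n → Fin n → Bool) : Multiset ℕ :=
  (univ : Finset (Fin n)).val.map (fun i => ones (G i))

/-- the multiset of the pairs (is there a loop at `i`, out-degree of `i`) -/
def loopDegrees {n : ℕ} (G : Fin n → Fin n → Bool) : Multiset (Bool × ℕ) :=
  (univ : Finset (Fin n)).val.map (fun i => (G i i, ones (G i)))

/-- the matrix whose `i`-th row consists of `d` ones followed by `n - d` zeros, where `d` is the
`i`-th largest element of the multiset `D` -/
def sortedMatrix (n : ℕ) (D : Multiset ℕ) : Fin n → Fin n → Bool :=
  fun i j => decide (j.1 < (D.sort (· ≥ ·)).getD i.1 0)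

end Pool.Agent.OnePass
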