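import Pool.Agent.Lib.OnePass.Main

namespace Pool.Agent.OnePass

open Finset

/-- two functions with fibres of the same sizes differ by a permutation -/
theorem exists_perm_of_count {n : ℕ} {α : Type} [DecidableEq α] (f g : Fin n → α)
    (h : (univ : Finset (Fin n)).val.map f = (univ : Finset (Fin n)).val.map g) :
    ∃ e : Equiv.Perm (Fin n), ∀ i, g (e i) = f i := by
  classical
  have hc : ∀ d, Nonempty ({i // f i = d} ≃ {i // g i = d}) := by
    intro d
    have h1 := congrArg (Multiset.count d) h
    rw [Multiset.count_map, Multiset.count_map] at h1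
    have h2 : ∀ k : Fin n → α, Multiset.card (Multiset.filter (fun a => d = k a)
        (univ : Finset (Fin n)).val) = Fintype.card {i // k i = d} := by
      intro k
      rw [Fintype.card_subtype]
      have : (univ.filter (fun i => k i = d)) = (univ.filter (fun i => d = k i)) := by
        ext i; simp [eq_comm]
      rw [this]
      rfl
    rw [h2, h2] at h1
    exact ⟨Fintype.equivOfCardEq h1⟩
  choose e _ using fun d => (hc d).elim (fun x => (⟨x, trivial⟩ : ∃ _x : {i // f i = d} ≃ {i // g i = d}, True))
  refine ⟨Equiv.ofFiberEquiv e, fun i => ?_⟩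
  exact Equiv.ofFiberEquiv_map e i

theorem exists_perm_of_ones {n : ℕ} (f g : Fin n → Bool) (h : ones f = ones g) :
    ∃ e : Equiv.Perm (Fin n), ∀ i, g (e i) = f i := by
  classical
  apply exists_perm_of_count
  have hcompl : ∀ k : Fin n → Bool, (univ.filter (fun j => k j = false)).card = n - ones k := by
    intro k
    have h3 : (univ.filter (fun x => k x = true)).card
        + (univ.filter (fun x => ¬ k x = true)).card = (univ : Finset (Fin n)).card :=
      Finset.card_filter_add_card_filter_not _
    rw [Finset.card_univ, Fintype.card_fin] at h3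
    have : (univ.filter (fun x => k x = false)) = (univ.filter (fun x => ¬ k x = true)) := by
      ext x; simp
    rw [this]; unfold ones; omega
  have h2 : ∀ (k : Fin n → Bool) (b : Bool), Multiset.card (Multiset.filter (fun a => b = k a)
        (univ : Finset (Fin n)).val) = (univ.filter (fun j => k j = b)).card := by
    intro k b
    have : (univ.filter (fun i => k i = b)) = (univ.filter (fun i => b = k i)) := by
      ext i; simp [eq_comm]
    rw [this]
    rfl
  ext b
  rw [Multiset.count_map, Multiset.count_map, h2, h2]
  cases b with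
  | false => rw [hcompl, hcompl, h]
  | true => exact h

namespace Reader

variable {n : ℕ} {H σ : Type} (M : Reader n H σ)

theorem perm_rows [Fintype σ] {s p : ℕ} (hs1 : 1 ≤ s) (hσ : Fintype.card σ ≤ s)
    (hV : M.Visits p) (hn : 48 * s ^ (12 * p) * (Nat.log 2 n + 1) ≤ n)
    (hI : Invariant M.Accepts) (e : Equiv.Perm (Fin n)) :
    ∀ G : Fin n → Fin n → Bool, M.Accepts (fun i => G (e i)) ↔ M.Accepts G := by
  induction e using Equiv.Perm.swap_induction_on with
  | one => intro G; exact Iff.rfl
  | swap_mul f x y _ ih =>
    intro G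
    have h1 := ih (fun i => G (Equiv.swap x y i))
    exact h1.trans (M.swap_rows hs1 hσ hV hn hI G x y)

theorem perm_bits [Fintype σ] {s p : ℕ} (hs1 : 1 ≤ s) (hσ : Fintype.card σ ≤ s)
    (hV : M.Visits p) (hn : 48 * s ^ (12 * p) * (Nat.log 2 n + 1) ≤ n)
    (hI : Invariant M.Accepts) (a : Fin n) (e : Equiv.Perm (Fin n)) :
    ∀ G : Fin n → Fin n → Bool,
      M.Accepts (Function.update G a (fun j => G a (e j))) ↔ M.Accepts G := by
  induction e using Equiv.Perm.swap_induction_on with
  | one =>
    intro G
    have : Function.update G a (fun j => G a ((1 : Equiv.Perm (Fin n)) j)) = G := by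
      funext i
      by_cases h : i = a
      · subst h; rw [Function.update_self]; rfl
      · rw [Function.update_of_ne h]
    rw [this]
  | swap_mul f x y _ ih =>
    intro G
    have h1 := ih (Function.update G a (fun j => G a (Equiv.swap x y j)))
    rw [Function.update_self, Function.update_idem] at h1
    exact h1.trans (M.swap_bits hs1 hσ hV hn hI G a x y)

theorem rows_one_by_one [Fintype σ] {s p : ℕ} (hs1 : 1 ≤ s) (hσ : Fintype.card σ ≤ s)
    (hV : M.Visits p) (hn : 48 * s ^ (12 * p) * (Nat.log 2 n + 1) ≤ n)
    (hI : Invariant M.Accepts) (G G' : Fin n → Fin n → Bool)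
    (h : ∀ i, ones (G i) = ones (G' i)) (A : Finset (Fin n)) :
    M.Accepts (fun i => if i ∈ A then G' i else G i) ↔ M.Accepts G := by
  classical
  induction A using Finset.induction_on with
  | empty => simp
  | insert a A ha ih =>
    rw [← ih]
    obtain ⟨e, he⟩ := exists_perm_of_ones (G' a) (G a) (h a).symm
    have h1 := M.perm_bits hs1 hσ hV hn hI a e (fun i => if i ∈ A then G' i else G i)
    rw [← h1]
    have : (fun i => if i ∈ insert a A then G' i else G i)
        = Function.update (fun i => if i ∈ A then G' i else G i) a
          (fun j => (fun i => if i ∈ A then G' i else G i) a (e j)) := by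
      funext i
      by_cases hi : i = a
      · subst hi
        rw [Function.update_self, if_pos (Finset.mem_insert_self _ _)]
        funext j
        simp only [if_neg ha]
        exact (he j).symm
      · rw [Function.update_of_ne hi]
        simp only [Finset.mem_insert, hi, false_or]
    rw [this]

theorem main [Fintype σ] {s p : ℕ} (hs1 : 1 ≤ s) (hσ : Fintype.card σ ≤ s)
    (hV : M.Visits p) (hn : 48 * s ^ (12 * p) * (Nat.log 2 n + 1) ≤ n)
    (hI : Invariant M.Accepts) (G G' : Fin n → Fin n → Bool)
    (h : outDegrees G = outDegrees G') : M.Accepts G ↔ M.Accepts G' := by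
  classical
  obtain ⟨e, he⟩ := exists_perm_of_count (fun i => ones (G i)) (fun i => ones (G' i)) h
  have h1 := M.rows_one_by_one hs1 hσ hV hn hI G (fun i => G' (e i)) (fun i => (he i).symm) univ
  simp only [Finset.mem_univ, if_true] at h1
  rw [← h1, M.perm_rows hs1 hσ hV hn hI e G']

end Reader

theorem ones_le {n : ℕ} (r : Fin n → Bool) : ones r ≤ n := by
  unfold ones
  calc _ ≤ (univ : Finset (Fin n)).card := Finset.card_le_card (Finset.filter_subset _ _)
    _ = n := by rw [Finset.card_univ, Fintype.card_fin]

theorem ones_lt {n d : ℕ} (hd : d ≤ n) : ones (fun j : Fin n => decide (j.1 < d)) = d := by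
  unfold ones
  have : (univ.filter (fun j : Fin n => decide (j.1 < d) = true))
      = (univ.filter (fun j : Fin n => j.1 < d)) := by ext j; simp
  rw [this, Fin.card_filter_val_lt, min_eq_right hd]

theorem outDegrees_sortedMatrix {n : ℕ} (G : Fin n → Fin n → Bool) :
    outDegrees (sortedMatrix n (outDegrees G)) = outDegrees G := by
  obtain ⟨l, hl⟩ : ∃ l, l = (outDegrees G).sort (· ≥ ·) := ⟨_, rfl⟩
  have h1 : (l : Multiset ℕ) = outDegrees G := by rw [hl]; exact Multiset.sort_eq _ _
  have h2 : l.length = n := by
    rw [← Multiset.coe_card, h1]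
    unfold outDegrees
    rw [Multiset.card_map]
    exact (Finset.card_univ).trans (Fintype.card_fin n)
  have h3 : ∀ x ∈ l, x ≤ n := by
    intro x hx
    have : x ∈ outDegrees G := by rw [← h1]; exact hx
    unfold outDegrees at this
    rw [Multiset.mem_map] at this
    obtain ⟨i, _, rfl⟩ := this
    exact ones_le _
  have h4 : ∀ i : Fin n, ones (sortedMatrix n (outDegrees G) i) = l.getD i.1 0 := by
    intro i
    unfold sortedMatrix
    rw [← hl]
    apply ones_lt
    rw [List.getD_eq_getElem _ _ (by rw [h2]; exact i.2)]
    exact h3 _ (List.getElem_mem _)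
  have h5 : (fun i => ones (sortedMatrix n (outDegrees G) i)) = fun i : Fin n => l.getD i.1 0 := by
    funext i; exact h4 i
  calc outDegrees (sortedMatrix n (outDegrees G))
      = (univ : Finset (Fin n)).val.map (fun i => ones (sortedMatrix n (outDegrees G) i)) := rfl
    _ = (List.ofFn (fun i : Fin n => l.getD i.1 0) : Multiset ℕ) := by
        rw [h5, Fin.univ_val_map]
    _ = (l : Multiset ℕ) := by
        congr 1
        apply List.ext_getElem
        · rw [List.length_ofFn, h2]
        · intro i h6 h7
          rw [List.getElem_ofFn, List.getD_eq_getElem _ _ h7]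
    _ = outDegrees G := h1

theorem outDegrees_perm {n : ℕ} (π : Equiv.Perm (Fin n)) (G : Fin n → Fin n → Bool) :
    outDegrees (fun i j => G (π i) (π j)) = outDegrees G := by
  have h1 : ∀ i, ones (fun j => G (π i) (π j)) = ones (G (π i)) := by
    intro i
    unfold ones
    exact Finset.card_bij (fun j _ => π j) (by intro a ha; simpa using ha)
      (by intro a _ b _ h; exact π.injective h)
      (by intro b hb; exact ⟨π.symm b, by simpa using hb, by simp⟩)
  unfold outDegrees
  have h2 : (fun i => ones (fun j => G (π i) (π j))) = (fun i => ones (G i)) ∘ π := by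
    funext i; exact h1 i
  rw [h2, ← Multiset.map_map, Multiset.map_univ_val_equiv]

/-- the main theorem in the form of an equivalence -/
theorem main_iff {n p s : ℕ} {H σ : Type} [Fintype σ] (hσ : Fintype.card σ ≤ s)
    (hn : 48 * s ^ (12 * p) * (Nat.log 2 n + 1) ≤ n) (M : Reader n H σ) (hV : M.Visits p) :
    Invariant M.Accepts ↔
      ∀ G : Fin n → Fin n → Bool, M.Accepts G ↔ M.Accepts (sortedMatrix n (outDegrees G)) := by
  have hs1 : 1 ≤ s := by
    have : 0 < Fintype.card σ := Fintype.card_pos_iff.mpr ⟨M.init M.start⟩
    omega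
  constructor
  · intro hI G
    exact M.main hs1 hσ hV hn hI G _ (outDegrees_sortedMatrix G).symm
  · intro h π G
    rw [h (fun i j => G (π i) (π j)), h G, outDegrees_perm]

end Pool.Agent.OnePass
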