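import Mathlib

namespace Pool.Agent.OnePass

variable {τ : Type*}

/-- the word `b`, read from the state `q`, contains a loop of length `l` -/
def Loopy (δ : τ → Bool → τ) (l : ℕ) (q : τ) (b : List Bool) : Prop :=
  ∃ x y z, b = x ++ y ++ z ∧ y.length = l ∧ (x ++ y).foldl δ q = x.foldl δ q

theorem exists_loopy [Fintype τ] (δ : τ → Bool → τ) {S : ℕ} (hS : Fintype.card τ ≤ S)
    (q : τ) (b : List Bool) (hb : S ≤ b.length) :
    ∃ l ∈ Finset.Icc 1 S, Loopy δ l q b := by
  classical
  obtain ⟨i, j, hij, he⟩ := Fintype.exists_ne_map_eq_of_card_lt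
    (fun j : Fin (S + 1) => (b.take j.1).foldl δ q) (by simpa using Nat.lt_succ_of_le hS)
  wlog hlt : i < j generalizing i j
  · exact this j i hij.symm he.symm (lt_of_le_of_ne (not_lt.mp hlt) hij.symm)
  have hi : i.1 < j.1 := hlt
  have hj : j.1 ≤ S := Nat.lt_succ_iff.mp j.2
  refine ⟨j.1 - i.1, ?_, b.take i.1, (b.take j.1).drop i.1, b.drop j.1, ?_, ?_, ?_⟩
  · rw [Finset.mem_Icc]; omega
  · have h1 : b.take i.1 = (b.take j.1).take i.1 := by
      rw [List.take_take, min_eq_left hi.le]
    rw [h1, List.take_append_drop, List.take_append_drop]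
  · rw [List.length_drop, List.length_take]; omega
  · have h1 : b.take i.1 = (b.take j.1).take i.1 := by
      rw [List.take_take, min_eq_left hi.le]
    have h2 : b.take i.1 ++ (b.take j.1).drop i.1 = b.take j.1 := by
      rw [h1, List.take_append_drop]
    rw [h2]; exact he.symm

/-- insertion of loops -/
theorem ins {δ : τ → Bool → τ} {l : ℕ} {q : τ} {b : List Bool} (h : Loopy δ l q b) (m : ℕ) :
    ∃ b' : List Bool, b'.length = b.length + m * l ∧ b'.foldl δ q = b.foldl δ q := by
  obtain ⟨x, y, z, rfl, hy, hl⟩ := h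
  have key : ∀ m : ℕ, ∃ y' : List Bool, y'.length = m * l ∧ y'.foldl δ (x.foldl δ q) = x.foldl δ q := by
    intro m
    induction m with
    | zero => exact ⟨[], by simp, rfl⟩
    | succ m ih =>
      obtain ⟨y', h1, h2⟩ := ih
      refine ⟨y' ++ y, by rw [List.length_append, h1, hy]; ring, ?_⟩
      rw [List.foldl_append, h2, ← List.foldl_append, hl]
  obtain ⟨y', h1, h2⟩ := key m
  refine ⟨x ++ y' ++ y ++ z, ?_, ?_⟩
  · simp only [List.length_append, h1]; ring
  · simp only [List.foldl_append, h2]

open Classical in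
/-- the number of the first `B` blocks of length `S` which contain a loop of length `l` -/
noncomputable def cnt (δ : τ → Bool → τ) (S l : ℕ) : ℕ → τ → List Bool → ℕ
  | 0, _, _ => 0
  | B + 1, q, r => (if Loopy δ l q (r.take S) then 1 else 0) +
      cnt δ S l B ((r.take S).foldl δ q) (r.drop S)

theorem sum_cnt [Fintype τ] (δ : τ → Bool → τ) {S : ℕ} (hS : Fintype.card τ ≤ S) :
    ∀ (B : ℕ) (q : τ) (r : List Bool), S * B ≤ r.length →
      B ≤ ∑ l ∈ Finset.Icc 1 S, cnt δ S l B q r
  | 0, _, _, _ => Nat.zero_le _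
  | B + 1, q, r, h => by
    classical
    have h' : S * B + S ≤ r.length := by rw [← Nat.mul_succ]; exact h
    have h1 : S * B ≤ (r.drop S).length := by rw [List.length_drop]; omega
    have ih := sum_cnt δ hS B ((r.take S).foldl δ q) (r.drop S) h1
    obtain ⟨l, hl, hlo⟩ := exists_loopy δ hS q (r.take S) (by rw [List.length_take]; omega)
    simp only [cnt, Finset.sum_add_distrib]
    have : 1 ≤ ∑ l ∈ Finset.Icc 1 S, (if Loopy δ l q (r.take S) then 1 else 0) := by
      calc 1 = (if Loopy δ l q (r.take S) then 1 else 0) := by rw [if_pos hlo]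
        _ ≤ _ := Finset.single_le_sum (f := fun l => if Loopy δ l q (r.take S) then 1 else 0)
            (fun _ _ => Nat.zero_le _) hl
    omega

/-- deletion of `m` loops of length `l` -/
theorem del (δ : τ → Bool → τ) (S l : ℕ) :
    ∀ (B m : ℕ) (q : τ) (r : List Bool), S * B ≤ r.length → m ≤ cnt δ S l B q r →
      ∃ pre, (pre ++ r.drop (S * B)).length + m * l = r.length ∧
        (pre ++ r.drop (S * B)).foldl δ q = r.foldl δ q
  | 0, m, q, r, _, hm => by
    have : m = 0 := by simpa [cnt] using hm
    subst this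
    exact ⟨[], by simp, by simp⟩
  | B + 1, m, q, r, h, hm => by
    classical
    have h' : S * B + S ≤ r.length := by rw [← Nat.mul_succ]; exact h
    have h1 : S * B ≤ (r.drop S).length := by rw [List.length_drop]; omega
    have hd : r.drop (S * (B + 1)) = (r.drop S).drop (S * B) := by
      rw [List.drop_drop]; congr 1; ring
    have hr : r.take S ++ r.drop S = r := List.take_append_drop S r
    have hlen : (r.take S).length + (r.drop S).length = r.length := by
      rw [← List.length_append, hr]
    rw [hd]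
    rw [cnt] at hm
    by_cases hc : m ≤ cnt δ S l B ((r.take S).foldl δ q) (r.drop S)
    · obtain ⟨pre, hp1, hp2⟩ := del δ S l B m _ _ h1 hc
      refine ⟨r.take S ++ pre, ?_, ?_⟩
      · rw [List.append_assoc, List.length_append]; omega
      · rw [List.append_assoc, List.foldl_append, hp2, ← List.foldl_append, hr]
    · have hlo : Loopy δ l q (r.take S) := by
        by_contra hcon
        rw [if_neg hcon] at hm; omega
      rw [if_pos hlo] at hm
      obtain ⟨m', rfl⟩ : ∃ m', m = m' + 1 := ⟨m - 1, by omega⟩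
      have hm' : m' ≤ cnt δ S l B ((r.take S).foldl δ q) (r.drop S) := by omega
      obtain ⟨pre, hp1, hp2⟩ := del δ S l B m' _ _ h1 hm'
      obtain ⟨x, y, z, hb, hy, hl⟩ := hlo
      have hlb : (r.take S).length = x.length + y.length + z.length := by
        rw [hb]; simp only [List.length_append]
      refine ⟨x ++ z ++ pre, ?_, ?_⟩
      · rw [List.append_assoc, List.length_append, List.length_append]
        have : (m' + 1) * l = m' * l + l := by ring
        rw [this]; omega
      · rw [List.append_assoc, List.append_assoc, List.foldl_append, List.foldl_append]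
        have e1 : z.foldl δ (x.foldl δ q) = (r.take S).foldl δ q := by
          rw [hb, List.foldl_append, hl]
        rw [e1, hp2, ← List.foldl_append, hr]

/-- in a long word one loop length is available many times -/
theorem exists_del [Fintype τ] (δ : τ → Bool → τ) {S : ℕ} (hS : Fintype.card τ ≤ S) (hS1 : 1 ≤ S)
    (T : ℕ) (q : τ) (r : List Bool) (hr : S * (S * T) ≤ r.length) :
    ∃ l ∈ Finset.Icc 1 S, ∀ m ≤ T, ∃ pre,
      (pre ++ r.drop (S * (S * T))).length + m * l = r.length ∧
        (pre ++ r.drop (S * (S * T))).foldl δ q = r.foldl δ q := by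
  have h := sum_cnt δ hS (S * T) q r hr
  obtain ⟨l, hl, hT⟩ : ∃ l ∈ Finset.Icc 1 S, T ≤ cnt δ S l (S * T) q r := by
    by_contra hcon
    push Not at hcon
    have h2 : ∑ l ∈ Finset.Icc 1 S, cnt δ S l (S * T) q r < ∑ _l ∈ Finset.Icc 1 S, T :=
      Finset.sum_lt_sum_of_nonempty ⟨1, by rw [Finset.mem_Icc]; omega⟩ hcon
    rw [Finset.sum_const, Nat.card_Icc, smul_eq_mul, Nat.add_sub_cancel] at h2
    omega
  exact ⟨l, hl, fun m hm => del δ S l _ m q r hr (hm.trans hT)⟩

/-- **Flexibility.** The entry at position `p` can be replaced by an entry at distance `t * L`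
to the left, for every `L` that is a product of two loop lengths, by a change of the word which
is not noticed by the automaton. -/
theorem flex [Fintype τ] (δ : τ → Bool → τ) {S : ℕ} (hS : Fintype.card τ ≤ S) (hS1 : 1 ≤ S)
    (W p : ℕ) (w : List Bool) (hp : W + S ≤ p) (hw : p + 1 + S * (S * W) ≤ w.length) (β : Bool)
    (hβ : ∀ L, 1 ≤ L → L ≤ S * S → ∃ t, 1 ≤ t ∧ t * L ≤ W ∧ w[p - t * L]? = some β) (q : τ) :
    ∃ w' : List Bool, w'.length = w.length ∧ w'.foldl δ q = w.foldl δ q ∧ w'[p]? = some β ∧
      (∀ j, j + W + S < p → w'[j]? = w[j]?) ∧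
      (∀ j, p + 1 + S * (S * W) ≤ j → w'[j]? = w[j]?) := by
  obtain ⟨a, ha⟩ : ∃ a, a = w.take (p - W - S) := ⟨_, rfl⟩
  obtain ⟨b, hb⟩ : ∃ b, b = (w.drop (p - W - S)).take S := ⟨_, rfl⟩
  obtain ⟨d, hd⟩ : ∃ d, d = (w.drop (p - W)).take (W + 1) := ⟨_, rfl⟩
  obtain ⟨r, hr⟩ : ∃ r, r = w.drop (p + 1) := ⟨_, rfl⟩
  have hdr : d ++ r = w.drop (p - W) := by
    rw [hd, hr]
    have : w.drop (p + 1) = (w.drop (p - W)).drop (W + 1) := by
      rw [List.drop_drop]; congr 1; omega
    rw [this, List.take_append_drop]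
  have hbdr : b ++ (d ++ r) = w.drop (p - W - S) := by
    rw [hdr, hb]
    have : w.drop (p - W) = (w.drop (p - W - S)).drop S := by
      rw [List.drop_drop]; congr 1; omega
    rw [this, List.take_append_drop]
  have hwall : a ++ (b ++ (d ++ r)) = w := by rw [hbdr, ha, List.take_append_drop]
  have la : a.length = p - W - S := by rw [ha, List.length_take]; omega
  have lb : b.length = S := by rw [hb, List.length_take, List.length_drop]; omega
  have ld : d.length = W + 1 := by rw [hd, List.length_take, List.length_drop]; omega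
  have lr : r.length = w.length - (p + 1) := by rw [hr, List.length_drop]
  obtain ⟨la', hla', hlo⟩ := exists_loopy δ hS (a.foldl δ q) b (by omega)
  obtain ⟨lb', hlb', hdel⟩ := exists_del δ hS hS1 W ((a ++ b ++ d).foldl δ q) r (by omega)
  rw [Finset.mem_Icc] at hla' hlb'
  obtain ⟨t, ht1, ht2, ht3⟩ := hβ (la' * lb') (Nat.mul_pos hla'.1 hlb'.1)
    (Nat.mul_le_mul hla'.2 hlb'.2)
  have hm : t * la' ≤ W := by
    refine le_trans ?_ ht2
    rw [← mul_assoc]
    exact Nat.le_mul_of_pos_right _ hlb'.1
  obtain ⟨pre, hp1, hp2⟩ := hdel (t * la') hm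
  obtain ⟨b', hb1, hb2⟩ := ins hlo (t * lb')
  obtain ⟨D, hD⟩ : ∃ D, D = t * (la' * lb') := ⟨_, rfl⟩
  have hD1 : t * la' * lb' = D := by rw [hD]; ring
  have hD2 : t * lb' * la' = D := by rw [hD]; ring
  have hDpos : 1 ≤ D := by
    rw [hD]; exact Nat.mul_pos ht1 (Nat.mul_pos hla'.1 hlb'.1)
  rw [hD1] at hp1
  rw [hD2] at hb1
  rw [← hD] at ht2 ht3
  obtain ⟨tl, htl⟩ : ∃ tl, tl = r.drop (S * (S * W)) := ⟨_, rfl⟩
  rw [← htl] at hp1 hp2
  have ltl : tl.length = r.length - S * (S * W) := by rw [htl, List.length_drop]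
  have htlw : tl = w.drop (p + 1 + S * (S * W)) := by
    rw [htl, hr, List.drop_drop]
  have hlen : (a ++ (b' ++ (d ++ (pre ++ tl)))).length = w.length := by
    have h0 : (pre ++ tl).length + D = r.length := hp1
    simp only [List.length_append] at h0 ⊢
    omega
  refine ⟨a ++ (b' ++ (d ++ (pre ++ tl))), hlen, ?_, ?_, ?_, ?_⟩
  · have e2 : w.foldl δ q = r.foldl δ ((a ++ b ++ d).foldl δ q) := by
      rw [← List.foldl_append]
      congr 1
      rw [← hwall]; simp only [List.append_assoc]
    rw [e2, ← hp2]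
    simp only [List.foldl_append, hb2]
  · have hwp : w[p - D]? = d[W - D]? := by
      have : w[p - D]? = (a ++ (b ++ (d ++ r)))[p - D]? := by rw [hwall]
      rw [this, List.getElem?_append_right (by omega), List.getElem?_append_right (by omega),
        List.getElem?_append_left (by omega)]
      congr 1; omega
    rw [List.getElem?_append_right (by omega), List.getElem?_append_right (by omega),
      List.getElem?_append_left (by omega), ← ht3, hwp]
    congr 1; omega
  · intro j hj
    have : w[j]? = (a ++ (b ++ (d ++ r)))[j]? := by rw [hwall]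
    rw [this, List.getElem?_append_left (by omega), List.getElem?_append_left (by omega)]
  · intro j hj
    have h0 : (pre ++ tl).length + D = r.length := hp1
    rw [List.length_append] at h0
    have e1 : a ++ (b' ++ (d ++ (pre ++ tl))) = (a ++ b' ++ d ++ pre) ++ tl := by
      simp only [List.append_assoc]
    have l1 : (a ++ b' ++ d ++ pre).length = p + 1 + S * (S * W) := by
      simp only [List.length_append]; omega
    rw [e1, List.getElem?_append_right (by omega), l1, htlw, List.getElem?_drop]
    congr 1; omega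

end Pool.Agent.OnePass
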