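import Pool.Agent.Lib.OnePass.Defs
import Pool.Agent.Lib.OnePass.Loops
import Pool.Agent.Lib.OnePass.Arr

namespace Pool.Agent.OnePass

open Finset

section Flex

/-- function form of flexibility -/
theorem rowflex {n S W c c' : ℕ} (hS1 : 1 ≤ S) (hc : W + S ≤ c) (hc1 : c + 1 + S * (S * W) ≤ c')
    (hc2 : c + W + S < c') (hn : c' + 1 + S * (S * W) ≤ n) (w : Fin n → Bool) (β : Bool)
    (hβ : ∀ p, (p = c ∨ p = c') → ∀ L, 1 ≤ L → L ≤ S * S → ∃ t, 1 ≤ t ∧ t * L ≤ W ∧
      ∃ x : Fin n, x.1 = p - t * L ∧ w x = β)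
    {τ : Type} [Fintype τ] (hS : Fintype.card τ ≤ S) (δ : τ → Bool → τ) (q : τ) :
    ∃ s : Fin n → Bool, (List.ofFn s).foldl δ q = (List.ofFn w).foldl δ q ∧
      s ⟨c, by omega⟩ = s ⟨c', by omega⟩ := by
  by_cases heq : w ⟨c, by omega⟩ = w ⟨c', by omega⟩
  · exact ⟨w, rfl, heq⟩
  have hlen : (List.ofFn w).length = n := List.length_ofFn
  have hget : ∀ (j : ℕ) (hj : j < n), (List.ofFn w)[j]? = some (w ⟨j, hj⟩) := by
    intro j hj
    rw [List.getElem?_eq_getElem (by rw [hlen]; exact hj), List.getElem_ofFn]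
  have hβ' : ∀ p, (p = c ∨ p = c') → ∀ L, 1 ≤ L → L ≤ S * S → ∃ t, 1 ≤ t ∧ t * L ≤ W ∧
      (List.ofFn w)[p - t * L]? = some β := by
    intro p hp L h1 h2
    obtain ⟨t, h3, h4, x, hx, hxw⟩ := hβ p hp L h1 h2
    refine ⟨t, h3, h4, ?_⟩
    rw [← hx, hget x.1 x.2, hxw]
  have fin : ∀ w' : List Bool, w'.length = n → w'.foldl δ q = (List.ofFn w).foldl δ q →
      w'[c]? = some β → w'[c']? = some β →
      ∃ s : Fin n → Bool, (List.ofFn s).foldl δ q = (List.ofFn w).foldl δ q ∧
        s ⟨c, by omega⟩ = s ⟨c', by omega⟩ := by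
    intro w' h1 h2 h3 h4
    refine ⟨fun i => w'[i.1]'(by rw [h1]; exact i.2), ?_, ?_⟩
    · have : List.ofFn (fun i : Fin n => w'[i.1]'(by rw [h1]; exact i.2)) = w' := by
        apply List.ext_getElem
        · rw [List.length_ofFn, h1]
        · intro i _ _; rw [List.getElem_ofFn]
      rw [this, h2]
    · have h5 : w'[c]'(by omega) = β := by
        have := List.getElem?_eq_getElem (l := w') (i := c) (by omega)
        rw [h3] at this; exact (Option.some.inj this).symm
      have h6 : w'[c']'(by omega) = β := by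
        have := List.getElem?_eq_getElem (l := w') (i := c') (by omega)
        rw [h4] at this; exact (Option.some.inj this).symm
      show w'[c] = w'[c']
      rw [h5, h6]
  by_cases hb : w ⟨c', by omega⟩ = β
  · obtain ⟨w', h1, h2, h3, _, h5⟩ := flex δ hS hS1 W c (List.ofFn w) hc (by omega) β
      (hβ' c (Or.inl rfl)) q
    exact fin w' (by rw [h1, hlen]) h2 h3 (by rw [h5 c' hc1, hget c' (by omega), hb])
  · have hb' : w ⟨c, by omega⟩ = β := by
      generalize w ⟨c, by omega⟩ = a at heq ⊢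
      generalize w ⟨c', by omega⟩ = b at heq hb
      cases a <;> cases b <;> cases β <;> simp_all
    obtain ⟨w', h1, h2, h3, h4, _⟩ := flex δ hS hS1 W c' (List.ofFn w) (by omega) (by omega) β
      (hβ' c' (Or.inr rfl)) q
    exact fin w' (by rw [h1, hlen]) h2 (by rw [h4 c hc2, hget c (by omega), hb']) h3

theorem three_four (n : ℕ) :
    n * 3 ^ (3 * (Nat.log 2 n + 1)) < 4 ^ (3 * (Nat.log 2 n + 1)) := by
  have h1 : n < 2 ^ (Nat.log 2 n + 1) := Nat.lt_pow_succ_log_self (by norm_num) n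
  generalize Nat.log 2 n + 1 = l at *
  rw [pow_mul, pow_mul]
  calc n * (3 ^ 3) ^ l < 2 ^ l * (3 ^ 3) ^ l :=
        Nat.mul_lt_mul_of_pos_right h1 (by positivity)
    _ = (2 * 3 ^ 3) ^ l := by rw [mul_pow]
    _ ≤ (4 ^ 3) ^ l := Nat.pow_le_pow_left (by norm_num) l

/-- **Setup.** After a suitable renumbering of the vertices with `u`, `v` at two chosen places,
every row is flexible at these places. -/
theorem setup {n S : ℕ} (hS1 : 1 ≤ S) (hn : 48 * S ^ 6 * (Nat.log 2 n + 1) ≤ n)
    (G : Fin n → Fin n → Bool) (u v : Fin n) (huv : u ≠ v) :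
    ∃ π : Equiv.Perm (Fin n), ∀ (k : Fin n) (τ : Type) [Fintype τ], Fintype.card τ ≤ S →
      ∀ (δ : τ → Bool → τ) (q : τ), ∃ s : Fin n → Bool,
        (List.ofFn s).foldl δ q = (List.ofFn (fun j => G k (π.symm j))).foldl δ q ∧
          s (π u) = s (π v) := by
  classical
  obtain ⟨Q, hQ⟩ : ∃ Q, Q = S * S := ⟨_, rfl⟩
  obtain ⟨h, hh⟩ : ∃ h, h = 3 * (Nat.log 2 n + 1) := ⟨_, rfl⟩
  obtain ⟨W, hW⟩ : ∃ W, W = (Q * h + 1) * Q := ⟨_, rfl⟩
  have hQ1 : 1 ≤ Q := by rw [hQ]; exact Nat.mul_pos hS1 hS1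
  have hh1 : 1 ≤ h := by omega
  have hSQ : S ≤ Q := by rw [hQ]; exact Nat.le_mul_of_pos_right _ hS1
  have hn2 : 16 * (Q * Q * Q * h) ≤ n := by
    have : 16 * (Q * Q * Q * h) = 48 * S ^ 6 * (Nat.log 2 n + 1) := by rw [hQ, hh]; ring
    omega
  have a1 : Q * h ≤ Q * Q * Q * h := Nat.mul_le_mul_right _ (by nlinarith)
  have a2 : Q ≤ Q * Q * Q * h := by nlinarith [Nat.mul_pos hQ1 hQ1, Nat.mul_pos (Nat.mul_pos hQ1 hQ1) hh1]
  have a3 : Q * Q ≤ Q * Q * Q * h := by nlinarith [Nat.mul_pos hQ1 hh1, Nat.mul_pos hQ1 hQ1]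
  have a4 : Q * Q * h ≤ Q * Q * Q * h := Nat.mul_le_mul_right _ (by nlinarith [Nat.mul_pos hQ1 hQ1])
  have a5 : 1 ≤ Q * Q * Q * h := by omega
  have eW : W = Q * Q * h + Q := by rw [hW]; ring
  have eQW : S * (S * W) = Q * Q * Q * h + Q * Q := by rw [← mul_assoc, ← hQ, eW]; ring
  obtain ⟨c, hc⟩ : ∃ c, c = W + S := ⟨_, rfl⟩
  obtain ⟨c', hc'⟩ : ∃ c', c' = c + 1 + S * (S * W) + W + S := ⟨_, rfl⟩
  have hlt : c' + 1 + S * (S * W) ≤ n := by omega
  have hmaj : ∀ k, ∃ b : Bool, n ≤ 2 * (univ.filter (fun x => G k x = b)).card := by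
    intro k
    have h3 : (univ.filter (fun x => G k x = true)).card
        + (univ.filter (fun x => ¬ G k x = true)).card = (univ : Finset (Fin n)).card :=
      Finset.card_filter_add_card_filter_not _
    rw [Finset.card_univ, Fintype.card_fin] at h3
    by_cases h4 : n ≤ 2 * (univ.filter (fun x => G k x = true)).card
    · exact ⟨true, h4⟩
    · refine ⟨false, ?_⟩
      have : (univ.filter (fun x => G k x = false)) = (univ.filter (fun x => ¬ G k x = true)) := by
        ext x; simp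
      rw [this]; omega
  choose β hβ using hmaj
  obtain ⟨π, h1, h2, h3⟩ := arrange (n := n) (Q := Q) (h := h) (W := W) (c := c) (c' := c') hQ1 hW
    (by omega) (by omega) (by omega) (by rw [hh]; exact three_four n)
    (by have : 4 * (2 + 2 * Q * h) = 8 + 8 * (Q * h) := by ring
        omega)
    (fun k => univ.filter (fun x => G k x = β k)) hβ u v huv
  refine ⟨π, fun k τ _ hτ δ q => ?_⟩
  obtain ⟨s, hs1, hs2⟩ := rowflex (n := n) (S := S) (W := W) (c := c) (c' := c') hS1 (by omega)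
    (by omega) (by omega) hlt (fun j => G k (π.symm j)) (β k) (by
      intro p hp L hL1 hL2
      obtain ⟨t, t1, t2, x, hx, hxp⟩ := h3 k p hp L hL1 (by rw [hQ]; exact hL2)
      refine ⟨t, t1, t2, π x, hxp, ?_⟩
      rw [Equiv.symm_apply_apply]
      simpa using hx) hτ δ q
  refine ⟨s, hs1, ?_⟩
  have e1 : π u = ⟨c, by omega⟩ := Fin.ext h1
  have e2 : π v = ⟨c', by omega⟩ := Fin.ext h2
  rw [e1, e2]; exact hs2

end Flex

namespace Reader

variable {n : ℕ} {H σ : Type} (M : Reader n H σ)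

theorem hist_congr {G G2 : Fin n → Fin n → Bool}
    (h : ∀ t < M.time, M.read (M.hist G t) (G2 (M.row (M.hist G t)))
      = M.read (M.hist G t) (G (M.row (M.hist G t)))) :
    ∀ t ≤ M.time, M.hist G2 t = M.hist G t := by
  intro t
  induction t with
  | zero => intro _; rfl
  | succ t ih =>
    intro ht
    have e := ih (by omega)
    show M.upd (M.hist G2 t) (M.read (M.hist G2 t) (G2 (M.row (M.hist G2 t)))) = _
    rw [e, h t (by omega)]
    rfl

theorem accepts_congr {G G2 : Fin n → Fin n → Bool}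
    (h : ∀ t < M.time, M.read (M.hist G t) (G2 (M.row (M.hist G t)))
      = M.read (M.hist G t) (G (M.row (M.hist G t)))) : M.Accepts G2 ↔ M.Accepts G := by
  unfold Accepts
  rw [M.hist_congr h M.time le_rfl]

theorem foldl_pi {A : Type*} (d : A → σ → Bool → σ) (w : List Bool) :
    ∀ f : A → σ, w.foldl (fun f b => fun t => d t (f t) b) f = fun t => w.foldl (d t) (f t) := by
  induction w with
  | nil => intro f; rfl
  | cons b w ih => intro f; rw [List.foldl_cons, ih]; rfl

theorem foldl_pair {A B : Type*} (d : A → Bool → A) (e : B → Bool → B) (w : List Bool) :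
    ∀ (a : A) (b : B), w.foldl (fun f x => (d f.1 x, e f.2 x)) (a, b)
      = (w.foldl d a, w.foldl e b) := by
  induction w with
  | nil => intro a b; rfl
  | cons x w ih => intro a b; rw [List.foldl_cons, ih]; rfl

/-- replacement of all rows, seen in two runs at the same time -/
theorem two_runs [Fintype σ] {s p S : ℕ} (hs1 : 1 ≤ s) (hσ : Fintype.card σ ≤ s)
    (hV : M.Visits p) (hS : S = s ^ (2 * p)) (G1 G1' : Fin n → Fin n → Bool)
    (θ : Equiv.Perm (Fin n)) (c c' : Fin n)
    (hflex : ∀ (k : Fin n) (τ : Type) [Fintype τ], Fintype.card τ ≤ S →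
      ∀ (δ : τ → Bool → τ) (q : τ), ∃ s : Fin n → Bool,
        (List.ofFn s).foldl δ q = (List.ofFn (G1 k)).foldl δ q ∧ s c = s c') :
    ∃ R : Fin n → Fin n → Bool, (∀ k, R k c = R k c') ∧
      (∀ t < M.time, M.read (M.hist G1 t) (R (M.row (M.hist G1 t)))
        = M.read (M.hist G1 t) (G1 (M.row (M.hist G1 t)))) ∧
      (∀ t < M.time, M.read (M.hist G1' t) (R (θ (M.row (M.hist G1' t))))
        = M.read (M.hist G1' t) (G1 (θ (M.row (M.hist G1' t))))) := by
  classical
  have key : ∀ k : Fin n, ∃ r : Fin n → Bool, r c = r c' ∧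
      (∀ t < M.time, M.row (M.hist G1 t) = k →
        M.read (M.hist G1 t) r = M.read (M.hist G1 t) (G1 k)) ∧
      (∀ t < M.time, θ (M.row (M.hist G1' t)) = k →
        M.read (M.hist G1' t) r = M.read (M.hist G1' t) (G1 k)) := by
    intro k
    let A := {t // t ∈ (Finset.range M.time).filter (fun t => M.row (M.hist G1 t) = k)}
    let A' := {t // t ∈ (Finset.range M.time).filter (fun t => M.row (M.hist G1' t) = θ.symm k)}
    have hA : Fintype.card A ≤ p := by
      rw [Fintype.card_coe]; exact hV G1 k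
    have hA' : Fintype.card A' ≤ p := by
      rw [Fintype.card_coe]; exact hV G1' (θ.symm k)
    have hcard : Fintype.card ((A → σ) × (A' → σ)) ≤ S := by
      rw [Fintype.card_prod, Fintype.card_fun, Fintype.card_fun, hS, two_mul, pow_add]
      refine Nat.mul_le_mul ?_ ?_
      · exact (Nat.pow_le_pow_left hσ _).trans (Nat.pow_le_pow_right hs1 hA)
      · exact (Nat.pow_le_pow_left hσ _).trans (Nat.pow_le_pow_right hs1 hA')
    obtain ⟨r, hr1, hr2⟩ := hflex k ((A → σ) × (A' → σ)) hcard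
      (fun f b => ((fun t => M.step (M.hist G1 t.1) (f.1 t) b),
        (fun t => M.step (M.hist G1' t.1) (f.2 t) b)))
      ((fun t => M.init (M.hist G1 t.1)), (fun t => M.init (M.hist G1' t.1)))
    have e1 := foldl_pair (A := A → σ) (B := A' → σ)
      (fun (f : A → σ) b => fun t => M.step (M.hist G1 t.1) (f t) b)
      (fun (f : A' → σ) b => fun t => M.step (M.hist G1' t.1) (f t) b)
    rw [e1, e1] at hr1
    have h1 := congrArg Prod.fst hr1
    have h2 := congrArg Prod.snd hr1
    simp only at h1 h2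
    rw [foldl_pi (fun t : A => M.step (M.hist G1 t.1)),
      foldl_pi (fun t : A => M.step (M.hist G1 t.1))] at h1
    rw [foldl_pi (fun t : A' => M.step (M.hist G1' t.1)),
      foldl_pi (fun t : A' => M.step (M.hist G1' t.1))] at h2
    refine ⟨r, hr2, ?_, ?_⟩
    · intro t ht hk
      exact congrFun h1 ⟨t, by rw [Finset.mem_filter, Finset.mem_range]; exact ⟨ht, hk⟩⟩
    · intro t ht hk
      exact congrFun h2 ⟨t, by
        rw [Finset.mem_filter, Finset.mem_range]
        exact ⟨ht, by rw [← hk, Equiv.symm_apply_apply]⟩⟩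
  choose R hR1 hR2 hR3 using key
  exact ⟨R, hR1, fun t ht => hR2 _ t ht rfl, fun t ht => hR3 _ t ht rfl⟩

theorem swap_conj (π : Equiv.Perm (Fin n)) (u v i : Fin n) :
    π.symm (Equiv.swap (π u) (π v) i) = Equiv.swap u v (π.symm i) := by
  rw [Equiv.symm_apply_eq, Equiv.swap_apply_apply]
  simp [Equiv.Perm.mul_apply]

/-- two rows can be exchanged -/
theorem swap_rows [Fintype σ] {s p : ℕ} (hs1 : 1 ≤ s) (hσ : Fintype.card σ ≤ s)
    (hV : M.Visits p) (hn : 48 * s ^ (12 * p) * (Nat.log 2 n + 1) ≤ n)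
    (hI : Invariant M.Accepts) (G : Fin n → Fin n → Bool) (u v : Fin n) :
    M.Accepts (fun i => G (Equiv.swap u v i)) ↔ M.Accepts G := by
  by_cases huv : u = v
  · subst huv; simp
  have hS1 : 1 ≤ s ^ (2 * p) := Nat.one_le_pow _ _ hs1
  have hn' : 48 * (s ^ (2 * p)) ^ 6 * (Nat.log 2 n + 1) ≤ n := by
    rw [← pow_mul]
    have : 2 * p * 6 = 12 * p := by ring
    rw [this]; exact hn
  obtain ⟨π, hπ⟩ := setup hS1 hn' G u v huv
  let G1 : Fin n → Fin n → Bool := fun i j => G (π.symm i) (π.symm j)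
  let θ : Equiv.Perm (Fin n) := Equiv.swap (π u) (π v)
  let G1' : Fin n → Fin n → Bool := fun i => G1 (θ i)
  obtain ⟨R, hR1, hR2, hR3⟩ := M.two_runs hs1 hσ hV rfl G1 G1' θ (π u) (π v)
    (fun k τ _ hτ δ q => hπ (π.symm k) τ hτ δ q)
  have e1 : M.Accepts R ↔ M.Accepts G1 := M.accepts_congr hR2
  have e2 : M.Accepts (fun i => R (θ i)) ↔ M.Accepts G1' := M.accepts_congr hR3
  have e3 : M.Accepts (fun i j => R (θ i) (θ j)) ↔ M.Accepts R := hI θ R
  have hRθ : ∀ k j, R k (θ j) = R k j := by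
    intro k j
    show R k (Equiv.swap (π u) (π v) j) = R k j
    rw [Equiv.swap_apply_def]
    split_ifs with h1 h2
    · rw [h1, hR1]
    · rw [h2, hR1]
    · rfl
  have e4 : (fun i j => R (θ i) (θ j)) = (fun i => R (θ i)) := by
    funext i j; exact hRθ _ _
  rw [e4] at e3
  have e5 : M.Accepts G1 ↔ M.Accepts G := hI π.symm G
  have e6 : M.Accepts G1' ↔ M.Accepts (fun i => G (Equiv.swap u v i)) := by
    rw [← hI π.symm (fun i => G (Equiv.swap u v i))]
    have : G1' = fun i j => G (Equiv.swap u v (π.symm i)) (π.symm j) := by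
      funext i j
      show G (π.symm (Equiv.swap (π u) (π v) i)) (π.symm j) = _
      rw [swap_conj]
    rw [this]
  rw [← e6, ← e2, e3, e1, e5]

/-- two entries of one row can be exchanged -/
theorem swap_bits [Fintype σ] {s p : ℕ} (hs1 : 1 ≤ s) (hσ : Fintype.card σ ≤ s)
    (hV : M.Visits p) (hn : 48 * s ^ (12 * p) * (Nat.log 2 n + 1) ≤ n)
    (hI : Invariant M.Accepts) (G : Fin n → Fin n → Bool) (a u v : Fin n) :
    M.Accepts (Function.update G a (fun j => G a (Equiv.swap u v j))) ↔ M.Accepts G := by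
  classical
  by_cases huv : u = v
  · subst huv; simp
  have hS1 : 1 ≤ s ^ (2 * p) := Nat.one_le_pow _ _ hs1
  have hn' : 48 * (s ^ (2 * p)) ^ 6 * (Nat.log 2 n + 1) ≤ n := by
    rw [← pow_mul]
    have : 2 * p * 6 = 12 * p := by ring
    rw [this]; exact hn
  obtain ⟨π, hπ⟩ := setup hS1 hn' G u v huv
  let G' : Fin n → Fin n → Bool := Function.update G a (fun j => G a (Equiv.swap u v j))
  let G1 : Fin n → Fin n → Bool := fun i j => G (π.symm i) (π.symm j)
  let G1' : Fin n → Fin n → Bool := fun i j => G' (π.symm i) (π.symm j)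
  let θ : Equiv.Perm (Fin n) := Equiv.swap (π u) (π v)
  have hG1' : ∀ i, i ≠ π a → G1' i = G1 i := by
    intro i hi
    have : π.symm i ≠ a := fun h => hi (by rw [← h, Equiv.apply_symm_apply])
    funext j
    show (Function.update G a _) (π.symm i) (π.symm j) = _
    rw [Function.update_of_ne this]
  have hG1a : ∀ j, G1' (π a) j = G1 (π a) (θ j) := by
    intro j
    show (Function.update G a (fun j => G a (Equiv.swap u v j))) (π.symm (π a)) (π.symm j)
      = G (π.symm (π a)) (π.symm (Equiv.swap (π u) (π v) j))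
    rw [Equiv.symm_apply_apply, Function.update_self, swap_conj]
  obtain ⟨R, hR1, hR2, hR3⟩ := M.two_runs hs1 hσ hV rfl G1 G1' 1 (π u) (π v)
    (fun k τ _ hτ δ q => hπ (π.symm k) τ hτ δ q)
  have e1 : M.Accepts (Function.update R (π a) (G1 (π a))) ↔ M.Accepts G1 := by
    apply M.accepts_congr
    intro t ht
    by_cases h : M.row (M.hist G1 t) = π a
    · rw [h, Function.update_self]
    · rw [Function.update_of_ne h]; exact hR2 t ht
  have e2 : M.Accepts (Function.update R (π a) (G1' (π a))) ↔ M.Accepts G1' := by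
    apply M.accepts_congr
    intro t ht
    by_cases h : M.row (M.hist G1' t) = π a
    · rw [h, Function.update_self]
    · rw [Function.update_of_ne h, hG1' _ h]; exact hR3 t ht
  have hRθ : ∀ k j, R k (θ j) = R k j := by
    intro k j
    show R k (Equiv.swap (π u) (π v) j) = R k j
    rw [Equiv.swap_apply_def]
    split_ifs with h1 h2
    · rw [h1, hR1]
    · rw [h2, hR1]
    · rfl
  have e3 := hI θ (Function.update R (π a) (G1 (π a)))
  have e4 := M.swap_rows hs1 hσ hV hn hI
    (fun i j => Function.update R (π a) (G1 (π a)) (θ i) (θ j)) (π u) (π v)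
  have e5 : (fun i => (fun i j => Function.update R (π a) (G1 (π a)) (θ i) (θ j))
      (Equiv.swap (π u) (π v) i)) = Function.update R (π a) (G1' (π a)) := by
    funext i j
    show Function.update R (π a) (G1 (π a)) (θ (Equiv.swap (π u) (π v) i)) (θ j) = _
    have hθ : θ (Equiv.swap (π u) (π v) i) = i := Equiv.swap_apply_self _ _ _
    rw [hθ]
    by_cases h : i = π a
    · rw [h, Function.update_self, Function.update_self, hG1a]
    · rw [Function.update_of_ne h, Function.update_of_ne h, hRθ]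
  rw [e5] at e4
  have e6 : M.Accepts G1 ↔ M.Accepts G := hI π.symm G
  have e7 : M.Accepts G1' ↔ M.Accepts G' := hI π.symm G'
  rw [show Function.update G a (fun j => G a (Equiv.swap u v j)) = G' from rfl,
    ← e7, ← e2, e4, e3, e1, e6]

end Reader

end Pool.Agent.OnePass
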