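import Pool.Agent.Lib.OnePass.NbrPigeon

namespace Pool.Agent.OnePass.Nbr

open Finset

variable {n : ℕ}

/-! ### graphs with the same degrees are connected by switches -/

/-- the vertices from `k` on -/
def up (k : ℕ) : Set (Fin n) := {j | k ≤ j.val}

theorem exists_z {G : SimpleGraph (Fin n)} {k x y : Fin n} (hkx : G.Adj k x) (hky : ¬ G.Adj k y)
    (hyk : y ≠ k) (hx : k.val ≤ x.val) (hy : k.val ≤ y.val)
    (hd : (G.neighborSet x ∩ up k.val).ncard ≤ (G.neighborSet y ∩ up k.val).ncard) :
    ∃ z : Fin n, k.val ≤ z.val ∧ z ≠ k ∧ z ≠ x ∧ z ≠ y ∧ G.Adj z y ∧ ¬ G.Adj z x := by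
  by_contra hcon
  push Not at hcon
  have hkNx : k ∈ G.neighborSet x ∩ up k.val := ⟨hkx.symm, le_refl k.val⟩
  have hsub : ∀ z ∈ G.neighborSet y ∩ up k.val, z ≠ x → z ∈ G.neighborSet x ∩ up k.val ∧ z ≠ k := by
    rintro z ⟨hz1, hz2⟩ hzx
    have hz1' : G.Adj y z := hz1
    have hzk : z ≠ k := by
      rintro rfl
      exact hky hz1'.symm
    exact ⟨⟨(hcon z hz2 hzk hzx hz1'.ne.symm hz1'.symm).symm, hz2⟩, hzk⟩
  by_cases hxy : G.Adj x y
  · have hxNy : x ∈ G.neighborSet y ∩ up k.val := ⟨hxy.symm, hx⟩
    have hyNx : y ∈ (G.neighborSet x ∩ up k.val) \ {k} := ⟨⟨hxy, hy⟩, hyk⟩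
    have h1 : ((G.neighborSet y ∩ up k.val) \ {x}).ncard ≤
        (((G.neighborSet x ∩ up k.val) \ {k}) \ {y}).ncard := by
      refine Set.ncard_le_ncard ?_ (Set.toFinite _)
      rintro z ⟨hz1, hz2⟩
      have := hsub z hz1 hz2
      refine ⟨⟨this.1, this.2⟩, ?_⟩
      rintro (rfl : z = y)
      exact G.irrefl hz1.1
    have h2 := Set.ncard_sdiff_singleton_add_one hxNy
    have h3 := Set.ncard_sdiff_singleton_add_one hyNx
    have h4 := Set.ncard_sdiff_singleton_add_one hkNx
    omega
  · have h1 : (G.neighborSet y ∩ up k.val).ncard ≤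
        ((G.neighborSet x ∩ up k.val) \ {k}).ncard := by
      refine Set.ncard_le_ncard ?_ (Set.toFinite _)
      intro z hz
      have hzx : z ≠ x := by
        rintro rfl
        exact hxy (SimpleGraph.Adj.symm hz.1)
      have := hsub z hz hzx
      exact ⟨this.1, this.2⟩
    have h4 := Set.ncard_sdiff_singleton_add_one hkNx
    omega

theorem ncard_up {G G' : SimpleGraph (Fin n)} {k : ℕ}
    (hdeg : ∀ v, (G.neighborSet v).ncard = (G'.neighborSet v).ncard)
    (hrow : ∀ v : Fin n, v.val < k → ∀ j, (G.Adj v j ↔ G'.Adj v j)) (v : Fin n) :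
    (G.neighborSet v ∩ up k).ncard = (G'.neighborSet v ∩ up k).ncard := by
  have h1 := Set.ncard_inter_add_ncard_sdiff_eq_ncard (G.neighborSet v) (up k) (Set.toFinite _)
  have h2 := Set.ncard_inter_add_ncard_sdiff_eq_ncard (G'.neighborSet v) (up k) (Set.toFinite _)
  have h3 : G.neighborSet v \ up k = G'.neighborSet v \ up k := by
    ext j
    constructor
    · rintro ⟨hj1, hj2⟩
      have hjk : j.val < k := lt_of_not_ge hj2
      exact ⟨((hrow j hjk v).1 (SimpleGraph.Adj.symm hj1)).symm, hj2⟩
    · rintro ⟨hj1, hj2⟩
      have hjk : j.val < k := lt_of_not_ge hj2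
      exact ⟨((hrow j hjk v).2 (SimpleGraph.Adj.symm hj1)).symm, hj2⟩
  rw [h3] at h1
  have := hdeg v
  omega

theorem connect (P : SimpleGraph (Fin n) → Prop)
    (hP : ∀ G x, Can G x → (P G ↔ P (sw G x))) (m : ℕ) :
    ∀ k, k + m = n → ∀ G G' : SimpleGraph (Fin n),
      (∀ v, (G.neighborSet v).ncard = (G'.neighborSet v).ncard) →
      (∀ v : Fin n, v.val < k → ∀ j, (G.Adj v j ↔ G'.Adj v j)) → (P G ↔ P G') := by
  induction m with
  | zero =>
    intro k hk G G' _ hrow
    have : G = G' := by
      ext u v
      exact hrow u (by have := u.isLt; omega) v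
    rw [this]
  | succ m ih =>
    intro k hk
    have hkn : k < n := by omega
    obtain ⟨kk, hkk⟩ : ∃ kk : Fin n, kk.val = k := ⟨⟨k, hkn⟩, rfl⟩
    have inner : ∀ d : ℕ, ∀ G G' : SimpleGraph (Fin n),
        (∀ v, (G.neighborSet v).ncard = (G'.neighborSet v).ncard) →
        (∀ v : Fin n, v.val < k → ∀ j, (G.Adj v j ↔ G'.Adj v j)) →
        (G.neighborSet kk \ G'.neighborSet kk).ncard = d → (P G ↔ P G') := by
      intro d
      induction d with
      | zero =>
        intro G G' hdeg hrow h0
        rw [Set.ncard_eq_zero (Set.toFinite _), Set.sdiff_eq_empty] at h0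
        have heq := Set.eq_of_subset_of_ncard_le h0 (le_of_eq (hdeg kk).symm) (Set.toFinite _)
        apply ih (k + 1) (by omega) G G' hdeg
        intro v hv j
        by_cases hvk : v.val < k
        · exact hrow v hvk j
        · have : v = kk := Fin.ext (by omega)
          rw [this]
          show j ∈ G.neighborSet kk ↔ j ∈ G'.neighborSet kk
          rw [heq]
      | succ d ihd =>
        intro G G' hdeg hrow h0
        have hne : (G.neighborSet kk \ G'.neighborSet kk).Nonempty := by
          rw [← Set.ncard_pos (Set.toFinite _)]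
          omega
        obtain ⟨x, hx1, hx2⟩ := hne
        have hx1' : G.Adj kk x := hx1
        have hx2' : ¬ G'.Adj kk x := hx2
        have hy : ∃ y, G'.Adj kk y ∧ ¬ G.Adj kk y := by
          by_contra hcon
          push Not at hcon
          have heq := Set.eq_of_subset_of_ncard_le (s := G'.neighborSet kk)
            (t := G.neighborSet kk) (fun j hj => hcon j hj) (le_of_eq (hdeg kk)) (Set.toFinite _)
          exact hx2 (heq ▸ hx1)
        obtain ⟨y, hy1, hy2⟩ := hy
        have hxk : kk.val ≤ x.val := by
          by_contra hlt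
          exact hx2' ((hrow x (by omega) kk).1 hx1'.symm).symm
        have hyk : kk.val ≤ y.val := by
          by_contra hlt
          exact hy2 ((hrow y (by omega) kk).2 hy1.symm).symm
        have hxy : x ≠ y := by
          rintro rfl
          exact hy2 hx1'
        have hinj : ∀ u z w : Fin n, u ≠ kk → z ≠ kk → w ≠ kk → u ≠ z → u ≠ w → z ≠ w →
            Function.Injective (![kk, u, z, w] : Fin 4 → Fin n) := by
          intro u z w h1 h2 h3 h4 h5 h6 i j hij
          fin_cases i <;> fin_cases j <;>
            first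
            | rfl
            | exact absurd hij h1
            | exact absurd hij h2
            | exact absurd hij h3
            | exact absurd hij h4
            | exact absurd hij h5
            | exact absurd hij h6
            | exact absurd hij.symm h1
            | exact absurd hij.symm h2
            | exact absurd hij.symm h3
            | exact absurd hij.symm h4
            | exact absurd hij.symm h5
            | exact absurd hij.symm h6
        have hlow : ∀ u z w : Fin n, kk.val ≤ u.val → kk.val ≤ z.val → kk.val ≤ w.val →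
            ∀ v : Fin n, v.val < k → ∀ i, v ≠ (![kk, u, z, w] : Fin 4 → Fin n) i := by
          intro u z w h1 h2 h3 v hv i
          fin_cases i
          · rintro (rfl : v = kk); omega
          · rintro (rfl : v = u); omega
          · rintro (rfl : v = z); omega
          · rintro (rfl : v = w); omega
        have hcard := Set.ncard_sdiff_singleton_add_one (s := G.neighborSet kk \ G'.neighborSet kk)
          (a := x) ⟨hx1, hx2⟩ (Set.toFinite _)
        rcases le_total (G.neighborSet x ∩ up k).ncard (G.neighborSet y ∩ up k).ncard with hle | hle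
        · rw [← hkk] at hle
          obtain ⟨z, hz1, hz2, hz3, hz4, hz5, hz6⟩ :=
            exists_z hx1' hy2 hy1.ne.symm hxk hyk hle
          have hc : Can G ![kk, x, z, y] :=
            ⟨hinj x z y hx1'.ne.symm hz2 hy1.ne.symm hz3.symm hxy hz4, hx1', hz5, hy2, hz6⟩
          rw [hP G _ hc]
          apply ihd
          · intro v
            rw [hc.ncard]
            exact hdeg v
          · intro v hv j
            rw [Can.row_other (G := G) v j (hlow x z y hxk hz1 hyk v hv)]
            exact hrow v hv j
          · have : (sw G ![kk, x, z, y]).neighborSet kk \ G'.neighborSet kk =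
                (G.neighborSet kk \ G'.neighborSet kk) \ {x} := by
              ext j
              have hr := hc.row0 j
              change (sw G ![kk, x, z, y]).Adj kk j ↔ (G.Adj kk j ∧ j ≠ x) ∨ j = y at hr
              simp only [Set.mem_sdiff, SimpleGraph.mem_neighborSet, Set.mem_singleton_iff, hr]
              constructor
              · rintro ⟨(⟨h1, h2⟩ | rfl), h3⟩
                · exact ⟨⟨h1, h3⟩, h2⟩
                · exact absurd hy1 h3
              · rintro ⟨⟨h1, h2⟩, h3⟩
                exact ⟨Or.inl ⟨h1, h3⟩, h2⟩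
            rw [this]
            omega
        · rw [ncard_up hdeg hrow, ncard_up hdeg hrow, ← hkk] at hle
          obtain ⟨z, hz1, hz2, hz3, hz4, hz5, hz6⟩ :=
            exists_z hy1 hx2' hx1'.ne.symm hyk hxk hle
          have hc : Can G' ![kk, y, z, x] :=
            ⟨hinj y z x hy1.ne.symm hz2 hx1'.ne.symm hz3.symm hxy.symm hz4, hy1, hz5, hx2', hz6⟩
          rw [hP G' _ hc]
          apply ihd
          · intro v
            rw [hc.ncard]
            exact hdeg v
          · intro v hv j
            rw [Can.row_other (G := G') v j (hlow y z x hyk hz1 hxk v hv)]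
            exact hrow v hv j
          · have : G.neighborSet kk \ (sw G' ![kk, y, z, x]).neighborSet kk =
                (G.neighborSet kk \ G'.neighborSet kk) \ {x} := by
              ext j
              have hr := hc.row0 j
              change (sw G' ![kk, y, z, x]).Adj kk j ↔ (G'.Adj kk j ∧ j ≠ y) ∨ j = x at hr
              simp only [Set.mem_sdiff, SimpleGraph.mem_neighborSet, Set.mem_singleton_iff, hr]
              constructor
              · rintro ⟨h1, h2⟩
                refine ⟨⟨h1, fun h3 => h2 (Or.inl ⟨h3, ?_⟩)⟩, fun h3 => h2 (Or.inr h3)⟩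
                rintro rfl
                exact hy2 h1
              · rintro ⟨⟨h1, h2⟩, h3⟩
                exact ⟨h1, fun h4 => h4.elim (fun h5 => h2 h5.1) h3⟩
            rw [this]
            omega
    intro G G' hdeg hrow
    exact inner _ G G' hdeg hrow rfl

/-! ### the characterisation -/

/-- the answer is constant on the class of graphs with given degrees, if it is invariant there -/
theorem main {s : ℕ} {A : Type} [Fintype A] (hA : Fintype.card A ≤ s) (U : Finset (Fin n))
    (hn : 16 * (s ^ (s ^ 2 * (s ^ 2 + 1)) + s ^ 2 + 2) + 4 ≤ U.card)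
    (κ : Fin n → Set (Fin n) → A) (P : SimpleGraph (Fin n) → Prop) (d : Multiset ℕ)
    (hloc : ∀ G G' : SimpleGraph (Fin n), degrees G = d → degrees G' = d →
      (∀ i ∈ U, κ i (G.neighborSet i) = κ i (G'.neighborSet i)) →
      (∀ i, i ∉ U → G.neighborSet i = G'.neighborSet i) → (P G ↔ P G'))
    (hD : ∀ G G' : SimpleGraph (Fin n), degrees G = d → degrees G' = d → Nonempty (G ≃g G') →
        (P G ↔ P G')) :
    ∀ G G' : SimpleGraph (Fin n), degrees G = d → degrees G' = d → (P G ↔ P G') := by
  intro G G' hG hG'
  obtain ⟨e, he⟩ := exists_perm_of_count (fun i => (G.neighborSet i).ncard)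
    (fun i => (G'.neighborSet i).ncard) (hG.trans hG'.symm)
  have hG'' : degrees (G'.comap e) = d :=
    (degrees_eq_of_iso ⟨SimpleGraph.Iso.comap e G'⟩).trans hG'
  rw [← hD (G'.comap e) G' hG'' hG' ⟨SimpleGraph.Iso.comap e G'⟩]
  have key := connect (fun G => degrees G = d ∧ P G)
    (fun G x hc => by
      rw [degrees_sw hc]
      exact and_congr_right (fun h => switch hA U hn κ P d hloc hD G h x hc))
    n 0 (by omega) G (G'.comap e) (fun v => ?_) (fun v hv => absurd hv (Nat.not_lt_zero _))
  · simpa only [hG, hG'', true_and] using key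
  · rw [← he v]
    have h1 : (G'.comap e).neighborSet v = e ⁻¹' (G'.neighborSet (e v)) := rfl
    have h2 : (e '' (e ⁻¹' (G'.neighborSet (e v)))).ncard =
        (e ⁻¹' (G'.neighborSet (e v))).ncard := Set.ncard_image_of_injective _ e.injective
    rw [h1, ← h2, Equiv.image_preimage]

end Pool.Agent.OnePass.Nbr
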