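import Pool.Agent.Lib.OnePass.RefereeDefs

namespace Pool.Agent.OnePass

open Finset

/-- the multiset of the degrees of an undirected graph -/
noncomputable def degrees {n : ℕ} (G : SimpleGraph (Fin n)) : Multiset ℕ :=
  (univ : Finset (Fin n)).val.map (fun i => (G.neighborSet i).ncard)

open Classical in
/-- the full symmetric adjacency matrix of an undirected graph: the row `i` contains all the
edges at the vertex `i`, so each edge is known to both its ends -/
noncomputable def adj {n : ℕ} (G : SimpleGraph (Fin n)) : Fin n → Fin n → Bool :=
  fun i j => decide (G.Adj i j)

namespace Referee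

/-- on every undirected graph whose degree multiset is in `C` each vertex of the set `U` is asked
at most `v` times -/
def AskedAtMost {n : ℕ} {H Q A : Type} (M : Referee n H Q A) (v : ℕ) (U : Finset (Fin n))
    (C : Set (Multiset ℕ)) : Prop :=
  ∀ G : SimpleGraph (Fin n), degrees G ∈ C →
    ∀ i ∈ U, ((M.run (adj G) M.time).2 i).length ≤ v

end Referee

end Pool.Agent.OnePass
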