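import Pool.Agent.Lib.OnePass.Defs

namespace Pool.Agent.OnePass

open Finset

/-- An interactive protocol between a referee and the vertices `i : Fin n` of a directed graph.
The vertex `i` knows `i` and its own row of the adjacency matrix, the referee knows nothing about
the graph. The referee has the unbounded memory `H` and asks one vertex after the other; a
question is an element of `Q`, an answer is an element of `A`. The answer is an arbitrary
function of the vertex, of all questions asked to this vertex so far (the last one first) and of
its row. -/
structure Referee (n : ℕ) (H Q A : Type) where
  /-- memory of the referee at the beginning -/
  start : H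
  /-- the vertex asked next -/
  vertex : H → Fin n
  /-- the question -/
  question : H → Q
  /-- the answer -/
  answer : Fin n → List Q → (Fin n → Bool) → A
  /-- new memory of the referee after the answer -/
  next : H → A → H
  /-- accepting final memories -/
  acc : H → Prop
  /-- total number of questions -/
  time : ℕ

namespace Referee

variable {n : ℕ} {H Q A : Type} (M : Referee n H Q A)

/-- memory of the referee, and lists of the questions asked to the vertices, after `t` questions
on the input `G` -/
def run (G : Fin n → Fin n → Bool) : ℕ → H × (Fin n → List Q)
  | 0 => (M.start, fun _ => [])
  | t + 1 =>
    (M.next (run G t).1 (M.answer (M.vertex (run G t).1)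
        (M.question (run G t).1 :: (run G t).2 (M.vertex (run G t).1))
        (G (M.vertex (run G t).1))),
      Function.update (run G t).2 (M.vertex (run G t).1)
        (M.question (run G t).1 :: (run G t).2 (M.vertex (run G t).1)))

/-- the input `G` is accepted -/
def Accepts (G : Fin n → Fin n → Bool) : Prop := M.acc (M.run G M.time).1

/-- the vertex asked first is asked at most `v` times, on every input -/
def FirstAsked (v : ℕ) : Prop :=
  ∀ G : Fin n → Fin n → Bool, ((M.run G M.time).2 (M.vertex M.start)).length ≤ v

end Referee

end Pool.Agent.OnePass
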