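import Pool.Agent.Lib.OnePass.Cover
import Pool.Agent.Lib.OnePass.RefereeDefs

namespace Pool.Agent.OnePass

open Finset

namespace Referee

variable {n : ℕ} {H Q A : Type} (M : Referee n H Q A)

/-- the protocol with an arbitrary way of answering -/
def gen (ans : Fin n → List Q → A) : ℕ → H × (Fin n → List Q)
  | 0 => (M.start, fun _ => [])
  | t + 1 =>
    (M.next (gen ans t).1 (ans (M.vertex (gen ans t).1)
        (M.question (gen ans t).1 :: (gen ans t).2 (M.vertex (gen ans t).1))),
      Function.update (gen ans t).2 (M.vertex (gen ans t).1)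
        (M.question (gen ans t).1 :: (gen ans t).2 (M.vertex (gen ans t).1)))

theorem run_eq_gen (G : Fin n → Fin n → Bool) (t : ℕ) :
    M.run G t = M.gen (fun i l => M.answer i l (G i)) t := by
  induction t with
  | zero => rfl
  | succ t ih => simp only [run, gen, ih]

theorem gen_suffix_succ (ans : Fin n → List Q → A) (i : Fin n) (t : ℕ) :
    (M.gen ans t).2 i <:+ (M.gen ans (t + 1)).2 i := by
  show (M.gen ans t).2 i <:+ Function.update (M.gen ans t).2 (M.vertex (M.gen ans t).1)
        (M.question (M.gen ans t).1 :: (M.gen ans t).2 (M.vertex (M.gen ans t).1)) i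
  by_cases h : i = M.vertex (M.gen ans t).1
  · rw [h, Function.update_self]; exact List.suffix_cons _ _
  · rw [Function.update_of_ne h]

theorem gen_suffix (ans : Fin n → List Q → A) (i : Fin n) {t t' : ℕ} (h : t ≤ t') :
    (M.gen ans t).2 i <:+ (M.gen ans t').2 i := by
  induction t', h using Nat.le_induction with
  | base => exact List.suffix_rfl
  | succ t' _ ih => exact ih.trans (M.gen_suffix_succ ans i t')

theorem gen_congr (ans ans' : Fin n → List Q → A) (N : ℕ)
    (h : ∀ i l, l ≠ [] → l <:+ (M.gen ans N).2 i → ans i l = ans' i l) :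
    ∀ t ≤ N, M.gen ans t = M.gen ans' t := by
  intro t
  induction t with
  | zero => intro _; rfl
  | succ t ih =>
    intro ht
    have e := ih (by omega)
    have h1 : ans (M.vertex (M.gen ans t).1)
        (M.question (M.gen ans t).1 :: (M.gen ans t).2 (M.vertex (M.gen ans t).1))
        = ans' (M.vertex (M.gen ans t).1)
        (M.question (M.gen ans t).1 :: (M.gen ans t).2 (M.vertex (M.gen ans t).1)) := by
      apply h _ _ (List.cons_ne_nil _ _)
      have h2 := M.gen_suffix ans (M.vertex (M.gen ans t).1) ht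
      have h3 : (M.gen ans (t + 1)).2 (M.vertex (M.gen ans t).1)
          = M.question (M.gen ans t).1 :: (M.gen ans t).2 (M.vertex (M.gen ans t).1) := by
        show Function.update (M.gen ans t).2 (M.vertex (M.gen ans t).1) _ _ = _
        rw [Function.update_self]
      rw [h3] at h2
      exact h2
    have h4 : M.gen ans (t + 1) = (M.next (M.gen ans t).1 (ans (M.vertex (M.gen ans t).1)
        (M.question (M.gen ans t).1 :: (M.gen ans t).2 (M.vertex (M.gen ans t).1))),
      Function.update (M.gen ans t).2 (M.vertex (M.gen ans t).1)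
        (M.question (M.gen ans t).1 :: (M.gen ans t).2 (M.vertex (M.gen ans t).1))) := rfl
    have h5 : M.gen ans' (t + 1) = (M.next (M.gen ans' t).1 (ans' (M.vertex (M.gen ans' t).1)
        (M.question (M.gen ans' t).1 :: (M.gen ans' t).2 (M.vertex (M.gen ans' t).1))),
      Function.update (M.gen ans' t).2 (M.vertex (M.gen ans' t).1)
        (M.question (M.gen ans' t).1 :: (M.gen ans' t).2 (M.vertex (M.gen ans' t).1))) := rfl
    rw [h4, h5, ← e, h1]

/-- the vertex asked first has been asked the first question -/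
theorem gen_first (ans : Fin n → List Q → A) (t : ℕ) :
    ∃ L, (M.gen ans (t + 1)).2 (M.vertex M.start) = L ++ [M.question M.start] := by
  induction t with
  | zero =>
    refine ⟨[], ?_⟩
    show Function.update (fun _ => []) (M.vertex M.start) [M.question M.start] _ = _
    rw [Function.update_self]; rfl
  | succ t ih =>
    obtain ⟨L, hL⟩ := ih
    obtain ⟨K, hK⟩ := M.gen_suffix_succ ans (M.vertex M.start) (t + 1)
    refine ⟨K ++ L, ?_⟩
    rw [← hK, hL, List.append_assoc]

/-- question number `j` to the first vertex according to the transcript -/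
def qOf {v : ℕ} (g : Fin (v - 1) → Q) : ℕ → Q
  | 0 => M.question M.start
  | j + 1 => if h : j < v - 1 then g ⟨j, h⟩ else M.question M.start

/-- the list of the first `k` questions to the first vertex according to the transcript -/
def ql {v : ℕ} (g : Fin (v - 1) → Q) : ℕ → List Q
  | 0 => []
  | k + 1 => M.qOf g k :: ql g k

/-- answer number `j` of the first vertex according to the transcript -/
def aOf {v : ℕ} (f : Fin v → A) (j : ℕ) : A :=
  if h : j < v then f ⟨j, h⟩ else M.answer (M.vertex M.start) [] (fun _ => false)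

theorem ql_length {v : ℕ} (g : Fin (v - 1) → Q) (k : ℕ) : (M.ql g k).length = k := by
  induction k with
  | zero => rfl
  | succ k ih => show (M.qOf g k :: M.ql g k).length = k + 1; rw [List.length_cons, ih]

theorem ql_suffix {v : ℕ} (g : Fin (v - 1) → Q) (k : ℕ) (l : List Q) (h : l <:+ M.ql g k) :
    l = M.ql g l.length := by
  induction k with
  | zero =>
    have : l = [] := List.suffix_nil.mp h
    rw [this]; rfl
  | succ k ih =>
    rcases List.suffix_cons_iff.mp h with h1 | h1
    · have h2 : l.length = k + 1 := by rw [h1, List.length_cons, M.ql_length]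
      rw [h2]; exact h1
    · exact ih h1

/-- answering according to the transcript and to the other rows -/
def simA {v : ℕ} (f : Fin v → A) (ρ : Fin n → Fin n → Bool) (i : Fin n) (l : List Q) : A :=
  if i = M.vertex M.start then M.aOf f (l.length - 1) else M.answer i l (ρ i)

/-- the transcript agrees with the content of the first row -/
def AP {v : ℕ} (τ : (Fin v → A) × (Fin (v - 1) → Q)) (w : Fin n → Bool) : Prop :=
  ∀ j < v, M.answer (M.vertex M.start) (M.ql τ.2 (j + 1)) w = M.aOf τ.1 j

/-- the transcript agrees with the other rows -/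
def BC {v : ℕ} (τ : (Fin v → A) × (Fin (v - 1) → Q)) (ρ : Fin n → Fin n → Bool) : Prop :=
  ∃ k ≤ v, (M.gen (M.simA τ.1 ρ) M.time).2 (M.vertex M.start) = M.ql τ.2 k ∧
    ∀ j, k ≤ j → M.qOf τ.2 j = M.question M.start

theorem agree {v : ℕ} (τ : (Fin v → A) × (Fin (v - 1) → Q)) (ρ : Fin n → Fin n → Bool)
    (w : Fin n → Bool) (hA : M.AP τ w) (k : ℕ) (hk : k ≤ v) (i : Fin n) (l : List Q)
    (hl : l ≠ []) (h : i = M.vertex M.start → l <:+ M.ql τ.2 k) :
    M.answer i l (Function.update ρ (M.vertex M.start) w i) = M.simA τ.1 ρ i l := by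
  unfold simA
  by_cases hi : i = M.vertex M.start
  · rw [if_pos hi, hi, Function.update_self]
    have h1 := h hi
    have h2 := M.ql_suffix τ.2 k l h1
    have h3 : l.length ≤ k := by
      have := h1.length_le
      rwa [M.ql_length] at this
    have h4 : 0 < l.length := List.length_pos_iff.mpr hl
    have h5 := hA (l.length - 1) (by omega)
    rw [Nat.sub_add_cancel h4, ← h2] at h5
    exact h5
  · rw [if_neg hi, Function.update_of_ne hi]

theorem run_eq {v : ℕ} (τ : (Fin v → A) × (Fin (v - 1) → Q)) (ρ : Fin n → Fin n → Bool)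
    (w : Fin n → Bool) (hA : M.AP τ w) (hB : M.BC τ ρ) :
    ∀ t ≤ M.time, M.run (Function.update ρ (M.vertex M.start) w) t
      = M.gen (M.simA τ.1 ρ) t := by
  obtain ⟨k, hk, hk1, -⟩ := hB
  intro t ht
  rw [M.run_eq_gen]
  symm
  refine M.gen_congr _ _ M.time ?_ t ht
  intro i l hl hs
  symm
  apply M.agree τ ρ w hA k hk i l hl
  intro hi
  rw [hi, hk1] at hs
  exact hs

theorem ql_congr {v : ℕ} (g g' : Fin (v - 1) → Q) (h : ∀ j, M.qOf g j = M.qOf g' j) (k : ℕ) :
    M.ql g k = M.ql g' k := by
  induction k with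
  | zero => rfl
  | succ k ih => show M.qOf g k :: M.ql g k = M.qOf g' k :: M.ql g' k; rw [h, ih]

theorem ql_inj {v : ℕ} (g g' : Fin (v - 1) → Q) (k : ℕ) (h : M.ql g k = M.ql g' k) :
    ∀ j < k, M.qOf g j = M.qOf g' j := by
  induction k with
  | zero => intro j hj; omega
  | succ k ih =>
    have h1 : M.qOf g k :: M.ql g k = M.qOf g' k :: M.ql g' k := h
    rw [List.cons.injEq] at h1
    intro j hj
    rcases Nat.lt_succ_iff_lt_or_eq.mp hj with h2 | h2
    · exact ih h1.2 j h2
    · rw [h2]; exact h1.1

theorem uniq {v : ℕ} (ρ : Fin n → Fin n → Bool) (w : Fin n → Bool)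
    (τ τ' : (Fin v → A) × (Fin (v - 1) → Q)) (hA : M.AP τ w)
    (hB : M.BC τ ρ) (hA' : M.AP τ' w) (hB' : M.BC τ' ρ) : τ = τ' := by
  have h1 := M.run_eq τ ρ w hA hB M.time le_rfl
  have h2 := M.run_eq τ' ρ w hA' hB' M.time le_rfl
  obtain ⟨k, hk, hk1, hk2⟩ := hB
  obtain ⟨k', hk', hk1', hk2'⟩ := hB'
  rw [← h1] at hk1
  rw [← h2] at hk1'
  have h3 : M.ql τ.2 k = M.ql τ'.2 k' := by rw [← hk1, hk1']
  have h4 : k = k' := by
    have := congrArg List.length h3
    rwa [M.ql_length, M.ql_length] at this
  subst h4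
  have h5 : ∀ j, M.qOf τ.2 j = M.qOf τ'.2 j := by
    intro j
    rcases Nat.lt_or_ge j k with h | h
    · exact M.ql_inj _ _ k h3 j h
    · rw [hk2 j h, hk2' j h]
  apply Prod.ext
  · funext j
    have h6 := hA j.1 j.2
    have h7 := hA' j.1 j.2
    rw [M.ql_congr _ _ h5, h7] at h6
    unfold aOf at h6
    rw [dif_pos j.2, dif_pos j.2] at h6
    exact h6.symm
  · funext j
    have h6 : (if h : j.1 < v - 1 then τ.2 ⟨j.1, h⟩ else M.question M.start)
        = (if h : j.1 < v - 1 then τ'.2 ⟨j.1, h⟩ else M.question M.start) := h5 (j.1 + 1)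
    rw [dif_pos j.2, dif_pos j.2] at h6
    exact h6

theorem exists_tr {v : ℕ} (hv : M.FirstAsked v) (ht : 1 ≤ M.time) (ρ : Fin n → Fin n → Bool)
    (w : Fin n → Bool) : ∃ τ : (Fin v → A) × (Fin (v - 1) → Q), M.AP τ w ∧ M.BC τ ρ := by
  obtain ⟨G, hG⟩ : ∃ G, G = Function.update ρ (M.vertex M.start) w := ⟨_, rfl⟩
  obtain ⟨t, ht'⟩ : ∃ t, M.time = t + 1 := ⟨M.time - 1, by omega⟩
  obtain ⟨L, hL⟩ := M.gen_first (fun i l => M.answer i l (G i)) t
  rw [← ht'] at hL
  have hlen : L.length + 1 ≤ v := by
    have h1 := hv G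
    rw [M.run_eq_gen, hL, List.length_append] at h1
    exact h1
  obtain ⟨R, hR⟩ : ∃ R, R = L.reverse := ⟨_, rfl⟩
  have hRlen : R.length = L.length := by rw [hR, List.length_reverse]
  let g : Fin (v - 1) → Q := fun j => R.getD j.1 (M.question M.start)
  have hq : ∀ j, M.qOf g (j + 1) = R.getD j (M.question M.start) := by
    intro j
    show (if h : j < v - 1 then g ⟨j, h⟩ else M.question M.start) = _
    split_ifs with h
    · rfl
    · rw [List.getD_eq_default _ _ (by omega)]
  have hql : ∀ m ≤ R.length, M.ql g (m + 1) = (R.take m).reverse ++ [M.question M.start] := by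
    intro m
    induction m with
    | zero => intro _; rfl
    | succ m ih =>
      intro hm
      show M.qOf g (m + 1) :: M.ql g (m + 1) = _
      rw [ih (by omega), hq, List.getD_eq_getElem _ _ (by omega)]
      rw [List.take_succ_eq_append_getElem (by omega), List.reverse_append]
      rfl
  have hqlL : M.ql g (L.length + 1) = L ++ [M.question M.start] := by
    rw [← hRlen, hql _ le_rfl, List.take_length, hR, List.reverse_reverse]
  let f : Fin v → A := fun j => M.answer (M.vertex M.start) (M.ql g (j.1 + 1)) w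
  have hA : M.AP (f, g) w := by
    intro j hj
    show _ = M.aOf f j
    unfold aOf
    rw [dif_pos hj]
  refine ⟨(f, g), hA, L.length + 1, hlen, ?_, ?_⟩
  · have h1 : ∀ t ≤ M.time, M.gen (fun i l => M.answer i l (G i)) t = M.gen (M.simA f ρ) t := by
      apply M.gen_congr
      intro i l hl hs
      rw [hG]
      apply M.agree (f, g) ρ w hA (L.length + 1) hlen i l hl
      intro hi
      rw [hi, hL] at hs
      show l <:+ M.ql g (L.length + 1)
      rw [hqlL]; exact hs
    show (M.gen (M.simA f ρ) M.time).2 (M.vertex M.start) = M.ql g (L.length + 1)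
    rw [← h1 M.time le_rfl, hL, hqlL]
  · intro j hj
    obtain ⟨j', rfl⟩ : ∃ j', j = j' + 1 := ⟨j - 1, by omega⟩
    show M.qOf g (j' + 1) = _
    rw [hq, List.getD_eq_default _ _ (by omega)]

/-- the protocol splits the matrices -/
def split {v : ℕ} (hv : M.FirstAsked v) (ht : 1 ≤ M.time) :
    Split M.Accepts (M.vertex M.start) ((Fin v → A) × (Fin (v - 1) → Q)) where
  A := M.AP
  B := fun τ ρ => M.BC τ ρ ∧ M.acc (M.gen (M.simA τ.1 ρ) M.time).1
  hAB := by
    intro ρ w
    constructor
    · intro h
      obtain ⟨τ, h1, h2⟩ := M.exists_tr hv ht ρ w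
      refine ⟨τ, h1, h2, ?_⟩
      rw [← M.run_eq τ ρ w h1 h2 M.time le_rfl]; exact h
    · rintro ⟨τ, h1, h2, h3⟩
      rw [← M.run_eq τ ρ w h1 h2 M.time le_rfl] at h3; exact h3
  huniq := fun ρ w τ τ' h1 h2 h3 h4 => M.uniq ρ w τ τ' h1 h2.1 h3 h4.1

theorem main [Fintype Q] [Fintype A] {v : ℕ} (hv : M.FirstAsked v)
    (hn : 2 * (Fintype.card A ^ v * Fintype.card Q ^ (v - 1)) ≤ n) :
    Invariant M.Accepts ↔ ∀ G G' : Fin n → Fin n → Bool, loopDegrees G = loopDegrees G' →
      (M.Accepts G ↔ M.Accepts G') := by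
  constructor
  · intro hI G G' h
    rcases Nat.eq_zero_or_pos M.time with ht | ht
    · unfold Accepts; rw [ht]; exact Iff.rfl
    refine (M.split hv ht).main ?_ hI G G' h
    rw [Fintype.card_prod, Fintype.card_fun, Fintype.card_fun, Fintype.card_fin,
      Fintype.card_fin]
    exact hn
  · intro h π G
    exact h _ _ (loopDegrees_perm π G)

end Referee

end Pool.Agent.OnePass
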