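import Pool.Agent.Lib.OnePass.NbrConnect
import Pool.Agent.Lib.OnePass.Referee

namespace Pool.Agent.OnePass

open Finset

namespace Referee

variable {n : ℕ} {H Q A : Type} (M : Referee n H Q A)

/-- the answers of a vertex to all lists of at most `v` questions -/
abbrev Table (v : ℕ) (Q A : Type) : Type := (Σ k : Fin v, List.Vector Q (k.val + 1)) → A

noncomputable instance [Fintype Q] [Fintype A] (v : ℕ) : Fintype (Table v Q A) := by
  classical
  exact (inferInstance : Fintype ((Σ k : Fin v, List.Vector Q (k.val + 1)) → A))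

theorem card_table [Fintype Q] [Fintype A] (v : ℕ) :
    Fintype.card (Table v Q A) =
      Fintype.card A ^ (∑ k ∈ Finset.range v, Fintype.card Q ^ (k + 1)) := by
  classical
  have h1 : Fintype.card (Table v Q A) =
      Fintype.card A ^ Fintype.card (Σ k : Fin v, List.Vector Q (k.val + 1)) :=
    (Fintype.card_congr (Equiv.refl _)).trans Fintype.card_fun
  rw [h1, Fintype.card_sigma]
  congr 1
  simp only [card_vector]
  exact Fin.sum_univ_eq_sum_range (fun k => Fintype.card Q ^ (k + 1)) v

open Classical in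
/-- the table of the vertex `i` -/
noncomputable def table (v : ℕ) (i : Fin n) (R : Set (Fin n)) : Table v Q A :=
  fun p => M.answer i p.2.toList (fun j => decide (j ∈ R))

theorem accepts_congr {v : ℕ} {U : Finset (Fin n)} {C : Set (Multiset ℕ)}
    (hv : M.AskedAtMost v U C) (G G' : SimpleGraph (Fin n)) (hG : degrees G ∈ C)
    (h1 : ∀ i ∈ U, M.table v i (G.neighborSet i) = M.table v i (G'.neighborSet i))
    (h2 : ∀ i, i ∉ U → G.neighborSet i = G'.neighborSet i) :
    M.Accepts (adj G) ↔ M.Accepts (adj G') := by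
  unfold Accepts
  rw [M.run_eq_gen, M.run_eq_gen]
  have h := M.gen_congr (fun i l => M.answer i l (adj G i)) (fun i l => M.answer i l (adj G' i))
    M.time ?_ M.time le_rfl
  · rw [h]
  · intro i l hl hs
    by_cases hi : i ∈ U
    · have h3 := hv G hG i hi
      rw [M.run_eq_gen] at h3
      have h4 := hs.length_le
      have h5 : 0 < l.length := List.length_pos_iff.mpr hl
      exact congrFun (h1 i hi) ⟨⟨l.length - 1, by omega⟩,
        ⟨l, by show l.length = l.length - 1 + 1; omega⟩⟩
    · have h3 := h2 i hi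
      have h4 : adj G i = adj G' i := by
        funext j
        have : G.Adj i j ↔ G'.Adj i j := by
          rw [← SimpleGraph.mem_neighborSet, ← SimpleGraph.mem_neighborSet, h3]
        exact decide_eq_decide.2 this
      rw [h4]

theorem main_short [Fintype Q] [Fintype A] {v s : ℕ} {U : Finset (Fin n)}
    {C : Set (Multiset ℕ)} (hv : M.AskedAtMost v U C)
    (hs : Fintype.card A ^ (∑ k ∈ Finset.range v, Fintype.card Q ^ (k + 1)) ≤ s)
    (hn : 16 * (s ^ (s ^ 2 * (s ^ 2 + 1)) + s ^ 2 + 2) + 4 ≤ U.card) :
    (∀ G G' : SimpleGraph (Fin n), degrees G ∈ C → Nonempty (G ≃g G') →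
        (M.Accepts (adj G) ↔ M.Accepts (adj G'))) ↔
      ∀ G G' : SimpleGraph (Fin n), degrees G ∈ C → degrees G = degrees G' →
        (M.Accepts (adj G) ↔ M.Accepts (adj G')) := by
  constructor
  · intro h G G' hG hGG
    refine Nbr.main (A := Table v Q A) (by rw [card_table]; exact hs) U hn
      (fun i R => M.table v i R) (fun G => M.Accepts (adj G)) (degrees G) ?_ ?_ G G' rfl hGG.symm
    · intro G1 G2 d1 _ h1 h2
      exact M.accepts_congr hv G1 G2 (d1 ▸ hG) h1 h2
    · intro G1 G2 d1 _ h1
      exact h G1 G2 (d1 ▸ hG) h1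
  · intro h G G' hG hiso
    exact h G G' hG (Nbr.degrees_eq_of_iso hiso)

end Referee

end Pool.Agent.OnePass
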