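import Pool.Agent.Lib.OnePass.NbrSwitch

namespace Pool.Agent.OnePass.Nbr

open Finset

variable {n : ℕ}

/-- **switch invariance** -/
theorem switch {s : ℕ} {A : Type} [Fintype A] (hA : Fintype.card A ≤ s) (U : Finset (Fin n))
    (hn : 16 * (s ^ (s ^ 2 * (s ^ 2 + 1)) + s ^ 2 + 2) + 4 ≤ U.card)
    (f : Fin n → Set (Fin n) → A) (P : SimpleGraph (Fin n) → Prop) (d : Multiset ℕ)
    (hloc : ∀ G G' : SimpleGraph (Fin n), degrees G = d → degrees G' = d →
      (∀ i ∈ U, f i (G.neighborSet i) = f i (G'.neighborSet i)) →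
      (∀ i, i ∉ U → G.neighborSet i = G'.neighborSet i) → (P G ↔ P G'))
    (hD : ∀ G G' : SimpleGraph (Fin n), degrees G = d → degrees G' = d → Nonempty (G ≃g G') →
        (P G ↔ P G'))
    (G : SimpleGraph (Fin n)) (hG : degrees G = d) (x : Fin 4 → Fin n) (hc : Can G x) :
    P G ↔ P (sw G x) := by
  classical
  have hx := hc.inj
  have hsw : degrees (sw G x) = d := (degrees_sw hc).trans hG
  -- a renaming after which all the answers agree is enough
  suffices hπ : ∃ π : Equiv.Perm (Fin n), (∀ i ∈ U,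
      f i {j | G.Adj (π i) (π j)} = f i {j | (sw G x).Adj (π i) (π j)}) ∧
      (∀ i, i ∉ U → {j | G.Adj (π i) (π j)} = {j | (sw G x).Adj (π i) (π j)}) by
    obtain ⟨π, hπ1, hπ2⟩ := hπ
    have e1 : Nonempty (G.comap π ≃g G) := ⟨SimpleGraph.Iso.comap π G⟩
    have e2 : Nonempty ((sw G x).comap π ≃g sw G x) := ⟨SimpleGraph.Iso.comap π (sw G x)⟩
    have d1 : degrees (G.comap π) = d := (degrees_eq_of_iso e1).trans hG
    have d2 : degrees ((sw G x).comap π) = d := (degrees_eq_of_iso e2).trans hsw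
    rw [← hD (G.comap π) G d1 hG e1, ← hD ((sw G x).comap π) (sw G x) d2 hsw e2]
    exact hloc _ _ d1 d2 hπ1 hπ2
  -- the adjacency type of most of the vertices
  set K : ℕ := s ^ (s ^ 2 * (s ^ 2 + 1)) + 1 with hK
  set V : Finset (Fin n) := U \ univ.image x with hV
  have hVc : 16 * (K + (s ^ 2 + 1)) ≤ V.card := by
    have h1 := Finset.le_card_sdiff (univ.image x) U
    rw [Finset.card_image_of_injective _ hx, Finset.card_univ, Fintype.card_fin, ← hV] at h1
    omega
  obtain ⟨t, _, ht⟩ := Finset.exists_le_card_fiber_of_mul_le_card_of_maps_to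
    (s := V) (t := (univ : Finset (Fin 4 → Bool))) (n := K + (s ^ 2 + 1))
    (f := fun j => fun i => decide (G.Adj (x i) j)) (fun _ _ => Finset.mem_univ _)
    Finset.univ_nonempty (by
      have : (univ : Finset (Fin 4 → Bool)).card = 16 := by
        rw [Finset.card_univ, Fintype.card_fun, Fintype.card_bool, Fintype.card_fin]
        norm_num
      rw [this]
      exact hVc)
  set H : Finset (Fin n) := {j ∈ V | (fun i => decide (G.Adj (x i) j)) = t} with hH
  have hHx : ∀ j ∈ H, ∀ i, j ≠ x i := by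
    intro j hj i hji
    rw [hH, Finset.mem_filter, hV, Finset.mem_sdiff] at hj
    exact hj.1.2 (Finset.mem_image.2 ⟨i, Finset.mem_univ _, hji.symm⟩)
  have hHU : ∀ j ∈ H, j ∈ U := by
    intro j hj
    rw [hH, Finset.mem_filter, hV, Finset.mem_sdiff] at hj
    exact hj.1.1
  have hHt : ∀ j ∈ H, ∀ i, (G.Adj (x i) j ↔ t i = true) := by
    intro j hj i
    rw [hH, Finset.mem_filter] at hj
    have h1 : decide (G.Adj (x i) j) = t i := congrFun hj.2 i
    rw [← h1, decide_eq_true_iff]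
  obtain ⟨Y, hYH, hYc⟩ := Finset.exists_subset_card_eq (s := H) (n := K) (by omega)
  have hHY : s ^ 2 + 1 ≤ (H \ Y).card := by
    rw [Finset.card_sdiff_of_subset hYH, hYc]
    omega
  obtain ⟨Z, hZH, hZc⟩ := Finset.exists_subset_card_eq hHY
  set L : Set (Fin n) := {j | j ∈ H ∨ ∃ i, j = x i} with hL
  have hLt : ∀ i, ∀ j ∈ L, (∀ k, j ≠ x k) → (G.Adj (x i) j ↔ t i = true) := by
    intro i j hj hjx
    rcases hj with hj | ⟨k, hk⟩
    · exact hHt j hj i
    · exact absurd hk (hjx k)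
  -- first collision
  let F : Fin n → ({z // z ∈ Z.offDiag} → A) := fun y z =>
    if z.1.1 < z.1.2 then
      f z.1.1 (Nbr.row L (G.neighborSet (x 1)) (t 1 = true) (G.Adj (x 1) (x 3)) z.1.1 z.1.2 y)
    else
      f z.1.1 (Nbr.row L (G.neighborSet (x 3)) (t 3 = true) (G.Adj (x 3) (x 1)) z.1.1 z.1.2 y)
  have hFc : (univ : Finset ({z // z ∈ Z.offDiag} → A)).card < Y.card := by
    rw [Finset.card_univ, Fintype.card_fun, Fintype.card_coe, Finset.offDiag_card, hZc, hYc, hK]
    have h1 : Fintype.card A ^ ((s ^ 2 + 1) * (s ^ 2 + 1) - (s ^ 2 + 1)) ≤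
        s ^ ((s ^ 2 + 1) * (s ^ 2 + 1) - (s ^ 2 + 1)) := Nat.pow_le_pow_left hA _
    have h2 : (s ^ 2 + 1) * (s ^ 2 + 1) - (s ^ 2 + 1) = s ^ 2 * (s ^ 2 + 1) := by
      have : (s ^ 2 + 1) * (s ^ 2 + 1) = s ^ 2 * (s ^ 2 + 1) + (s ^ 2 + 1) := by ring
      omega
    rw [h2] at h1 ⊢
    omega
  obtain ⟨α, hα, γ, hγ, hαγ, hF⟩ := Finset.exists_ne_map_eq_of_card_lt_of_maps_to hFc
    (f := F) (fun _ _ => Finset.mem_univ _)
  -- second collision
  let E : Fin n → A × A := fun z =>
    (f α (Nbr.row L (G.neighborSet (x 0)) (t 0 = true) (G.Adj (x 0) (x 2)) α γ z),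
     f γ (Nbr.row L (G.neighborSet (x 2)) (t 2 = true) (G.Adj (x 2) (x 0)) γ α z))
  have hEc : (univ : Finset (A × A)).card < Z.card := by
    rw [Finset.card_univ, Fintype.card_prod, hZc]
    have := Nat.mul_le_mul hA hA
    rw [pow_two]
    omega
  obtain ⟨β, hβ, δ, hδ, hlt, hE⟩ : ∃ β ∈ Z, ∃ δ ∈ Z, β < δ ∧ E β = E δ := by
    obtain ⟨β, hβ, δ, hδ, hβδ, hE⟩ := Finset.exists_ne_map_eq_of_card_lt_of_maps_to hEc
      (f := E) (fun _ _ => Finset.mem_univ _)
    rcases lt_or_gt_of_ne hβδ with h | h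
    · exact ⟨β, hβ, δ, hδ, h, hE⟩
    · exact ⟨δ, hδ, β, hβ, h, hE.symm⟩
  have hβδ : β ≠ δ := ne_of_lt hlt
  have hYZ : ∀ y ∈ Y, ∀ z ∈ Z, y ≠ z := by
    intro y hy z hz hyz
    have := hZH hz
    rw [Finset.mem_sdiff] at this
    exact this.2 (hyz ▸ hy)
  have hZH' : ∀ z ∈ Z, z ∈ H := fun z hz => (Finset.mem_sdiff.1 (hZH hz)).1
  let x' : Fin 4 → Fin n := ![α, β, γ, δ]
  have hx'H : ∀ i, x' i ∈ H := by
    intro i
    fin_cases i
    · exact hYH hα
    · exact hZH' _ hβ
    · exact hYH hγ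
    · exact hZH' _ hδ
  have hx' : Function.Injective x' := by
    have h01 := hYZ α hα β hβ
    have h03 := hYZ α hα δ hδ
    have h21 := hYZ γ hγ β hβ
    have h23 := hYZ γ hγ δ hδ
    intro i j hij
    fin_cases i <;> fin_cases j <;>
      first
      | rfl
      | exact absurd hij h01
      | exact absurd hij h03
      | exact absurd hij h21
      | exact absurd hij h23
      | exact absurd hij hαγ
      | exact absurd hij hβδ
      | exact absurd hij.symm h01
      | exact absurd hij.symm h03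
      | exact absurd hij.symm h21
      | exact absurd hij.symm h23
      | exact absurd hij.symm hαγ
      | exact absurd hij.symm hβδ
  obtain ⟨π, hO⟩ := exists_oct (L := L) hx hx' (fun i j => (hHx _ (hx'H j) i).symm)
    (fun i => Or.inr ⟨i, rfl⟩) (fun i => Or.inl (hx'H i))
  have hF1 := congrFun hF ⟨(β, δ), Finset.mem_offDiag.2 ⟨hβ, hδ, hβδ⟩⟩
  have hF2 := congrFun hF ⟨(δ, β), Finset.mem_offDiag.2 ⟨hδ, hβ, hβδ.symm⟩⟩
  simp only [F, if_pos hlt, if_neg (not_lt_of_gt hlt)] at hF1 hF2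
  have hE1 := congrArg Prod.fst hE
  have hE2 := congrArg Prod.snd hE
  have hrows : ∀ i, (∀ k, i ≠ x' k) →
      {j | G.Adj (π i) (π j)} = {j | (sw G x).Adj (π i) (π j)} := by
    intro i hi
    have hπi : ∀ k, π i ≠ x k := by
      intro k hk
      rw [← hO.map' k] at hk
      exact hi k (π.injective hk)
    ext j
    exact (Can.row_other (G := G) (π i) (π j) hπi).symm
  refine ⟨π, fun i _ => ?_, fun i hi => hrows i (fun k hk => hi (hk ▸ hHU _ (hx'H k)))⟩
  by_cases hi : ∃ k, i = x' k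
  · obtain ⟨k, rfl⟩ := hi
    rw [hO.map']
    fin_cases k
    · exact hO.answer hc (hLt 0) (f α) hE1
    · have hinj : Function.Injective (![1, 0, 3, 2] : Fin 4 → Fin 4) := by decide
      have := (hO.comp ![1, 0, 3, 2] hinj).answer hc.comp1 (τ := (t 1 = true)) (fun j hj hjx =>
        hLt 1 j hj (fun k => by
          obtain ⟨l, rfl⟩ := Finite.surjective_of_injective hinj k
          exact hjx l)) (f β) hF1
      rw [sw_comp1] at this
      exact this
    · have hinj : Function.Injective (![2, 3, 0, 1] : Fin 4 → Fin 4) := by decide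
      have := (hO.comp ![2, 3, 0, 1] hinj).answer hc.comp2 (τ := (t 2 = true)) (fun j hj hjx =>
        hLt 2 j hj (fun k => by
          obtain ⟨l, rfl⟩ := Finite.surjective_of_injective hinj k
          exact hjx l)) (f γ) hE2.symm
      rw [sw_comp2] at this
      exact this
    · have hinj : Function.Injective (![3, 2, 1, 0] : Fin 4 → Fin 4) := by decide
      have := (hO.comp ![3, 2, 1, 0] hinj).answer hc.comp3 (τ := (t 3 = true)) (fun j hj hjx =>
        hLt 3 j hj (fun k => by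
          obtain ⟨l, rfl⟩ := Finite.surjective_of_injective hinj k
          exact hjx l)) (f δ) hF2.symm
      rw [sw_comp3] at this
      exact this
  · push Not at hi
    rw [hrows i hi]

end Pool.Agent.OnePass.Nbr
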