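import Pool.Agent.Lib.OnePass.Final
import Pool.Agent.Lib.OnePass.NbrDefs

namespace Pool.Agent.OnePass

open Finset

variable {n : ℕ}

namespace Nbr

/-! ### the switch -/

/-- the switch: replace the edges `x 0 - x 1`, `x 2 - x 3` by `x 0 - x 3`, `x 2 - x 1` -/
def sw (G : SimpleGraph (Fin n)) (x : Fin 4 → Fin n) : SimpleGraph (Fin n) :=
  SimpleGraph.fromEdgeSet ((G.edgeSet \ {s(x 0, x 1), s(x 2, x 3)}) ∪ {s(x 0, x 3), s(x 2, x 1)})

/-- the switch at `x` is possible -/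
structure Can (G : SimpleGraph (Fin n)) (x : Fin 4 → Fin n) : Prop where
  inj : Function.Injective x
  h01 : G.Adj (x 0) (x 1)
  h23 : G.Adj (x 2) (x 3)
  h03 : ¬ G.Adj (x 0) (x 3)
  h21 : ¬ G.Adj (x 2) (x 1)

theorem sw_adj (G : SimpleGraph (Fin n)) (x : Fin 4 → Fin n) (u v : Fin n) :
    (sw G x).Adj u v ↔ ((G.Adj u v ∧ ¬ (u = x 0 ∧ v = x 1 ∨ u = x 1 ∧ v = x 0) ∧
      ¬ (u = x 2 ∧ v = x 3 ∨ u = x 3 ∧ v = x 2)) ∨ (u = x 0 ∧ v = x 3 ∨ u = x 3 ∧ v = x 0) ∨
      (u = x 2 ∧ v = x 1 ∨ u = x 1 ∧ v = x 2)) ∧ u ≠ v := by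
  unfold sw
  rw [SimpleGraph.fromEdgeSet_adj]
  simp only [Set.mem_union, Set.mem_sdiff, SimpleGraph.mem_edgeSet, Set.mem_insert_iff,
    Set.mem_singleton_iff, Sym2.eq_iff, not_or]

theorem sw_comp2 (G : SimpleGraph (Fin n)) (x : Fin 4 → Fin n) :
    sw G (x ∘ ![2, 3, 0, 1]) = sw G x := by
  show SimpleGraph.fromEdgeSet ((G.edgeSet \ {s(x 2, x 3), s(x 0, x 1)}) ∪
    {s(x 2, x 1), s(x 0, x 3)}) = SimpleGraph.fromEdgeSet ((G.edgeSet \ {s(x 0, x 1), s(x 2, x 3)}) ∪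
    {s(x 0, x 3), s(x 2, x 1)})
  rw [Set.pair_comm (s(x 2, x 3)), Set.pair_comm (s(x 2, x 1))]

theorem sw_comp1 (G : SimpleGraph (Fin n)) (x : Fin 4 → Fin n) :
    sw G (x ∘ ![1, 0, 3, 2]) = sw G x := by
  show SimpleGraph.fromEdgeSet ((G.edgeSet \ {s(x 1, x 0), s(x 3, x 2)}) ∪
    {s(x 1, x 2), s(x 3, x 0)}) = SimpleGraph.fromEdgeSet ((G.edgeSet \ {s(x 0, x 1), s(x 2, x 3)}) ∪
    {s(x 0, x 3), s(x 2, x 1)})
  rw [Sym2.eq_swap (a := x 1) (b := x 0), Sym2.eq_swap (a := x 3) (b := x 2),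
    Sym2.eq_swap (a := x 1) (b := x 2), Sym2.eq_swap (a := x 3) (b := x 0),
    Set.pair_comm (s(x 2, x 1))]

theorem sw_comp3 (G : SimpleGraph (Fin n)) (x : Fin 4 → Fin n) :
    sw G (x ∘ ![3, 2, 1, 0]) = sw G x := by
  show SimpleGraph.fromEdgeSet ((G.edgeSet \ {s(x 3, x 2), s(x 1, x 0)}) ∪
    {s(x 3, x 0), s(x 1, x 2)}) = SimpleGraph.fromEdgeSet ((G.edgeSet \ {s(x 0, x 1), s(x 2, x 3)}) ∪
    {s(x 0, x 3), s(x 2, x 1)})
  rw [Sym2.eq_swap (a := x 1) (b := x 0), Sym2.eq_swap (a := x 3) (b := x 2),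
    Sym2.eq_swap (a := x 1) (b := x 2), Sym2.eq_swap (a := x 3) (b := x 0),
    Set.pair_comm (s(x 2, x 3))]

theorem Can.comp2 {G : SimpleGraph (Fin n)} {x : Fin 4 → Fin n} (h : Can G x) :
    Can G (x ∘ ![2, 3, 0, 1]) :=
  ⟨h.inj.comp (by decide), h.h23, h.h01, h.h21, h.h03⟩

theorem Can.comp1 {G : SimpleGraph (Fin n)} {x : Fin 4 → Fin n} (h : Can G x) :
    Can G (x ∘ ![1, 0, 3, 2]) :=
  ⟨h.inj.comp (by decide), h.h01.symm, h.h23.symm, fun h' => h.h21 h'.symm,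
    fun h' => h.h03 h'.symm⟩

theorem Can.comp3 {G : SimpleGraph (Fin n)} {x : Fin 4 → Fin n} (h : Can G x) :
    Can G (x ∘ ![3, 2, 1, 0]) :=
  ⟨h.inj.comp (by decide), h.h23.symm, h.h01.symm, fun h' => h.h03 h'.symm,
    fun h' => h.h21 h'.symm⟩

theorem Can.row0 {G : SimpleGraph (Fin n)} {x : Fin 4 → Fin n} (h : Can G x) (j : Fin n) :
    (sw G x).Adj (x 0) j ↔ (G.Adj (x 0) j ∧ j ≠ x 1) ∨ j = x 3 := by
  have e : ∀ i j : Fin 4, i ≠ j → x i ≠ x j := fun i j hij hh => hij (h.inj hh)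
  have e01 := e 0 1 (by decide)
  have e02 := e 0 2 (by decide)
  have e03 := e 0 3 (by decide)
  rw [sw_adj]
  simp only [e01, e02, e03, true_and, false_and, or_false, not_false_eq_true, and_true]
  constructor
  · rintro ⟨(h1 | h1), h2⟩
    · exact Or.inl h1
    · exact Or.inr h1
  · rintro (h1 | h1)
    · exact ⟨Or.inl h1, h1.1.ne⟩
    · exact ⟨Or.inr h1, by rw [h1]; exact e03⟩

theorem Can.row_other {G : SimpleGraph (Fin n)} {x : Fin 4 → Fin n} (v j : Fin n)
    (hv : ∀ i, v ≠ x i) : (sw G x).Adj v j ↔ G.Adj v j := by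
  rw [sw_adj]
  simp only [hv, false_and, or_false, not_false_eq_true, and_true]
  exact ⟨fun h => h.1, fun h => ⟨h, h.ne⟩⟩

theorem Can.row0_ncard {G : SimpleGraph (Fin n)} {x : Fin 4 → Fin n} (h : Can G x) :
    ((sw G x).neighborSet (x 0)).ncard = (G.neighborSet (x 0)).ncard := by
  have : (sw G x).neighborSet (x 0) = insert (x 3) (G.neighborSet (x 0) \ {x 1}) := by
    ext j
    simp only [SimpleGraph.mem_neighborSet, h.row0, Set.mem_insert_iff, Set.mem_sdiff,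
      Set.mem_singleton_iff]
    tauto
  rw [this]
  exact Set.ncard_exchange h.h03 h.h01

theorem Can.ncard {G : SimpleGraph (Fin n)} {x : Fin 4 → Fin n} (h : Can G x) (v : Fin n) :
    ((sw G x).neighborSet v).ncard = (G.neighborSet v).ncard := by
  by_cases hv : ∃ i, v = x i
  · obtain ⟨i, rfl⟩ := hv
    fin_cases i
    · exact h.row0_ncard
    · have := h.comp1.row0_ncard
      rw [sw_comp1] at this
      exact this
    · have := h.comp2.row0_ncard
      rw [sw_comp2] at this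
      exact this
    · have := h.comp3.row0_ncard
      rw [sw_comp3] at this
      exact this
  · push Not at hv
    have : (sw G x).neighborSet v = G.neighborSet v := by
      ext j
      simp only [SimpleGraph.mem_neighborSet]
      exact Can.row_other v j hv
    rw [this]

/-! ### the degrees -/

theorem degrees_eq_of_iso {G G' : SimpleGraph (Fin n)} (h : Nonempty (G ≃g G')) :
    degrees G = degrees G' := by
  obtain ⟨φ⟩ := h
  have h1 : ∀ i, (G.neighborSet i).ncard = (G'.neighborSet (φ i)).ncard := by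
    intro i
    have : G'.neighborSet (φ i) = φ '' (G.neighborSet i) := by
      ext j
      simp only [SimpleGraph.mem_neighborSet, Set.mem_image]
      constructor
      · intro hj
        refine ⟨φ.symm j, ?_, by simp⟩
        rw [← φ.map_adj_iff]
        simpa using hj
      · rintro ⟨k, hk, rfl⟩
        exact φ.map_adj_iff.2 hk
    rw [this, Set.ncard_image_of_injective _ φ.injective]
  unfold degrees
  have h2 : (univ : Finset (Fin n)).val = (univ : Finset (Fin n)).val.map φ.toEquiv :=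
    (Multiset.map_univ_val_equiv φ.toEquiv).symm
  conv_rhs => rw [h2, Multiset.map_map]
  apply Multiset.map_congr rfl
  intro i _
  exact h1 i

theorem degrees_sw {G : SimpleGraph (Fin n)} {x : Fin 4 → Fin n} (h : Can G x) :
    degrees (sw G x) = degrees G := by
  unfold degrees
  apply Multiset.map_congr rfl
  intro i _
  exact h.ncard i

/-! ### rows after a renaming -/

/-- `π` exchanges the four vertices `x i` with the four vertices `x' i` of the set `L` -/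
structure Oct (π : Equiv.Perm (Fin n)) (L : Set (Fin n)) (x x' : Fin 4 → Fin n) : Prop where
  inj : Function.Injective x
  inj' : Function.Injective x'
  ne : ∀ i j, x i ≠ x' j
  map : ∀ i, π (x i) = x' i
  map' : ∀ i, π (x' i) = x i
  fix : ∀ j, (∀ i, j ≠ x i) → (∀ i, j ≠ x' i) → π j = j
  mem : ∀ i, x i ∈ L
  mem' : ∀ i, x' i ∈ L

theorem Oct.comp {π : Equiv.Perm (Fin n)} {L : Set (Fin n)} {x x' : Fin 4 → Fin n}
    (h : Oct π L x x') (ρ : Fin 4 → Fin 4) (hρ : Function.Injective ρ) :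
    Oct π L (x ∘ ρ) (x' ∘ ρ) := by
  have hs : Function.Surjective ρ := Finite.surjective_of_injective hρ
  refine ⟨h.inj.comp hρ, h.inj'.comp hρ, fun i j => h.ne _ _, fun i => h.map _, fun i => h.map' _,
    fun j h1 h2 => h.fix j (fun i => ?_) (fun i => ?_), fun i => h.mem _, fun i => h.mem' _⟩
  · obtain ⟨k, rfl⟩ := hs i
    exact h1 k
  · obtain ⟨k, rfl⟩ := hs i
    exact h2 k

/-- the row seen under the new labels -/
def row (L R : Set (Fin n)) (τ e : Prop) (p q x : Fin n) : Set (Fin n) :=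
  {j | j ≠ p ∧ ((j = q ∧ e) ∨ (j ≠ q ∧ ((j = x ∧ ¬ τ) ∨
    (j ≠ x ∧ ((j ∈ L ∧ τ) ∨ (j ∉ L ∧ j ∈ R))))))}

theorem Oct.row {π : Equiv.Perm (Fin n)} {L : Set (Fin n)} {x x' : Fin 4 → Fin n}
    (h : Oct π L x x') {R R0 : Set (Fin n)} {τ e : Prop} (h0 : x 0 ∉ R) (h1 : x 1 ∈ R)
    (h2 : x 2 ∈ R ↔ e) (h3 : x 3 ∉ R) (hL : ∀ j ∈ L, (∀ i, j ≠ x i) → (j ∈ R ↔ τ))
    (hR : ∀ j, j ∉ L → (j ∈ R ↔ j ∈ R0)) (z : Fin n) (hz : (τ ∧ z = x' 3) ∨ (¬ τ ∧ z = x' 1)) :
    {j | π j ∈ R} = Nbr.row L R0 τ e (x' 0) (x' 2) z := by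
  ext j
  simp only [Set.mem_ofPred_eq, Nbr.row]
  have hz' : ∀ i, x i ≠ z := by
    intro i
    rcases hz with ⟨_, rfl⟩ | ⟨_, rfl⟩
    · exact h.ne _ _
    · exact h.ne _ _
  by_cases hj : ∃ i, j = x i
  · obtain ⟨i, rfl⟩ := hj
    have := hL (x' i) (h.mem' i) (fun k => (h.ne k i).symm)
    rw [h.map]
    simp only [this, h.ne, hz', h.mem, ne_eq, not_false_eq_true, true_and, false_and, false_or,
      not_true_eq_false, or_false]
  · push Not at hj
    by_cases hj' : ∃ i, j = x' i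
    · obtain ⟨i, rfl⟩ := hj'
      rw [h.map']
      have e' : ∀ i j : Fin 4, i ≠ j → x' i ≠ x' j := fun i j hij hh => hij (h.inj' hh)
      fin_cases i
      · show x 0 ∈ R ↔ _
        simp [h0]
      · show x 1 ∈ R ↔ _
        have a1 := e' 1 0 (by decide)
        have a2 := e' 1 2 (by decide)
        have a3 := e' 1 3 (by decide)
        rcases hz with ⟨ht, rfl⟩ | ⟨ht, rfl⟩
        · have := h.mem' 1
          simp [h1, a1, a2, a3, ht, this]
        · simp [h1, a1, a2, ht]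
      · show x 2 ∈ R ↔ _
        have a1 := e' 2 0 (by decide)
        simp [h2, a1]
      · show x 3 ∈ R ↔ _
        have a1 := e' 3 0 (by decide)
        have a2 := e' 3 2 (by decide)
        have a3 := e' 3 1 (by decide)
        rcases hz with ⟨ht, rfl⟩ | ⟨ht, rfl⟩
        · simp [h3, a1, a2, ht]
        · have := h.mem' 3
          simp [h3, a1, a2, a3, ht, this]
    · push Not at hj'
      rw [h.fix j hj hj']
      have hjz : j ≠ z := by
        rcases hz with ⟨_, rfl⟩ | ⟨_, rfl⟩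
        · exact hj' _
        · exact hj' _
      by_cases hjL : j ∈ L
      · have := hL j hjL hj
        simp [this, hj', hjz, hjL]
      · have := hR j hjL
        simp [this, hj', hjz, hjL]

/-- the answer of the vertex with new label `x' 0` is the same before and after the switch -/
theorem Oct.answer {π : Equiv.Perm (Fin n)} {L : Set (Fin n)} {x x' : Fin 4 → Fin n}
    (h : Oct π L x x') {G : SimpleGraph (Fin n)} (hc : Can G x) {τ : Prop}
    (hL : ∀ j ∈ L, (∀ i, j ≠ x i) → (G.Adj (x 0) j ↔ τ)) {A : Type} (f : Set (Fin n) → A)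
    (hf : f (Nbr.row L (G.neighborSet (x 0)) τ (G.Adj (x 0) (x 2)) (x' 0) (x' 2) (x' 1)) =
      f (Nbr.row L (G.neighborSet (x 0)) τ (G.Adj (x 0) (x 2)) (x' 0) (x' 2) (x' 3))) :
    f {j | G.Adj (x 0) (π j)} = f {j | (sw G x).Adj (x 0) (π j)} := by
  have e : ∀ i j : Fin 4, i ≠ j → x i ≠ x j := fun i j hij hh => hij (h.inj hh)
  have key1 : ∀ z, ((τ ∧ z = x' 3) ∨ (¬ τ ∧ z = x' 1)) → {j | G.Adj (x 0) (π j)} =
      Nbr.row L (G.neighborSet (x 0)) τ (G.Adj (x 0) (x 2)) (x' 0) (x' 2) z := by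
    intro z hz
    exact h.row (R := G.neighborSet (x 0)) (R0 := G.neighborSet (x 0)) (fun hh => G.irrefl hh)
      hc.h01 Iff.rfl hc.h03 hL (fun _ _ => Iff.rfl) z hz
  have h' := h.comp ![0, 3, 2, 1] (by decide)
  have key2 : ∀ z, ((τ ∧ z = x' 1) ∨ (¬ τ ∧ z = x' 3)) → {j | (sw G x).Adj (x 0) (π j)} =
      Nbr.row L (G.neighborSet (x 0)) τ (G.Adj (x 0) (x 2)) (x' 0) (x' 2) z := by
    intro z hz
    have e31 := e 3 1 (by decide)
    have e13 := e 1 3 (by decide)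
    have e21 := e 2 1 (by decide)
    have e23 := e 2 3 (by decide)
    refine h'.row (R := (sw G x).neighborSet (x 0)) (R0 := G.neighborSet (x 0))
      (fun hh => (sw G x).irrefl hh) ?_ ?_ ?_ ?_ ?_ z hz
    · show (sw G x).Adj (x 0) (x 3)
      rw [hc.row0]; exact Or.inr rfl
    · show (sw G x).Adj (x 0) (x 2) ↔ _
      rw [hc.row0]
      simp [e21, e23]
    · show ¬ (sw G x).Adj (x 0) (x 1)
      rw [hc.row0]
      simp [e13]
    · intro j hj hji
      have hji' : ∀ i, j ≠ x i := by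
        intro i
        have hs : Function.Surjective (![0, 3, 2, 1] : Fin 4 → Fin 4) :=
          Finite.surjective_of_injective (by decide)
        obtain ⟨k, rfl⟩ := hs i
        exact hji k
      show (sw G x).Adj (x 0) j ↔ _
      rw [hc.row0]
      simp only [hji', ne_eq, not_false_eq_true, and_true, or_false]
      exact hL j hj hji'
    · intro j hj
      show (sw G x).Adj (x 0) j ↔ G.Adj (x 0) j
      have hj1 : j ≠ x 1 := fun hh => hj (hh ▸ h.mem 1)
      have hj3 : j ≠ x 3 := fun hh => hj (hh ▸ h.mem 3)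
      rw [hc.row0]
      simp [hj1, hj3]
  by_cases ht : τ
  · rw [key1 (x' 3) (Or.inl ⟨ht, rfl⟩), key2 (x' 1) (Or.inl ⟨ht, rfl⟩), hf]
  · rw [key1 (x' 1) (Or.inr ⟨ht, rfl⟩), key2 (x' 3) (Or.inr ⟨ht, rfl⟩), hf]

theorem exists_oct {L : Set (Fin n)} {x x' : Fin 4 → Fin n} (hx : Function.Injective x)
    (hx' : Function.Injective x') (hne : ∀ i j, x i ≠ x' j) (hm : ∀ i, x i ∈ L)
    (hm' : ∀ i, x' i ∈ L) : ∃ π : Equiv.Perm (Fin n), Oct π L x x' := by
  have hne' : ∀ i j, x' i ≠ x j := fun i j => (hne j i).symm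
  refine ⟨Equiv.swap (x 0) (x' 0) * Equiv.swap (x 1) (x' 1) * Equiv.swap (x 2) (x' 2) *
    Equiv.swap (x 3) (x' 3), hx, hx', hne, ?_, ?_, ?_, hm, hm'⟩
  · intro i
    fin_cases i <;>
      simp [Equiv.Perm.mul_apply, Equiv.swap_apply_def, hx.eq_iff, hx'.eq_iff, hne, hne']
  · intro i
    fin_cases i <;>
      simp [Equiv.Perm.mul_apply, Equiv.swap_apply_def, hx.eq_iff, hx'.eq_iff, hne, hne']
  · intro j h1 h2
    simp [Equiv.Perm.mul_apply, Equiv.swap_apply_def, h1, h2]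

end Nbr

end Pool.Agent.OnePass
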