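import Pool.Agent.Lib.OnePass.Defs

namespace Pool.Agent.OnePass

open Finset

/-- A streaming algorithm for directed graphs on `Fin n` given by the adjacency matrix. At time
`t` it reads the row `row t`; between two readings its memory is an element of `σ`; the new
memory is an arbitrary function of the time, the old memory and the whole row. -/
structure Stream (n : ℕ) (σ : Type) where
  /-- memory at the beginning -/
  start : σ
  /-- the row read at time `t` -/
  row : ℕ → Fin n
  /-- memory after the reading at time `t` -/
  next : ℕ → σ → (Fin n → Bool) → σ
  /-- accepting final memories -/
  acc : σ → Prop
  /-- number of readings -/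
  time : ℕ

namespace Stream

variable {n : ℕ} {σ : Type} (M : Stream n σ)

/-- memory after `t` readings on the input `G` -/
def state (G : Fin n → Fin n → Bool) : ℕ → σ
  | 0 => M.start
  | t + 1 => M.next t (state G t) (G (M.row t))

/-- the input `G` is accepted -/
def Accepts (G : Fin n → Fin n → Bool) : Prop := M.acc (M.state G M.time)

/-- how often the row read first is read in total -/
def visits : ℕ := ((Finset.range M.time).filter (fun t => M.row t = M.row 0)).card

end Stream

end Pool.Agent.OnePass
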