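import Pool.Agent.Lib.OnePass.StreamMain

namespace Pool.Agent.OnePass

open Finset

namespace Stream

variable {n : ℕ} {σ : Type} (M : Stream n σ)

/-- times of the readings of the first row -/
abbrev V : Finset ℕ := (Finset.range M.time).filter (fun t => M.row t = M.row 0)

/-- transcripts -/
abbrev Tr : Type := ({t // t ∈ M.V} → σ) × ({t // t ∈ M.V.erase 0} → σ)

/-- memory after the reading at time `t`, according to the transcript -/
def exitOf (τ : M.Tr) (t : ℕ) : σ := by
  classical exact if h : t ∈ M.V then τ.1 ⟨t, h⟩ else M.start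

/-- memory before the reading at time `t`, according to the transcript -/
def enterOf (τ : M.Tr) (t : ℕ) : σ := by
  classical exact if h : t ∈ M.V.erase 0 then τ.2 ⟨t, h⟩ else M.start

/-- the run simulated without the first row -/
def bst (τ : M.Tr) (ρ : Fin n → Fin n → Bool) : ℕ → σ
  | 0 => M.start
  | t + 1 => if M.row t = M.row 0 then M.exitOf τ t else M.next t (bst τ ρ t) (ρ (M.row t))

/-- the transcript agrees with the content of the first row -/
def AP (τ : M.Tr) (w : Fin n → Bool) : Prop :=
  ∀ t ∈ M.V, M.next t (M.enterOf τ t) w = M.exitOf τ t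

/-- the transcript agrees with the other rows -/
def BC (τ : M.Tr) (ρ : Fin n → Fin n → Bool) : Prop :=
  ∀ t ∈ M.V.erase 0, M.bst τ ρ t = M.enterOf τ t

theorem exitOf_eq (τ : M.Tr) (t : {t // t ∈ M.V}) : M.exitOf τ t.1 = τ.1 t := by
  unfold exitOf; rw [dif_pos t.2]

theorem enterOf_eq (τ : M.Tr) (t : {t // t ∈ M.V.erase 0}) : M.enterOf τ t.1 = τ.2 t := by
  unfold enterOf; rw [dif_pos t.2]

theorem enterOf_zero (τ : M.Tr) : M.enterOf τ 0 = M.start := by
  unfold enterOf; rw [dif_neg (Finset.notMem_erase 0 _)]

theorem run_eq (τ : M.Tr) (ρ : Fin n → Fin n → Bool) (w : Fin n → Bool) (hA : M.AP τ w)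
    (hB : M.BC τ ρ) : ∀ t ≤ M.time,
      M.state (Function.update ρ (M.row 0) w) t = M.bst τ ρ t := by
  intro t
  induction t with
  | zero => intro _; rfl
  | succ t ih =>
    intro ht
    have e := ih (by omega)
    show M.next t (M.state (Function.update ρ (M.row 0) w) t)
      (Function.update ρ (M.row 0) w (M.row t)) = if M.row t = M.row 0 then M.exitOf τ t
        else M.next t (M.bst τ ρ t) (ρ (M.row t))
    rw [e]
    by_cases h : M.row t = M.row 0
    · have htV : t ∈ M.V := Finset.mem_filter.mpr ⟨Finset.mem_range.mpr (by omega), h⟩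
      rw [if_pos h, h, Function.update_self, ← hA t htV]
      congr 1
      by_cases h0 : t = 0
      · subst h0; rw [M.enterOf_zero]; rfl
      · exact hB t (Finset.mem_erase.mpr ⟨h0, htV⟩)
    · rw [if_neg h, Function.update_of_ne h]

theorem uniq (ρ : Fin n → Fin n → Bool) (w : Fin n → Bool) (τ τ' : M.Tr) (hA : M.AP τ w)
    (hB : M.BC τ ρ) (hA' : M.AP τ' w) (hB' : M.BC τ' ρ) : τ = τ' := by
  have h1 := M.run_eq τ ρ w hA hB
  have h2 := M.run_eq τ' ρ w hA' hB'
  have hb : ∀ t ≤ M.time, M.bst τ ρ t = M.bst τ' ρ t := fun t ht => by rw [← h1 t ht, h2 t ht]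
  apply Prod.ext
  · funext t
    have htV := Finset.mem_filter.mp t.2
    have ht := Finset.mem_range.mp htV.1
    have h3 := hb (t.1 + 1) (by omega)
    have h4 : ∀ τ : M.Tr, M.bst τ ρ (t.1 + 1) = τ.1 t := by
      intro τ
      show (if M.row t.1 = M.row 0 then M.exitOf τ t.1 else _) = _
      rw [if_pos htV.2, M.exitOf_eq]
    rw [h4, h4] at h3
    exact h3
  · funext t
    have ht := Finset.mem_range.mp (Finset.mem_filter.mp (Finset.mem_erase.mp t.2).2).1
    have h3 := hb t.1 (by omega)
    rw [hB t.1 t.2, hB' t.1 t.2, M.enterOf_eq, M.enterOf_eq] at h3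
    exact h3

theorem exists_tr (ρ : Fin n → Fin n → Bool) (w : Fin n → Bool) :
    ∃ τ : M.Tr, M.AP τ w ∧ M.BC τ ρ := by
  obtain ⟨G, hG⟩ : ∃ G, G = Function.update ρ (M.row 0) w := ⟨_, rfl⟩
  let τ : M.Tr := (fun t => M.state G (t.1 + 1), fun t => M.state G t.1)
  have hexit : ∀ t ∈ M.V, M.exitOf τ t = M.state G (t + 1) := fun t ht => M.exitOf_eq τ ⟨t, ht⟩
  have henter : ∀ t ∈ M.V, M.enterOf τ t = M.state G t := by
    intro t ht
    by_cases h0 : t = 0
    · subst h0; rw [M.enterOf_zero]; rfl
    · exact M.enterOf_eq τ ⟨t, Finset.mem_erase.mpr ⟨h0, ht⟩⟩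
  have hb : ∀ t ≤ M.time, M.bst τ ρ t = M.state G t := by
    intro t
    induction t with
    | zero => intro _; rfl
    | succ t ih =>
      intro ht
      show (if M.row t = M.row 0 then M.exitOf τ t else M.next t (M.bst τ ρ t) (ρ (M.row t))) = _
      by_cases h : M.row t = M.row 0
      · have htV : t ∈ M.V := Finset.mem_filter.mpr ⟨Finset.mem_range.mpr (by omega), h⟩
        rw [if_pos h, hexit t htV]
      · rw [if_neg h, ih (by omega)]
        show M.next t (M.state G t) (ρ (M.row t)) = M.next t (M.state G t) (G (M.row t))
        rw [hG, Function.update_of_ne h]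
  refine ⟨τ, ?_, ?_⟩
  · intro t ht
    rw [henter t ht, hexit t ht]
    show M.next t (M.state G t) w = M.next t (M.state G t) (G (M.row t))
    rw [(Finset.mem_filter.mp ht).2, hG, Function.update_self]
  · intro t ht
    have htV := (Finset.mem_erase.mp ht).2
    have := Finset.mem_range.mp (Finset.mem_filter.mp htV).1
    rw [hb t (by omega), henter t htV]

/-- exchanging a one and a zero outside the diagonal in the first row -/
theorem swap_first [Fintype σ] {s v : ℕ} (hσ : Fintype.card σ ≤ s) (hv : M.visits ≤ v)
    (hn : 2 * s ^ (2 * v - 1) ≤ n) (ht : 1 ≤ M.time) (hI : Invariant M.Accepts)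
    (G : Fin n → Fin n → Bool) (x y : Fin n) (hx : x ≠ M.row 0) (hy : y ≠ M.row 0)
    (hGx : G (M.row 0) x = true) (hGy : G (M.row 0) y = false) :
    M.Accepts (Function.update G (M.row 0) (fun j => G (M.row 0) (Equiv.swap x y j)))
      ↔ M.Accepts G := by
  classical
  obtain ⟨α, hα⟩ : ∃ α, α = M.row 0 := ⟨_, rfl⟩
  rw [← hα] at hx hy hGx hGy ⊢
  have hs1 : 1 ≤ s := by
    have : 0 < Fintype.card σ := Fintype.card_pos_iff.mpr ⟨M.start⟩
    omega
  have hxy : x ≠ y := fun h => by rw [h, hGy] at hGx; exact Bool.noConfusion hGx
  have h0V : 0 ∈ M.V := Finset.mem_filter.mpr ⟨Finset.mem_range.mpr (by omega), rfl⟩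
  have hVv : M.V.card ≤ v := hv
  have hV1 : 1 ≤ M.V.card := Finset.card_pos.mpr ⟨0, h0V⟩
  have hcard : Fintype.card M.Tr ≤ s ^ (2 * v - 1) := by
    show Fintype.card (({t // t ∈ M.V} → σ) × ({t // t ∈ M.V.erase 0} → σ)) ≤ _
    rw [Fintype.card_prod, Fintype.card_fun, Fintype.card_fun, Fintype.card_coe,
      Fintype.card_coe, Finset.card_erase_of_mem h0V, ← pow_add]
    exact (Nat.pow_le_pow_left hσ _).trans (Nat.pow_le_pow_right hs1 (by omega))
  have hAB : ∀ ρ w, M.Accepts (Function.update ρ α w) ↔
      ∃ τ : M.Tr, M.AP τ w ∧ (M.BC τ ρ ∧ M.acc (M.bst τ ρ M.time)) := by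
    intro ρ w
    rw [hα]
    constructor
    · intro h
      obtain ⟨τ, h1, h2⟩ := M.exists_tr ρ w
      refine ⟨τ, h1, h2, ?_⟩
      rw [← M.run_eq τ ρ w h1 h2 M.time le_rfl]; exact h
    · rintro ⟨τ, h1, h2, h3⟩
      rw [← M.run_eq τ ρ w h1 h2 M.time le_rfl] at h3; exact h3
  have huniq : ∀ ρ w (τ τ' : M.Tr), M.AP τ w → (M.BC τ ρ ∧ M.acc (M.bst τ ρ M.time)) →
      M.AP τ' w → (M.BC τ' ρ ∧ M.acc (M.bst τ' ρ M.time)) → τ = τ' :=
    fun ρ w τ τ' h1 h2 h3 h4 => M.uniq ρ w τ τ' h1 h2.1 h3 h4.1
  -- general step
  have step : ∀ (Z : Finset (Fin n)) (b : Bool) (p q : Fin n), α ∉ Z → s ^ (2 * v - 1) < Z.card →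
      p ∈ Z → q ∈ Z →
      (M.Accepts (Function.update G α (fun j => if j = p then b else if j ∈ Z then !b else G α j))
        ↔ M.Accepts (Function.update G α
          (fun j => if j = q then b else if j ∈ Z then !b else G α j))) := by
    intro Z b p q hαZ hZ hp hq
    have half : ∀ p q, p ∈ Z → q ∈ Z →
        M.Accepts (Function.update G α (fun j => if j = p then b else if j ∈ Z then !b else G α j))
        → M.Accepts (Function.update G α
          (fun j => if j = q then b else if j ∈ Z then !b else G α j)) := by
      intro p q hp hq h1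
      by_contra h2
      exact core M.Accepts α (fun π _ G => hI π G) M.AP (fun τ ρ => M.BC τ ρ ∧ M.acc (M.bst τ ρ M.time)) hAB huniq
        Z hαZ (hcard.trans_lt hZ) b G
        (fun z j => if j = z then b else if j ∈ Z then !b else G α j) (fun _ _ => rfl)
        p q hp hq h1 h2
    exact ⟨half p q hp hq, half q p hq hp⟩
  -- zeros and ones outside the diagonal
  let Z0 : Finset (Fin n) := univ.filter (fun j => j ≠ α ∧ G α j = false)
  let Z1 : Finset (Fin n) := univ.filter (fun j => j ≠ α ∧ G α j = true)
  have hsum : Z0.card + Z1.card = n - 1 := by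
    have h1 : Z0 ∪ Z1 = univ.erase α := by
      ext j
      simp only [Z0, Z1, Finset.mem_union, Finset.mem_filter, Finset.mem_univ, true_and,
        Finset.mem_erase, and_true]
      cases G α j <;> simp
    have h2 : Disjoint Z0 Z1 := by
      rw [Finset.disjoint_left]
      intro j h3 h4
      simp only [Z0, Z1, Finset.mem_filter] at h3 h4
      rw [h3.2.2] at h4
      exact Bool.noConfusion h4.2.2
    rw [← Finset.card_union_of_disjoint h2, h1, Finset.card_erase_of_mem (Finset.mem_univ _),
      Finset.card_univ, Fintype.card_fin]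
  have hn1 : 1 ≤ n := by
    have := α.2; omega
  have hxZ0 : x ∉ Z0 := by simp [Z0, hGx]
  have hyZ1 : y ∉ Z1 := by simp [Z1, hGy]
  have hyZ0 : y ∈ Z0 := by simp [Z0, hy, hGy]
  have hxZ1 : x ∈ Z1 := by simp [Z1, hx, hGx]
  have hswap : ∀ j, G α (Equiv.swap x y j) = if j = x then false else if j = y then true
      else G α j := by
    intro j
    rw [Equiv.swap_apply_def]
    split_ifs with h1 h2
    · exact hGy
    · exact hGx
    · rfl
  have hfun : (fun j => G α (Equiv.swap x y j)) = fun j => if j = x then false
      else if j = y then true else G α j := funext hswap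
  rw [hfun]
  have hupd : Function.update G α (G α) = G := Function.update_eq_self _ _
  by_cases hcase : s ^ (2 * v - 1) < Z0.card + 1
  · have hc : (insert x Z0).card = Z0.card + 1 := Finset.card_insert_of_notMem hxZ0
    have h := step (insert x Z0) true y x (by simp [Z0, Ne.symm hx]) (by rw [hc]; exact hcase)
      (Finset.mem_insert_of_mem hyZ0) (Finset.mem_insert_self _ _)
    have e1 : (fun j => if j = y then true else if j ∈ insert x Z0 then !true else G α j)
        = (fun j => if j = x then false else if j = y then true else G α j) := by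
      funext j
      by_cases h1 : j = y
      · subst h1; rw [if_pos rfl, if_neg hxy.symm, if_pos rfl]
      · rw [if_neg h1]
        by_cases h2 : j = x
        · subst h2; rw [if_pos rfl, if_pos (Finset.mem_insert_self _ _)]; rfl
        · rw [if_neg h2, if_neg h1]
          by_cases h3 : j ∈ Z0
          · rw [if_pos (Finset.mem_insert_of_mem h3)]
            exact (Finset.mem_filter.mp h3).2.2.symm
          · rw [if_neg (by rw [Finset.mem_insert, not_or]; exact ⟨h2, h3⟩)]
    have e2 : (fun j => if j = x then true else if j ∈ insert x Z0 then !true else G α j)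
        = G α := by
      funext j
      by_cases h2 : j = x
      · subst h2; rw [if_pos rfl, hGx]
      · rw [if_neg h2]
        by_cases h3 : j ∈ Z0
        · rw [if_pos (Finset.mem_insert_of_mem h3)]
          exact (Finset.mem_filter.mp h3).2.2.symm
        · rw [if_neg (by rw [Finset.mem_insert, not_or]; exact ⟨h2, h3⟩)]
    rw [e1, e2, hupd] at h
    exact h
  · have hc : (insert y Z1).card = Z1.card + 1 := Finset.card_insert_of_notMem hyZ1
    have h := step (insert y Z1) false x y (by simp [Z1, Ne.symm hy]) (by rw [hc]; omega)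
      (Finset.mem_insert_of_mem hxZ1) (Finset.mem_insert_self _ _)
    have e1 : (fun j => if j = x then false else if j ∈ insert y Z1 then !false else G α j)
        = (fun j => if j = x then false else if j = y then true else G α j) := by
      funext j
      by_cases h1 : j = x
      · rw [if_pos h1, if_pos h1]
      · rw [if_neg h1, if_neg h1]
        by_cases h2 : j = y
        · subst h2; rw [if_pos (Finset.mem_insert_self _ _), if_pos rfl]; rfl
        · rw [if_neg h2]
          by_cases h3 : j ∈ Z1
          · rw [if_pos (Finset.mem_insert_of_mem h3)]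
            exact (Finset.mem_filter.mp h3).2.2.symm
          · rw [if_neg (by rw [Finset.mem_insert, not_or]; exact ⟨h2, h3⟩)]
    have e2 : (fun j => if j = y then false else if j ∈ insert y Z1 then !false else G α j)
        = G α := by
      funext j
      by_cases h2 : j = y
      · subst h2; rw [if_pos rfl, hGy]
      · rw [if_neg h2]
        by_cases h3 : j ∈ Z1
        · rw [if_pos (Finset.mem_insert_of_mem h3)]
          exact (Finset.mem_filter.mp h3).2.2.symm
        · rw [if_neg (by rw [Finset.mem_insert, not_or]; exact ⟨h2, h3⟩)]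
    rw [e1, e2, hupd] at h
    exact h

/-- exchanging a one and a zero outside the diagonal in any row -/
theorem swap_any [Fintype σ] {s v : ℕ} (hσ : Fintype.card σ ≤ s) (hv : M.visits ≤ v)
    (hn : 2 * s ^ (2 * v - 1) ≤ n) (ht : 1 ≤ M.time) (hI : Invariant M.Accepts)
    (G : Fin n → Fin n → Bool) (a x y : Fin n) (hx : x ≠ a) (hy : y ≠ a)
    (hGx : G a x = true) (hGy : G a y = false) :
    M.Accepts (Function.update G a (fun j => G a (Equiv.swap x y j))) ↔ M.Accepts G := by
  let θ : Equiv.Perm (Fin n) := Equiv.swap (M.row 0) a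
  have hθα : θ (M.row 0) = a := Equiv.swap_apply_left _ _
  have hθθ : ∀ j, θ (θ j) = j := Equiv.swap_apply_self _ _
  have hθne : ∀ z, z ≠ a → θ z ≠ M.row 0 := by
    intro z hz h
    apply hz
    rw [← hθα, ← h, hθθ]
  have h := M.swap_first hσ hv hn ht hI (fun i j => G (θ i) (θ j)) (θ x) (θ y)
    (hθne x hx) (hθne y hy) (by simp only [hθα, hθθ]; exact hGx)
    (by simp only [hθα, hθθ]; exact hGy)
  rw [hI θ G] at h
  rw [← h, ← hI θ (Function.update G a (fun j => G a (Equiv.swap x y j)))]
  have e : (fun i j => Function.update G a (fun j => G a (Equiv.swap x y j)) (θ i) (θ j))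
      = Function.update (fun i j => G (θ i) (θ j)) (M.row 0)
        (fun j => (fun i j => G (θ i) (θ j)) (M.row 0) (Equiv.swap (θ x) (θ y) j)) := by
    funext i j
    by_cases hi : i = M.row 0
    · subst hi
      rw [Function.update_self, hθα, Function.update_self]
      have : θ (Equiv.swap (θ x) (θ y) j) = Equiv.swap x y (θ j) := by
        rw [Equiv.swap_apply_apply]
        simp only [Equiv.Perm.mul_apply, hθθ]
        have : θ⁻¹ j = θ j := by rw [Equiv.Perm.inv_eq_iff_eq, hθθ]
        rw [this]
      simp only [hθα, this]
    · have hi' : θ i ≠ a := by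
        intro h
        apply hi
        rw [← hθθ i, h, ← hθα, hθθ]
      rw [Function.update_of_ne hi, Function.update_of_ne hi']
  rw [e]

/-- changing one row without changing the diagonal entry and the number of ones -/
theorem row_change [Fintype σ] {s v : ℕ} (hσ : Fintype.card σ ≤ s) (hv : M.visits ≤ v)
    (hn : 2 * s ^ (2 * v - 1) ≤ n) (ht : 1 ≤ M.time) (hI : Invariant M.Accepts) (a : Fin n)
    (f : Fin n → Bool) : ∀ (d : ℕ) (G : Fin n → Fin n → Bool),
      (univ.filter (fun j => G a j ≠ f j)).card = d → f a = G a a → ones f = ones (G a) →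
      (M.Accepts (Function.update G a f) ↔ M.Accepts G) := by
  classical
  intro d
  induction d using Nat.strong_induction_on with
  | _ d ih =>
    intro G hd hfa hones
    by_cases hGf : G a = f
    · rw [← hGf, Function.update_eq_self]
    -- a one of G a which is a zero of f, and conversely
    have h1 : (univ.filter (fun j => G a j = true ∧ f j = false)).card
        = (univ.filter (fun j => G a j = false ∧ f j = true)).card := by
      have h2 : ones f = (univ.filter (fun j => G a j = true ∧ f j = true)).card
          + (univ.filter (fun j => G a j = false ∧ f j = true)).card := by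
        unfold ones
        rw [← Finset.card_union_of_disjoint]
        · congr 1
          ext j
          simp only [Finset.mem_union, Finset.mem_filter, Finset.mem_univ, true_and]
          cases G a j <;> simp
        · rw [Finset.disjoint_left]
          intro j h3 h4
          rw [Finset.mem_filter] at h3 h4
          rw [h3.2.1] at h4
          exact Bool.noConfusion h4.2.1
      have h3 : ones (G a) = (univ.filter (fun j => G a j = true ∧ f j = true)).card
          + (univ.filter (fun j => G a j = true ∧ f j = false)).card := by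
        unfold ones
        rw [← Finset.card_union_of_disjoint]
        · congr 1
          ext j
          simp only [Finset.mem_union, Finset.mem_filter, Finset.mem_univ, true_and]
          cases f j <;> simp
        · rw [Finset.disjoint_left]
          intro j h3 h4
          rw [Finset.mem_filter] at h3 h4
          rw [h3.2.2] at h4
          exact Bool.noConfusion h4.2.2
      omega
    have hne : ∃ j, G a j ≠ f j := by
      by_contra hcon
      push Not at hcon
      exact hGf (funext hcon)
    obtain ⟨x, hx⟩ : ∃ x, G a x = true ∧ f x = false := by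
      obtain ⟨j, hj⟩ := hne
      by_contra hcon
      have h2 : (univ.filter (fun j => G a j = true ∧ f j = false)) = ∅ := by
        rw [Finset.filter_eq_empty_iff]
        intro z _ hz
        exact hcon ⟨z, hz⟩
      rw [h2, Finset.card_empty] at h1
      have h3 := Finset.card_eq_zero.mp h1.symm
      rw [Finset.filter_eq_empty_iff] at h3
      have h4 := h3 (Finset.mem_univ j)
      revert hj h4
      have h5 : ¬ (G a j = true ∧ f j = false) := fun h => hcon ⟨j, h⟩
      revert h5
      cases G a j <;> cases f j <;> simp
    obtain ⟨y, hy⟩ : ∃ y, G a y = false ∧ f y = true := by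
      by_contra hcon
      have h2 : (univ.filter (fun j => G a j = false ∧ f j = true)) = ∅ := by
        rw [Finset.filter_eq_empty_iff]
        intro z _ hz
        exact hcon ⟨z, hz⟩
      rw [h2, Finset.card_empty] at h1
      have h3 := Finset.card_eq_zero.mp h1
      rw [Finset.filter_eq_empty_iff] at h3
      exact h3 (Finset.mem_univ x) hx
    have hxa : x ≠ a := fun h => by
      rw [h, hfa] at hx; rw [hx.1] at hx; exact Bool.noConfusion hx.2
    have hya : y ≠ a := fun h => by
      rw [h, hfa] at hy; rw [hy.1] at hy; exact Bool.noConfusion hy.2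
    have hxy : x ≠ y := fun h => by rw [h, hy.1] at hx; exact Bool.noConfusion hx.1
    let g : Fin n → Bool := fun j => G a (Equiv.swap x y j)
    have hg : ∀ j, g j = if j = x then false else if j = y then true else G a j := by
      intro j
      show G a (Equiv.swap x y j) = _
      rw [Equiv.swap_apply_def]
      split_ifs with h1 h2
      · exact hy.1
      · exact hx.1
      · rfl
    have hG1 := M.swap_any hσ hv hn ht hI G a x y hxa hya hx.1 hy.1
    have hlt : (univ.filter (fun j => Function.update G a g a j ≠ f j)).card < d := by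
      rw [← hd]
      apply Finset.card_lt_card
      rw [Finset.ssubset_iff_of_subset]
      · refine ⟨x, ?_, ?_⟩
        · rw [Finset.mem_filter]
          exact ⟨Finset.mem_univ _, by rw [hx.1, hx.2]; simp⟩
        · rw [Finset.mem_filter, Function.update_self, hg, if_pos rfl, hx.2]
          simp
      · intro j hj
        rw [Finset.mem_filter, Function.update_self, hg] at hj
        rw [Finset.mem_filter]
        refine ⟨Finset.mem_univ _, ?_⟩
        have h2 := hj.2
        by_cases h3 : j = x
        · rw [h3, hx.1, hx.2]; simp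
        · rw [if_neg h3] at h2
          by_cases h4 : j = y
          · rw [h4, hy.1, hy.2]; simp
          · rw [if_neg h4] at h2; exact h2
    have h3 := ih _ hlt (Function.update G a g) rfl
      (by rw [Function.update_self, hg, if_neg hxa.symm, if_neg hya.symm]; exact hfa)
      (by
        rw [Function.update_self, hones]
        unfold ones
        symm
        exact Finset.card_bij (fun j _ => Equiv.swap x y j)
          (by intro j hj; simpa [g] using hj)
          (by intro p _ q _ h; exact (Equiv.swap x y).injective h)
          (by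
            intro q hq
            exact ⟨Equiv.swap x y q, by simpa [g] using hq, by simp⟩))
    rw [Function.update_idem] at h3
    rw [h3]; exact hG1

theorem rows_one_by_one [Fintype σ] {s v : ℕ} (hσ : Fintype.card σ ≤ s) (hv : M.visits ≤ v)
    (hn : 2 * s ^ (2 * v - 1) ≤ n) (ht : 1 ≤ M.time) (hI : Invariant M.Accepts)
    (G G' : Fin n → Fin n → Bool)
    (h : ∀ i, G i i = G' i i ∧ ones (G i) = ones (G' i)) (A : Finset (Fin n)) :
    M.Accepts (fun i => if i ∈ A then G' i else G i) ↔ M.Accepts G := by
  classical
  induction A using Finset.induction_on with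
  | empty => simp
  | insert a A ha ih =>
    rw [← ih]
    have h1 := M.row_change hσ hv hn ht hI a (G' a) _
      (fun i => if i ∈ A then G' i else G i) rfl (by rw [if_neg ha]; exact (h a).1.symm)
      (by rw [if_neg ha]; exact (h a).2.symm)
    rw [← h1]
    have : (fun i => if i ∈ insert a A then G' i else G i)
        = Function.update (fun i => if i ∈ A then G' i else G i) a (G' a) := by
      funext i
      by_cases hi : i = a
      · subst hi
        rw [Function.update_self, if_pos (Finset.mem_insert_self _ _)]
      · rw [Function.update_of_ne hi]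
        simp only [Finset.mem_insert, hi, false_or]
    rw [this]

theorem main [Fintype σ] {s v : ℕ} (hσ : Fintype.card σ ≤ s) (hv : M.visits ≤ v)
    (hn : 2 * s ^ (2 * v - 1) ≤ n) (hI : Invariant M.Accepts)
    (G G' : Fin n → Fin n → Bool) (h : loopDegrees G = loopDegrees G') :
    M.Accepts G ↔ M.Accepts G' := by
  classical
  rcases Nat.eq_zero_or_pos M.time with ht | ht
  · unfold Accepts; rw [ht]; exact Iff.rfl
  obtain ⟨e, he⟩ := exists_perm_of_count (fun i => (G i i, ones (G i)))
    (fun i => (G' i i, ones (G' i))) h
  have h1 := M.rows_one_by_one hσ hv hn ht hI G (fun i j => G' (e i) (e j)) (by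
    intro i
    have h2 := he i
    rw [Prod.mk.injEq] at h2
    refine ⟨h2.1.symm, ?_⟩
    rw [← h2.2]
    unfold ones
    symm
    exact Finset.card_bij (fun j _ => e j) (by intro a ha; simpa using ha)
      (by intro a _ b _ h; exact e.injective h)
      (by intro b hb; exact ⟨e.symm b, by simpa using hb, by simp⟩)) univ
  simp only [Finset.mem_univ, if_true] at h1
  rw [← h1, hI e G']

end Stream

end Pool.Agent.OnePass
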