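import Pool.Agent.Lib.OnePass.StreamDefs
import Pool.Agent.Lib.OnePass.Final

namespace Pool.Agent.OnePass

open Finset

theorem relation {ι T : Type} [Fintype ι] [Fintype T] (h : Fintype.card T < Fintype.card ι)
    (a : T → ι → ℚ) : ∃ u : ι → ℚ, u ≠ 0 ∧ ∀ t, ∑ i, u i * a t i = 0 := by
  classical
  let f : (ι → ℚ) →ₗ[ℚ] (T → ℚ) := Matrix.mulVecLin (Matrix.of a)
  have hf : LinearMap.ker f ≠ ⊥ := by
    apply LinearMap.ker_ne_bot_of_finrank_lt
    rw [Module.finrank_fintype_fun_eq_card, Module.finrank_fintype_fun_eq_card]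
    exact h
  obtain ⟨u, hu, hu0⟩ := Submodule.exists_mem_ne_zero_of_ne_bot hf
  refine ⟨u, hu0, fun t => ?_⟩
  have := congrFun (LinearMap.mem_ker.mp hu) t
  simp only [f, Matrix.mulVecLin_apply, Matrix.mulVec, dotProduct, Matrix.of_apply,
    Pi.zero_apply] at this
  rw [← this]
  exact Finset.sum_congr rfl (fun i _ => mul_comm _ _)

/-- **Core.** If the row `α` is compressed to fewer than `|Z|` values, then the answer does not
depend on which element of `Z` is the exceptional one in the row `α`. -/
theorem core {n : ℕ} (P : (Fin n → Fin n → Bool) → Prop) (α : Fin n)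
    (hI : ∀ π : Equiv.Perm (Fin n), π α = α → ∀ G : Fin n → Fin n → Bool,
      P (fun i j => G (π i) (π j)) ↔ P G)
    {T : Type} [Fintype T] (A : T → (Fin n → Bool) → Prop)
    (B : T → (Fin n → Fin n → Bool) → Prop)
    (hAB : ∀ ρ w, P (Function.update ρ α w) ↔ ∃ τ, A τ w ∧ B τ ρ)
    (huniq : ∀ ρ w τ τ', A τ w → B τ ρ → A τ' w → B τ' ρ → τ = τ')
    (Z : Finset (Fin n)) (hα : α ∉ Z) (hZ : Fintype.card T < Z.card) (b : Bool)
    (G : Fin n → Fin n → Bool) (W : Fin n → Fin n → Bool)
    (hW : ∀ z j, W z j = if j = z then b else if j ∈ Z then !b else G α j)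
    (x y : Fin n) (hx : x ∈ Z) (hy : y ∈ Z) (hPx : P (Function.update G α (W x)))
    (hPy : ¬ P (Function.update G α (W y))) : False := by
  classical
  let T0 : Finset (Fin n) := Z.filter (fun z => P (Function.update G α (W z)))
  have hxT : x ∈ T0 := Finset.mem_filter.mpr ⟨hx, hPx⟩
  have hyT : y ∉ T0 := fun h => hPy (Finset.mem_filter.mp h).2
  have hxy : x ≠ y := fun h => hPy (h ▸ hPx)
  -- the relation
  obtain ⟨u, hu0, hu⟩ := relation (ι := Fin n) (T := T ⊕ {c : Fin n // c ∉ Z}) (by
      rw [Fintype.card_sum, Fintype.card_fin, Fintype.card_subtype]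
      have h1 : (univ.filter (fun c : Fin n => c ∉ Z)).card = n - Z.card := by
        have : (univ.filter (fun c : Fin n => c ∉ Z)) = Zᶜ := by ext c; simp
        rw [this, Finset.card_compl, Fintype.card_fin]
      have h2 : Z.card ≤ n := (Finset.card_le_univ Z).trans (by rw [Fintype.card_fin])
      omega)
    (fun t c => match t with
      | Sum.inl τ => if c ∈ Z ∧ A τ (W c) then 1 else 0
      | Sum.inr z => if c = z.1 then 1 else 0)
  have huZ : ∀ c, c ∉ Z → u c = 0 := by
    intro c hc
    have := hu (Sum.inr ⟨c, hc⟩)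
    simpa using this
  have huA : ∀ τ, ∑ c, u c * (if c ∈ Z ∧ A τ (W c) then 1 else 0) = 0 := fun τ => hu (Sum.inl τ)
  -- transport
  have trans : ∀ π : Equiv.Perm (Fin n), (∀ j, j ∉ Z → π j = j) → ∀ z,
      (P (Function.update (fun i j => G (π.symm i) (π.symm j)) α (W (π z)))
        ↔ P (Function.update G α (W z))) := by
    intro π hπ z
    have hπs : ∀ j, j ∉ Z → π.symm j = j := fun j hj => by
      rw [Equiv.symm_apply_eq, hπ j hj]
    rw [← hI π.symm (hπs α hα) (Function.update G α (W z))]
    have hπZ : ∀ j, j ∈ Z → π.symm j ∈ Z := by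
      intro j hj
      by_contra hcon
      have := hπ _ hcon
      rw [Equiv.apply_symm_apply] at this
      exact hcon (this ▸ hj)
    have e : Function.update (fun i j => G (π.symm i) (π.symm j)) α (W (π z))
        = fun i j => Function.update G α (W z) (π.symm i) (π.symm j) := by
      funext i j
      by_cases hi : i = α
      · subst hi
        rw [Function.update_self, hπs i hα, Function.update_self, hW, hW]
        by_cases hj : j = π z
        · subst hj
          rw [if_pos rfl, Equiv.symm_apply_apply, if_pos rfl]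
        · have hj' : π.symm j ≠ z := fun h => hj (by rw [← h, Equiv.apply_symm_apply])
          rw [if_neg hj, if_neg hj']
          by_cases hjZ : j ∈ Z
          · rw [if_pos hjZ, if_pos (hπZ j hjZ)]
          · rw [if_neg hjZ, hπs j hjZ, if_neg hjZ]
      · have hi' : π.symm i ≠ α := by
          intro h
          apply hi
          rw [← hπ α hα, ← h, Equiv.apply_symm_apply]
        rw [Function.update_of_ne hi, Function.update_of_ne hi']
    rw [e]
  have E : ∀ π : Equiv.Perm (Fin n), (∀ j, j ∉ Z → π j = j) → ∑ d ∈ T0, u (π d) = 0 := by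
    intro π hπ
    have hπZ : ∀ j, j ∈ Z → π j ∈ Z := by
      intro j hj
      by_contra hcon
      have h1 := hπ _ hcon
      have h2 := π.injective h1
      exact hcon (by rw [h2]; exact hj)
    let ρ : Fin n → Fin n → Bool := fun i j => G (π.symm i) (π.symm j)
    have h1 : ∀ c ∈ Z, (if P (Function.update ρ α (W c)) then (1 : ℚ) else 0)
        = ∑ τ, (if c ∈ Z ∧ A τ (W c) then 1 else 0) * (if B τ ρ then 1 else 0) := by
      intro c hc
      by_cases hP : P (Function.update ρ α (W c))
      · obtain ⟨τ, h1, h2⟩ := (hAB ρ (W c)).mp hP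
        rw [if_pos hP, Finset.sum_eq_single τ]
        · rw [if_pos ⟨hc, h1⟩, if_pos h2, mul_one]
        · intro τ' _ hne
          by_cases h3 : A τ' (W c)
          · by_cases h4 : B τ' ρ
            · exact absurd (huniq ρ (W c) τ' τ h3 h4 h1 h2) hne
            · rw [if_neg h4, mul_zero]
          · rw [if_neg (fun h => h3 h.2), zero_mul]
        · intro h; exact absurd (Finset.mem_univ _) h
      · rw [if_neg hP]
        symm
        apply Finset.sum_eq_zero
        intro τ _
        by_cases h3 : A τ (W c)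
        · by_cases h4 : B τ ρ
          · exact absurd ((hAB ρ (W c)).mpr ⟨τ, h3, h4⟩) hP
          · rw [if_neg h4, mul_zero]
        · rw [if_neg (fun h => h3 h.2), zero_mul]
    have h2 : ∑ c, u c * (if c ∈ Z ∧ P (Function.update ρ α (W c)) then (1 : ℚ) else 0) = 0 := by
      have h3 : ∀ c, u c * (if c ∈ Z ∧ P (Function.update ρ α (W c)) then (1 : ℚ) else 0)
          = ∑ τ, (u c * (if c ∈ Z ∧ A τ (W c) then 1 else 0)) * (if B τ ρ then 1 else 0) := by
        intro c
        by_cases hc : c ∈ Z
        · have h4 := h1 c hc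
          simp only [hc, true_and] at h4 ⊢
          rw [h4, Finset.mul_sum]
          exact Finset.sum_congr rfl (fun τ _ => (mul_assoc _ _ _).symm)
        · rw [huZ c hc]; simp
      rw [Finset.sum_congr rfl (fun c _ => h3 c), Finset.sum_comm]
      apply Finset.sum_eq_zero
      intro τ _
      rw [← Finset.sum_mul, huA τ, zero_mul]
    rw [← Equiv.sum_comp π] at h2
    rw [← h2, ← Finset.sum_filter_add_sum_filter_not univ (fun d => d ∈ T0)]
    have h5 : ∑ d ∈ univ.filter (fun d => d ∉ T0), u (π d) *
        (if π d ∈ Z ∧ P (Function.update ρ α (W (π d))) then (1 : ℚ) else 0) = 0 := by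
      apply Finset.sum_eq_zero
      intro d hd
      rw [Finset.mem_filter] at hd
      by_cases hc : π d ∈ Z ∧ P (Function.update ρ α (W (π d)))
      · exfalso
        apply hd.2
        refine Finset.mem_filter.mpr ⟨?_, (trans π hπ d).mp hc.2⟩
        by_contra hcon
        have := hπ d hcon
        rw [this] at hc
        exact hcon hc.1
      · rw [if_neg hc, mul_zero]
    rw [h5, add_zero]
    have h6 : univ.filter (fun d => d ∈ T0) = T0 := by ext d; simp
    rw [h6]
    apply Finset.sum_congr rfl
    intro d hd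
    have h7 := Finset.mem_filter.mp hd
    rw [if_pos ⟨hπZ d h7.1, (trans π hπ d).mpr h7.2⟩, mul_one]
  have hconst : ∀ c ∈ Z, ∀ c' ∈ Z, u c = u c' := by
    intro c hc c' hc'
    by_cases hcc : c = c'
    · rw [hcc]
    let π0 : Equiv.Perm (Fin n) := Equiv.swap x c
    let y0 : Fin n := π0 y
    have hy0 : y0 ∈ Z := by
      show Equiv.swap x c y ∈ Z
      rw [Equiv.swap_apply_def]
      split_ifs
      · exact hc
      · exact hx
      · exact hy
    have hy0c : y0 ≠ c := by
      intro h
      have h1 : π0 x = c := Equiv.swap_apply_left _ _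
      exact hxy (π0.injective (by rw [h1]; exact h.symm))
    let π : Equiv.Perm (Fin n) := Equiv.swap y0 c' * π0
    have hπx : π x = c := by
      show Equiv.swap y0 c' (Equiv.swap x c x) = c
      rw [Equiv.swap_apply_left, Equiv.swap_apply_of_ne_of_ne hy0c.symm hcc]
    have hπy : π y = c' := by
      show Equiv.swap y0 c' (Equiv.swap x c y) = c'
      exact Equiv.swap_apply_left _ _
    have hfix : ∀ {p q : Fin n}, p ∈ Z → q ∈ Z → ∀ j, j ∉ Z → Equiv.swap p q j = j := by
      intro p q hp hq j hj
      exact Equiv.swap_apply_of_ne_of_ne (fun h => hj (h ▸ hp)) (fun h => hj (h ▸ hq))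
    have hπ : ∀ j, j ∉ Z → π j = j := by
      intro j hj
      show Equiv.swap y0 c' (Equiv.swap x c j) = j
      rw [hfix hx hc j hj, hfix hy0 hc' j hj]
    have h1 := E π hπ
    have h2 := E (Equiv.swap c c' * π) (by
      intro j hj
      show Equiv.swap c c' (π j) = j
      rw [hπ j hj, hfix hc hc' j hj])
    have h3 : ∑ d ∈ T0, (u (π d) - u ((Equiv.swap c c' * π) d)) = 0 := by
      rw [Finset.sum_sub_distrib, h1, h2, sub_zero]
    rw [Finset.sum_eq_single x] at h3
    · have h4 : (Equiv.swap c c' * π) x = c' := by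
        show Equiv.swap c c' (π x) = c'
        rw [hπx, Equiv.swap_apply_left]
      rw [hπx, h4] at h3
      exact sub_eq_zero.mp h3
    · intro d hd hdx
      have hd1 : π d ≠ c := fun h => hdx (π.injective (by rw [h, hπx]))
      have hd2 : π d ≠ c' := fun h => by
        have : d = y := π.injective (by rw [h, hπy])
        exact hyT (this ▸ hd)
      show u (π d) - u (Equiv.swap c c' (π d)) = 0
      rw [Equiv.swap_apply_of_ne_of_ne hd1 hd2, sub_self]
    · intro h; exact absurd hxT h
  have h1 := E 1 (fun j _ => rfl)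
  have h2 : ∀ d ∈ T0, u ((1 : Equiv.Perm (Fin n)) d) = u x := by
    intro d hd
    exact hconst d (Finset.mem_filter.mp hd).1 x hx
  rw [Finset.sum_congr rfl h2, Finset.sum_const, nsmul_eq_mul] at h1
  have h3 : (T0.card : ℚ) ≠ 0 := by
    have : 0 < T0.card := Finset.card_pos.mpr ⟨x, hxT⟩
    exact_mod_cast this.ne'
  have h4 : u x = 0 := by
    rcases mul_eq_zero.mp h1 with h | h
    · exact absurd h h3
    · exact h
  apply hu0
  funext c
  by_cases hc : c ∈ Z
  · rw [hconst c hc x hx, h4]; rfl
  · rw [huZ c hc]; rfl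

end Pool.Agent.OnePass
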