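import Pool.Agent.Lib.OnePass.RefereeDefs

namespace Pool.Agent.OnePass

open Classical in
/-- the strictly upper triangular half of the adjacency matrix of an undirected graph: the row `i`
contains the edges from `i` to the vertices `j > i` -/
noncomputable def upper {n : ℕ} (G : SimpleGraph (Fin n)) : Fin n → Fin n → Bool :=
  fun i j => decide (i < j ∧ G.Adj i j)

end Pool.Agent.OnePass
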