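import Pool.Agent.Lib.OnePass.Referee
import Pool.Agent.Lib.OnePass.UndirDefs

namespace Pool.Agent.OnePass

open Finset

/-- the undirected graph of a matrix, the row `α` being taken literally -/
def graphOf {n : ℕ} (α : Fin n) (ρ : Fin n → Fin n → Bool) : SimpleGraph (Fin n) where
  Adj i j := i ≠ j ∧ (if i = α then ρ α j = true else if j = α then ρ α i = true
    else (ρ i j = true ∨ ρ j i = true))
  symm := ⟨by
    intro i j h
    refine ⟨h.1.symm, ?_⟩
    have h2 := h.2
    by_cases hi : i = α
    · by_cases hj : j = α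
      · exact absurd (hi.trans hj.symm) h.1
      · rw [if_pos hi] at h2
        rw [if_neg hj, if_pos hi]; exact h2
    · by_cases hj : j = α
      · rw [if_neg hi, if_pos hj] at h2
        rw [if_pos hj]; exact h2
      · rw [if_neg hi, if_neg hj] at h2
        rw [if_neg hj, if_neg hi]; exact h2.symm⟩
  loopless := ⟨fun i h => h.1 rfl⟩

theorem graphOf_comap {n : ℕ} (α : Fin n) (ρ : Fin n → Fin n → Bool) (π : Equiv.Perm (Fin n))
    (hπ : π α = α) : graphOf α (fun i j => ρ (π i) (π j)) = (graphOf α ρ).comap π := by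
  have h1 : ∀ i, π i = α ↔ i = α := by
    intro i
    constructor
    · intro h; exact π.injective (h.trans hπ.symm)
    · intro h; rw [h, hπ]
  ext i j
  show (i ≠ j ∧ (if i = α then ρ (π α) (π j) = true else if j = α then ρ (π α) (π i) = true
    else (ρ (π i) (π j) = true ∨ ρ (π j) (π i) = true))) ↔
    (π i ≠ π j ∧ (if π i = α then ρ α (π j) = true else if π j = α then ρ α (π i) = true
    else (ρ (π i) (π j) = true ∨ ρ (π j) (π i) = true)))
  rw [π.injective.ne_iff, hπ]
  simp only [h1]

open Classical in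
theorem graphOf_adj {n : ℕ} (α : Fin n) (Γ : SimpleGraph (Fin n)) :
    graphOf α (fun i j => decide (Γ.Adj i j)) = Γ := by
  ext i j
  show (i ≠ j ∧ (if i = α then decide (Γ.Adj α j) = true else if j = α
    then decide (Γ.Adj α i) = true
    else (decide (Γ.Adj i j) = true ∨ decide (Γ.Adj j i) = true))) ↔ Γ.Adj i j
  simp only [decide_eq_true_eq]
  constructor
  · rintro ⟨_, h⟩
    split_ifs at h with h1 h2
    · rw [h1]; exact h
    · rw [h2]; exact h.symm
    · rcases h with h | h
      · exact h
      · exact h.symm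
  · intro h
    refine ⟨h.ne, ?_⟩
    split_ifs with h1 h2
    · rw [h1] at h; exact h
    · rw [h2] at h; exact h.symm
    · exact Or.inl h

theorem upper_graphOf {n : ℕ} (α : Fin n) (hα : α.1 = 0) (ρ : Fin n → Fin n → Bool)
    (w : Fin n → Bool) : upper (graphOf α (Function.update ρ α w))
      = Function.update (upper (graphOf α ρ)) α (fun j => !decide (j = α) && w j) := by
  classical
  funext i j
  have h0 : ∀ j : Fin n, α < j ↔ j ≠ α := by
    intro j
    rw [Fin.lt_def, hα]
    constructor
    · rintro h rfl; omega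
    · intro h
      apply Nat.pos_of_ne_zero
      intro h2
      exact h (Fin.ext (by rw [h2, hα]))
  by_cases hi : i = α
  · subst hi
    rw [Function.update_self]
    unfold upper graphOf
    by_cases hj : j = i
    · subst hj; simp
    · have : i < j := (h0 j).mpr hj
      simp [this, hj, Ne.symm hj]
  · rw [Function.update_of_ne hi]
    unfold upper graphOf
    by_cases hij : i < j
    · have hj : j ≠ α := by
        intro h
        rw [h, Fin.lt_def, hα] at hij
        omega
      simp [hi, hj]
    · simp [hij]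

/-- the split of a property of undirected graphs -/
def undirSplit {n : ℕ} {P : (Fin n → Fin n → Bool) → Prop} {α : Fin n} {T : Type}
    (S : Split P α T) (hα : α.1 = 0) : Split (fun ρ => P (upper (graphOf α ρ))) α T where
  A := fun τ w => S.A τ (fun j => !decide (j = α) && w j)
  B := fun τ ρ => S.B τ (upper (graphOf α ρ))
  hAB := by
    intro ρ w
    show P (upper (graphOf α (Function.update ρ α w))) ↔ _
    rw [upper_graphOf α hα, S.hAB]
  huniq := fun ρ w τ τ' h1 h2 h3 h4 => S.huniq _ _ τ τ' h1 h2 h3 h4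

/-- the edge `a x` is replaced by the edge `a y` -/
def mv {n : ℕ} (Γ : SimpleGraph (Fin n)) (a x y : Fin n) : SimpleGraph (Fin n) :=
  SimpleGraph.fromEdgeSet (insert s(a, y) (Γ.edgeSet \ {s(a, x)}))

theorem mv_adj {n : ℕ} (Γ : SimpleGraph (Fin n)) (a x y i j : Fin n) :
    (mv Γ a x y).Adj i j ↔
      (s(i, j) = s(a, y) ∨ (Γ.Adj i j ∧ s(i, j) ≠ s(a, x))) ∧ i ≠ j := by
  unfold mv
  rw [SimpleGraph.fromEdgeSet_adj, Set.mem_insert_iff, Set.mem_sdiff, SimpleGraph.mem_edgeSet,
    Set.mem_singleton_iff]

section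

variable {n : ℕ} (P : SimpleGraph (Fin n) → Prop)
  (hP : ∀ G G' : SimpleGraph (Fin n), Nonempty (G ≃g G') → (P G ↔ P G'))

include hP

theorem comap_iff (π : Equiv.Perm (Fin n)) (G : SimpleGraph (Fin n)) :
    P (G.comap π) ↔ P G := hP _ _ ⟨SimpleGraph.Iso.comap π G⟩

theorem mv_first {α : Fin n} {T : Type} [Fintype T] (hT : 2 * Fintype.card T ≤ n)
    (S : Split (fun ρ => P (graphOf α ρ)) α T) (Γ : SimpleGraph (Fin n)) (x y : Fin n)
    (hx : Γ.Adj α x) (hy : ¬ Γ.Adj α y) (hyα : y ≠ α) : P (mv Γ α x y) ↔ P Γ := by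
  classical
  have hxα : x ≠ α := hx.ne'
  have hxy : x ≠ y := fun h => hy (h ▸ hx)
  have h := S.swap_first hT (fun π hπ G => by
      show P (graphOf α (fun i j => G (π i) (π j))) ↔ P (graphOf α G)
      rw [graphOf_comap α G π hπ]; exact comap_iff P hP π _)
    (fun i j => decide (Γ.Adj i j)) x y hxα hyα (by simpa using hx) (by simpa using hy)
  simp only [graphOf_adj] at h
  rw [← h]
  have e : mv Γ α x y = graphOf α (Function.update (fun i j => decide (Γ.Adj i j)) α
      (fun j => decide (Γ.Adj α (Equiv.swap x y j)))) := by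
    ext i j
    rw [mv_adj]
    show _ ↔ (i ≠ j ∧ (if i = α then Function.update (fun i j => decide (Γ.Adj i j)) α
      (fun j => decide (Γ.Adj α (Equiv.swap x y j))) α j = true else if j = α
      then Function.update (fun i j => decide (Γ.Adj i j)) α
      (fun j => decide (Γ.Adj α (Equiv.swap x y j))) α i = true
      else (Function.update (fun i j => decide (Γ.Adj i j)) α
      (fun j => decide (Γ.Adj α (Equiv.swap x y j))) i j = true ∨
        Function.update (fun i j => decide (Γ.Adj i j)) α
      (fun j => decide (Γ.Adj α (Equiv.swap x y j))) j i = true)))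
    have key : ∀ k, k ≠ α → (Γ.Adj α (Equiv.swap x y k) ↔ (k = y ∨ (Γ.Adj α k ∧ k ≠ x))) := by
      intro k _
      by_cases h1 : k = x
      · subst h1
        rw [Equiv.swap_apply_left]
        constructor
        · intro h2; exact absurd h2 hy
        · rintro (h2 | h2)
          · exact absurd h2 hxy
          · exact absurd rfl h2.2
      · by_cases h2 : k = y
        · subst h2
          rw [Equiv.swap_apply_right]
          exact ⟨fun _ => Or.inl rfl, fun _ => hx⟩
        · rw [Equiv.swap_apply_of_ne_of_ne h1 h2]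
          constructor
          · intro h3; exact Or.inr ⟨h3, h1⟩
          · rintro (h3 | h3)
            · exact absurd h3 h2
            · exact h3.1
    by_cases hij : i = j
    · subst hij; simp
    by_cases hi : i = α
    · subst hi
      rw [if_pos rfl, Function.update_self, decide_eq_true_eq, key j (Ne.symm hij)]
      simp only [ne_eq, Sym2.congr_right]
      exact and_comm
    · rw [if_neg hi]
      by_cases hj : j = α
      · subst hj
        rw [if_pos rfl, Function.update_self, decide_eq_true_eq, key i hi]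
        rw [Sym2.eq_swap (a := i) (b := j)]
        simp only [ne_eq, Sym2.congr_right]
        rw [Γ.adj_comm i j]
        exact and_comm
      · rw [if_neg hj, Function.update_of_ne hi, Function.update_of_ne hj]
        have h3 : ∀ z, s(i, j) ≠ s(α, z) := by
          intro z h3
          rcases Sym2.eq_iff.mp h3 with h3 | h3
          · exact hi h3.1
          · exact hj h3.2
        simp only [decide_eq_true_eq]
        constructor
        · rintro ⟨h4 | h4, h5⟩
          · exact absurd h4 (h3 y)
          · exact ⟨h5, Or.inl h4.1⟩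
        · rintro ⟨h4, h5 | h5⟩
          · exact ⟨Or.inr ⟨h5, h3 x⟩, h4⟩
          · exact ⟨Or.inr ⟨h5.symm, h3 x⟩, h4⟩
  rw [e]

theorem mv_any {α : Fin n} {T : Type} [Fintype T] (hT : 2 * Fintype.card T ≤ n)
    (S : Split (fun ρ => P (graphOf α ρ)) α T) (Γ : SimpleGraph (Fin n)) (a x y : Fin n)
    (hx : Γ.Adj a x) (hy : ¬ Γ.Adj a y) (hya : y ≠ a) : P (mv Γ a x y) ↔ P Γ := by
  let θ : Equiv.Perm (Fin n) := Equiv.swap α a
  have hθα : θ α = a := Equiv.swap_apply_left _ _
  have hθθ : ∀ j, θ (θ j) = j := Equiv.swap_apply_self _ _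
  have hθeq : ∀ i z, θ i = z ↔ i = θ z := by
    intro i z
    constructor
    · rintro rfl; rw [hθθ]
    · rintro rfl; rw [hθθ]
  have h := mv_first P hP hT S (Γ.comap θ) (θ x) (θ y)
    (by show Γ.Adj (θ α) (θ (θ x)); rw [hθα, hθθ]; exact hx)
    (by show ¬ Γ.Adj (θ α) (θ (θ y)); rw [hθα, hθθ]; exact hy)
    (by
      intro h
      apply hya
      rw [← hθθ y, h, hθα])
  rw [comap_iff P hP θ Γ] at h
  rw [← h, ← comap_iff P hP θ (mv Γ a x y)]
  have e : (mv Γ a x y).comap θ = mv (Γ.comap θ) α (θ x) (θ y) := by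
    ext i j
    rw [mv_adj]
    show (mv Γ a x y).Adj (θ i) (θ j) ↔ (_ ∨ (Γ.Adj (θ i) (θ j) ∧ _)) ∧ i ≠ j
    rw [mv_adj, θ.injective.ne_iff]
    simp only [ne_eq, Sym2.eq_iff, hθeq]
    have : θ a = α := by rw [← hθα, hθθ]
    rw [this]
  rw [e]

variable {α : Fin n} {T : Type} [Fintype T] (hT : 2 * Fintype.card T ≤ n)
    (S : Split (fun ρ => P (graphOf α ρ)) α T)

include hT S

open Classical in
/-- two edges with a common vertex are exchanged -/
theorem exch_one (F : Finset (Sym2 (Fin n))) (hF : ∀ e ∈ F, ¬ e.IsDiag) (a x y : Fin n)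
    (hx : s(a, x) ∈ F) (hy : s(a, y) ∉ F) (hya : y ≠ a) :
    P (SimpleGraph.fromEdgeSet (insert s(a, y) (F.erase s(a, x)) : Finset (Sym2 (Fin n))))
      ↔ P (SimpleGraph.fromEdgeSet (F : Set (Sym2 (Fin n)))) := by
  have hE : (SimpleGraph.fromEdgeSet (F : Set (Sym2 (Fin n)))).edgeSet = F := by
    rw [SimpleGraph.edgeSet_fromEdgeSet]
    ext e
    constructor
    · intro h; exact h.1
    · intro h; exact ⟨h, hF e h⟩
  have h := mv_any P hP hT S (SimpleGraph.fromEdgeSet (F : Set (Sym2 (Fin n)))) a x y
    (by rw [← SimpleGraph.mem_edgeSet, hE]; exact hx)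
    (by rw [← SimpleGraph.mem_edgeSet, hE]; exact hy) hya
  rw [← h]
  unfold mv
  rw [hE]
  have : ((insert s(a, y) (F.erase s(a, x)) : Finset (Sym2 (Fin n))) : Set (Sym2 (Fin n)))
      = insert s(a, y) ((F : Set (Sym2 (Fin n))) \ {s(a, x)}) := by
    rw [Finset.coe_insert, Finset.coe_erase]
  rw [this]

open Classical in
/-- an edge is replaced by any other pair -/
theorem exch (F : Finset (Sym2 (Fin n))) (hF : ∀ e ∈ F, ¬ e.IsDiag) (e e' : Sym2 (Fin n))
    (he : e ∈ F) (he' : e' ∉ F) (hd : ¬ e'.IsDiag) :
    P (SimpleGraph.fromEdgeSet (insert e' (F.erase e) : Finset (Sym2 (Fin n))))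
      ↔ P (SimpleGraph.fromEdgeSet (F : Set (Sym2 (Fin n)))) := by
  induction e using Sym2.ind with
  | _ a b =>
  induction e' using Sym2.ind with
  | _ c d =>
  have hcd : c ≠ d := by simpa using hd
  have hab : a ≠ b := by simpa using hF _ he
  by_cases hac : a = c
  · subst hac; exact exch_one P hP hT S F hF a b d he he' (Ne.symm hcd)
  by_cases had : a = d
  · subst had
    rw [Sym2.eq_swap (a := c)] at he' ⊢
    exact exch_one P hP hT S F hF a b c he he' hcd
  by_cases hbc : b = c
  · subst hbc
    rw [Sym2.eq_swap (a := a)] at he ⊢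
    exact exch_one P hP hT S F hF b a d he he' (Ne.symm hcd)
  by_cases hbd : b = d
  · subst hbd
    rw [Sym2.eq_swap (a := a)] at he ⊢
    rw [Sym2.eq_swap (a := c)] at he' ⊢
    exact exch_one P hP hT S F hF b a c he he' hcd
  -- disjoint pairs
  have n1 : s(a, b) ≠ s(c, d) := by
    intro h
    rcases Sym2.eq_iff.mp h with h | h
    · exact hac h.1
    · exact had h.1
  have n2 : s(a, b) ≠ s(a, c) := by
    intro h
    exact hbc (Sym2.congr_right.mp h)
  have n3 : s(c, d) ≠ s(a, c) := by
    intro h
    rw [Sym2.eq_swap (a := a)] at h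
    exact had (Sym2.congr_right.mp h).symm
  by_cases hm : s(a, c) ∈ F
  · -- first a c is replaced by c d, then a b by a c
    have hm' : s(c, a) ∈ F := by rw [Sym2.eq_swap]; exact hm
    have h1 := exch_one P hP hT S F hF c a d hm' he' (Ne.symm hcd)
    have h2 := exch_one P hP hT S (insert s(c, d) (F.erase s(c, a)))
      (by
        intro e h
        rcases Finset.mem_insert.mp h with h | h
        · rw [h]; exact hd
        · exact hF e (Finset.mem_of_mem_erase h)) a b c
      (by
        apply Finset.mem_insert_of_mem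
        rw [Finset.mem_erase, Sym2.eq_swap (a := c)]
        exact ⟨n2, he⟩)
      (by
        rw [Finset.mem_insert, Finset.mem_erase, Sym2.eq_swap (a := c) (b := a)]
        rintro (h | h)
        · exact n3 h.symm
        · exact h.1 rfl) (Ne.symm hac)
    rw [← h1, ← h2]
    have : insert s(a, c) ((insert s(c, d) (F.erase s(c, a))).erase s(a, b))
        = insert s(c, d) (F.erase s(a, b)) := by
      rw [Sym2.eq_swap (a := c) (b := a)]
      ext e
      simp only [Finset.mem_insert, Finset.mem_erase]
      constructor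
      · rintro (h | ⟨h, h' | h'⟩)
        · rw [h]; exact Or.inr ⟨n2.symm, hm⟩
        · exact Or.inl h'
        · exact Or.inr ⟨h, h'.2⟩
      · rintro (h | ⟨h, h'⟩)
        · rw [h]; exact Or.inr ⟨n1.symm, Or.inl rfl⟩
        · by_cases h3 : e = s(a, c)
          · exact Or.inl h3
          · exact Or.inr ⟨h, Or.inr ⟨h3, h'⟩⟩
    rw [this]
  · -- first a b is replaced by a c, then a c by c d
    have h1 := exch_one P hP hT S F hF a b c he hm (Ne.symm hac)
    have h2 := exch_one P hP hT S (insert s(a, c) (F.erase s(a, b)))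
      (by
        intro e h
        rcases Finset.mem_insert.mp h with h | h
        · rw [h]; simpa using hac
        · exact hF e (Finset.mem_of_mem_erase h)) c a d
      (by
        rw [Sym2.eq_swap (a := c)]
        exact Finset.mem_insert_self _ _)
      (by
        rw [Finset.mem_insert, Finset.mem_erase]
        rintro (h | h)
        · exact n3 h
        · exact he' h.2) (Ne.symm hcd)
    rw [← h1, ← h2]
    have : insert s(c, d) ((insert s(a, c) (F.erase s(a, b))).erase s(c, a))
        = insert s(c, d) (F.erase s(a, b)) := by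
      rw [Sym2.eq_swap (a := c) (b := a)]
      congr 1
      rw [Finset.erase_insert]
      rw [Finset.mem_erase]
      intro h
      exact hm h.2
    rw [this]

open Classical in
theorem same_card : ∀ (d : ℕ) (F F' : Finset (Sym2 (Fin n))), (∀ e ∈ F, ¬ e.IsDiag) →
    (∀ e ∈ F', ¬ e.IsDiag) → F.card = F'.card → (F' \ F).card = d →
    (P (SimpleGraph.fromEdgeSet (F : Set (Sym2 (Fin n))))
      ↔ P (SimpleGraph.fromEdgeSet (F' : Set (Sym2 (Fin n))))) := by
  intro d
  induction d with
  | zero =>
    intro F F' _ _ hc hd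
    have h1 : F' ⊆ F := Finset.sdiff_eq_empty_iff_subset.mp (Finset.card_eq_zero.mp hd)
    rw [Finset.eq_of_subset_of_card_le h1 hc.le]
  | succ d ih =>
    intro F F' hF hF' hc hd
    have h1 : (F \ F').card = d + 1 := by
      rw [← hd]
      exact Finset.card_sdiff_comm hc
    obtain ⟨e, he⟩ := Finset.card_pos.mp (by omega : 0 < (F \ F').card)
    obtain ⟨e', he'⟩ := Finset.card_pos.mp (by omega : 0 < (F' \ F).card)
    rw [Finset.mem_sdiff] at he he'
    rw [← exch P hP hT S F hF e e' he.1 he'.2 (hF' _ he'.1)]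
    apply ih
    · intro z h
      rcases Finset.mem_insert.mp h with h | h
      · rw [h]; exact hF' _ he'.1
      · exact hF z (Finset.mem_of_mem_erase h)
    · exact hF'
    · rw [Finset.card_insert_of_notMem (fun h => he'.2 (Finset.mem_of_mem_erase h)),
        Finset.card_erase_of_mem he.1, ← hc]
      have : 0 < F.card := Finset.card_pos.mpr ⟨e, he.1⟩
      omega
    · have h2 : F' \ insert e' (F.erase e) = (F' \ F).erase e' := by
        ext z
        simp only [Finset.mem_sdiff, Finset.mem_insert, Finset.mem_erase, not_or, not_and]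
        constructor
        · rintro ⟨h3, h4, h5⟩
          refine ⟨h4, h3, ?_⟩
          by_cases h6 : z = e
          · rw [h6] at h3; exact absurd h3 he.2
          · exact h5 h6
        · rintro ⟨h3, h4, h5⟩
          exact ⟨h4, h3, fun _ => h5⟩
      rw [h2, Finset.card_erase_of_mem (Finset.mem_sdiff.mpr he'), hd]
      omega

/-- the property depends only on the number of edges -/
theorem edges_only (G G' : SimpleGraph (Fin n)) (h : G.edgeSet.ncard = G'.edgeSet.ncard) :
    P G ↔ P G' := by
  classical
  have key : ∀ G : SimpleGraph (Fin n), ∃ F : Finset (Sym2 (Fin n)), (∀ e ∈ F, ¬ e.IsDiag) ∧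
      F.card = G.edgeSet.ncard ∧ SimpleGraph.fromEdgeSet (F : Set (Sym2 (Fin n))) = G := by
    intro G
    refine ⟨G.edgeFinset, ?_, ?_, ?_⟩
    · intro e he
      exact G.not_isDiag_of_mem_edgeSet (SimpleGraph.mem_edgeFinset.mp he)
    · rw [← SimpleGraph.coe_edgeFinset, Set.ncard_coe_finset]
    · rw [SimpleGraph.coe_edgeFinset, SimpleGraph.fromEdgeSet_edgeSet]
  obtain ⟨F, h1, h2, h3⟩ := key G
  obtain ⟨F', h1', h2', h3'⟩ := key G'
  have := same_card P hP hT S _ F F' h1 h1' (by rw [h2, h2', h]) rfl
  rw [h3, h3'] at this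
  exact this

end

/-- the main theorem for undirected graphs -/
theorem Referee.main_undirected {n v : ℕ} {H Q A : Type} [Fintype Q] [Fintype A]
    (M : Referee n H Q A) (h0 : (M.vertex M.start).1 = 0) (hv : M.FirstAsked v)
    (hn : 2 * (Fintype.card A ^ v * Fintype.card Q ^ (v - 1)) ≤ n) :
    (∀ G G' : SimpleGraph (Fin n), Nonempty (G ≃g G') →
        (M.Accepts (upper G) ↔ M.Accepts (upper G'))) ↔
      ∀ G G' : SimpleGraph (Fin n), G.edgeSet.ncard = G'.edgeSet.ncard →
        (M.Accepts (upper G) ↔ M.Accepts (upper G')) := by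
  constructor
  · intro hP G G' h
    rcases Nat.eq_zero_or_pos M.time with ht | ht
    · unfold Referee.Accepts; rw [ht]; exact Iff.rfl
    exact edges_only (fun G => M.Accepts (upper G)) hP
      (α := M.vertex M.start) (T := (Fin v → A) × (Fin (v - 1) → Q))
      (by
        rw [Fintype.card_prod, Fintype.card_fun, Fintype.card_fun, Fintype.card_fin,
          Fintype.card_fin]
        exact hn) (undirSplit (M.split hv ht) h0) G G' h
  · rintro h G G' ⟨φ⟩
    apply h
    have h1 := φ.mapEdgeSet
    rw [← Nat.card_coe_set_eq, ← Nat.card_coe_set_eq]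
    exact Nat.card_congr h1

end Pool.Agent.OnePass
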